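import Pool.Agent.H23R3.PMGeo
import Pool.Agent.Helper254.Dir.LintSph

set_option autoImplicit false

namespace Pool.Agent.H23R3.PM

open MeasureTheory Set Filter Topology Real Metric
open scoped ENNReal

open Pool.Agent.Helper254.Dir (sph lint_sph)

lemma norm_sph {r θ ϕ : ℝ} (hr : 0 ≤ r) : ‖(sph r θ ϕ : E3)‖ = r := by
  have h : ‖(sph r θ ϕ : E3)‖ ^ 2 = r ^ 2 := by
    rw [EuclideanSpace.norm_sq_eq]
    simp only [Fin.sum_univ_three, Real.norm_eq_abs, sq_abs]
    unfold sph
    simp only [Matrix.cons_val_zero, Matrix.cons_val_one, Matrix.cons_val]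
    have h1 := Real.sin_sq_add_cos_sq θ
    have h2 := Real.sin_sq_add_cos_sq ϕ
    have : (r * sin θ * cos ϕ) ^ 2 + (r * sin θ * sin ϕ) ^ 2 + (r * cos θ) ^ 2 =
      r ^ 2 * (sin θ ^ 2 * (sin ϕ ^ 2 + cos ϕ ^ 2) + cos θ ^ 2) := by ring
    rw [this, h2, mul_one, h1, mul_one]
  exact (sq_eq_sq₀ (norm_nonneg _) hr).mp h

lemma zz_sph {r θ ϕ : ℝ} (hr : 0 < r) : zz (sph r θ ϕ) = cos θ := by
  unfold zz
  rw [norm_sph hr.le]
  unfold sph
  simp only [Matrix.cons_val]
  field_simp

lemma measurable_zz : Measurable zz := by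
  unfold zz
  exact (EuclideanSpace.proj (𝕜 := ℝ) (2 : Fin 3)).continuous.measurable.div
    continuous_norm.measurable

lemma lint_theta {φ : ℝ → ℝ} (hφ : Continuous φ) (h0 : ∀ z ∈ Icc (-1 : ℝ) 1, 0 ≤ φ z) :
    ∫⁻ θ in Ioo 0 π, ENNReal.ofReal (sin θ * φ (cos θ)) =
      ENNReal.ofReal (∫ z in (-1 : ℝ)..1, φ z) := by
  have hint : IntervalIntegrable (fun θ => sin θ * φ (cos θ)) volume 0 π :=
    (continuous_sin.mul (hφ.comp continuous_cos)).intervalIntegrable _ _
  have e : ∫ z in (-1 : ℝ)..1, φ z = ∫ θ in (0 : ℝ)..π, sin θ * φ (cos θ) := by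
    have h := intervalIntegral.integral_comp_mul_deriv (a := 0) (b := π) (f := cos)
      (f' := fun x => -sin x) (g := φ) (fun x _ => hasDerivAt_cos x)
      (continuous_sin.neg.continuousOn) hφ
    rw [cos_zero, cos_pi] at h
    rw [intervalIntegral.integral_symm, ← h, ← intervalIntegral.integral_neg]
    refine intervalIntegral.integral_congr fun θ _ => ?_
    simp only [Function.comp]
    ring
  rw [e, intervalIntegral.integral_of_le pi_pos.le, integral_Ioc_eq_integral_Ioo,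
    ofReal_integral_eq_lintegral_ofReal]
  · exact (intervalIntegrable_iff_integrableOn_Ioo_of_le pi_pos.le).mp hint
  · rw [EventuallyLE, ae_restrict_iff' measurableSet_Ioo]
    refine Eventually.of_forall fun θ hθ => ?_
    exact mul_nonneg (sin_nonneg_of_mem_Icc (Ioo_subset_Icc_self hθ))
      (h0 _ ⟨neg_one_le_cos θ, cos_le_one θ⟩)

lemma lint_r {k ε : ℝ} (hk : 0 ≤ k) (hε : 0 < ε) :
    ∫⁻ r in Ioi (0 : ℝ), (Iio ε).indicator (fun r => ENNReal.ofReal (r ^ (k + 2))) r =
      ENNReal.ofReal (ε ^ (k + 3) / (k + 3)) := by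
  rw [setLIntegral_indicator measurableSet_Iio, show Iio ε ∩ Ioi 0 = Ioo 0 ε by
    ext x; constructor <;> rintro ⟨h1, h2⟩ <;> exact ⟨h2, h1⟩]
  have hint : IntervalIntegrable (fun r : ℝ => r ^ (k + 2)) volume 0 ε :=
    intervalIntegral.intervalIntegrable_rpow' (by linarith)
  rw [← ofReal_integral_eq_lintegral_ofReal, ← integral_Ioc_eq_integral_Ioo,
    ← intervalIntegral.integral_of_le hε.le, integral_rpow (Or.inl (by linarith)),
    Real.zero_rpow (by linarith), sub_zero, show k + 2 + 1 = k + 3 by ring]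
  · exact (intervalIntegrable_iff_integrableOn_Ioo_of_le hε.le).mp hint
  · rw [EventuallyLE, ae_restrict_iff' measurableSet_Ioo]
    refine Eventually.of_forall fun r hr => ?_
    exact Real.rpow_nonneg hr.1.le _

lemma lint_ball {k ε : ℝ} (hk : 0 ≤ k) (hε : 0 < ε) {φ : ℝ → ℝ} (hφ : Continuous φ)
    (h0 : ∀ z ∈ Icc (-1 : ℝ) 1, 0 ≤ φ z) :
    ∫⁻ x in ball (0 : E3) ε, ENNReal.ofReal (‖x‖ ^ k * φ (zz x)) =
      ENNReal.ofReal (2 * π * (ε ^ (k + 3) / (k + 3)) * ∫ z in (-1 : ℝ)..1, φ z) := by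
  have hm : Measurable fun x : E3 => ENNReal.ofReal (‖x‖ ^ k * φ (zz x)) :=
    ((measurable_norm.pow_const k).mul (hφ.measurable.comp measurable_zz)).ennreal_ofReal
  rw [← lintegral_indicator measurableSet_ball, lint_sph _ (hm.indicator measurableSet_ball)]
  have hI : 0 ≤ ∫ z in (-1 : ℝ)..1, φ z :=
    intervalIntegral.integral_nonneg (by norm_num) h0
  have e : ∀ r ∈ Ioi (0 : ℝ), ∫⁻ θ in Ioo 0 π, ∫⁻ ϕ in Ioo (-π) π,
      ENNReal.ofReal (r ^ 2 * sin θ) * (ball (0 : E3) ε).indicator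
        (fun x : E3 => ENNReal.ofReal (‖x‖ ^ k * φ (zz x))) (sph r θ ϕ) =
      (Iio ε).indicator (fun r => ENNReal.ofReal (r ^ (k + 2))) r *
        (ENNReal.ofReal (2 * π) * ENNReal.ofReal (∫ z in (-1 : ℝ)..1, φ z)) := by
    intro r hr
    have hr' : (0 : ℝ) < r := hr
    by_cases hre : r < ε
    · rw [indicator_of_mem (show r ∈ Iio ε from hre)]
      have e1 : ∀ θ ∈ Ioo 0 π, ∫⁻ ϕ in Ioo (-π) π,
          ENNReal.ofReal (r ^ 2 * sin θ) * (ball (0 : E3) ε).indicator
            (fun x : E3 => ENNReal.ofReal (‖x‖ ^ k * φ (zz x))) (sph r θ ϕ) =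
          ENNReal.ofReal (r ^ (k + 2)) * (ENNReal.ofReal (2 * π)) *
            ENNReal.ofReal (sin θ * φ (cos θ)) := by
        intro θ hθ
        have hs : 0 ≤ sin θ := sin_nonneg_of_mem_Icc (Ioo_subset_Icc_self hθ)
        have e2 : ∀ ϕ, ENNReal.ofReal (r ^ 2 * sin θ) * (ball (0 : E3) ε).indicator
            (fun x : E3 => ENNReal.ofReal (‖x‖ ^ k * φ (zz x))) (sph r θ ϕ) =
            ENNReal.ofReal (r ^ (k + 2)) * ENNReal.ofReal (sin θ * φ (cos θ)) := by
          intro ϕ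
          have hmem : (sph r θ ϕ : E3) ∈ ball (0 : E3) ε := by
            rw [mem_ball_zero_iff, norm_sph hr'.le]; exact hre
          rw [indicator_of_mem hmem, norm_sph hr'.le, zz_sph hr', ← ENNReal.ofReal_mul (by positivity),
            ← ENNReal.ofReal_mul (by positivity)]
          congr 1
          rw [Real.rpow_add hr', Real.rpow_two]
          ring
        simp only [e2]
        rw [setLIntegral_const, Real.volume_Ioo, show π - -π = 2 * π by ring]
        ring
      rw [setLIntegral_congr_fun measurableSet_Ioo e1, lintegral_const_mul _ (by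
        exact (continuous_sin.mul (hφ.comp continuous_cos)).measurable.ennreal_ofReal),
        lint_theta hφ h0]
      ring
    · rw [indicator_of_notMem (show r ∉ Iio ε from hre), zero_mul]
      have e2 : ∀ θ ϕ, ENNReal.ofReal (r ^ 2 * sin θ) * (ball (0 : E3) ε).indicator
            (fun x : E3 => ENNReal.ofReal (‖x‖ ^ k * φ (zz x))) (sph r θ ϕ) = 0 := by
        intro θ ϕ
        have hmem : (sph r θ ϕ : E3) ∉ ball (0 : E3) ε := by
          rw [mem_ball_zero_iff, norm_sph hr'.le]; exact hre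
        rw [indicator_of_notMem hmem, mul_zero]
      simp only [e2]
      simp
  rw [setLIntegral_congr_fun measurableSet_Ioi e, lintegral_mul_const _ (by
    exact (measurable_id.pow_const (k + 2)).ennreal_ofReal.indicator measurableSet_Iio),
    lint_r hk hε, ← ENNReal.ofReal_mul (by positivity), ← ENNReal.ofReal_mul (by positivity)]
  congr 1
  ring

lemma int_ball_nonneg {k ε : ℝ} (hk : 0 ≤ k) (hε : 0 < ε) {φ : ℝ → ℝ} (hφ : Continuous φ)
    (h0 : ∀ z ∈ Icc (-1 : ℝ) 1, 0 ≤ φ z) :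
    ∫ x in ball (0 : E3) ε, ‖x‖ ^ k * φ (zz x) =
      2 * π * (ε ^ (k + 3) / (k + 3)) * ∫ z in (-1 : ℝ)..1, φ z := by
  have hI : 0 ≤ ∫ z in (-1 : ℝ)..1, φ z :=
    intervalIntegral.integral_nonneg (by norm_num) h0
  rw [integral_eq_lintegral_of_nonneg_ae, lint_ball hk hε hφ h0, ENNReal.toReal_ofReal]
  · positivity
  · refine Eventually.of_forall fun x => ?_
    exact mul_nonneg (Real.rpow_nonneg (norm_nonneg _) _) (h0 _ (zz_mem x))
  · exact ((measurable_norm.pow_const k).mul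
      (hφ.measurable.comp measurable_zz)).aestronglyMeasurable

lemma integrable_ball {k ε : ℝ} (hk : 0 ≤ k) {φ : ℝ → ℝ} (hφ : Continuous φ) :
    IntegrableOn (fun x : E3 => ‖x‖ ^ k * φ (zz x)) (ball (0 : E3) ε) := by
  obtain ⟨C, hC0, hC⟩ := exists_bound hφ
  refine Measure.integrableOn_of_bounded (M := |ε| ^ k * C) (measure_ball_lt_top).ne
    ((measurable_norm.pow_const k).mul (hφ.measurable.comp measurable_zz)).aestronglyMeasurable ?_
  rw [ae_restrict_iff' measurableSet_ball]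
  refine Eventually.of_forall fun x hx => ?_
  rw [norm_mul, Real.norm_of_nonneg (Real.rpow_nonneg (norm_nonneg x) _), Real.norm_eq_abs]
  rw [mem_ball_zero_iff] at hx
  exact mul_le_mul (Real.rpow_le_rpow (norm_nonneg _) (hx.le.trans (le_abs_self _)) hk) (hC x)
    (abs_nonneg _) (by positivity)

lemma int_ball {k ε : ℝ} (hk : 0 ≤ k) (hε : 0 < ε) {φ : ℝ → ℝ} (hφ : Continuous φ) :
    ∫ x in ball (0 : E3) ε, ‖x‖ ^ k * φ (zz x) =
      2 * π * (ε ^ (k + 3) / (k + 3)) * ∫ z in (-1 : ℝ)..1, φ z := by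
  obtain ⟨C, hC⟩ := (isCompact_Icc (a := (-1 : ℝ)) (b := 1)).exists_bound_of_continuousOn
    hφ.continuousOn
  have hC0 : 0 ≤ C := (norm_nonneg _).trans (hC 0 ⟨by norm_num, by norm_num⟩)
  have h1 := int_ball_nonneg hk hε (φ := fun z => φ z + C) (hφ.add continuous_const)
    (fun z hz => by have := (abs_le.mp (hC z hz)).1; linarith)
  have h2 := int_ball_nonneg hk hε (φ := fun _ => C) continuous_const (fun z hz => hC0)
  have e : ∫ x in ball (0 : E3) ε, ‖x‖ ^ k * (φ (zz x) + C) =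
      (∫ x in ball (0 : E3) ε, ‖x‖ ^ k * φ (zz x)) + ∫ x in ball (0 : E3) ε, ‖x‖ ^ k * C := by
    rw [← integral_add (integrable_ball hk hφ)
      (integrable_ball (φ := fun _ => C) hk continuous_const)]
    refine integral_congr_ae (Eventually.of_forall fun x => ?_)
    simp only
    ring
  rw [e, h2] at h1
  rw [intervalIntegral.integral_add (hφ.intervalIntegrable _ _)
    (continuous_const.intervalIntegrable _ _)] at h1
  linarith

lemma vol_ball {ε : ℝ} (hε : 0 < ε) : volume.real (ball (0 : E3) ε) = 4 * π / 3 * ε ^ 3 := by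
  have h := int_ball (k := 0) le_rfl hε (φ := fun _ => 1) continuous_const
  simp only [Real.rpow_zero, mul_one, zero_add] at h
  rw [setIntegral_const] at h
  simp only [smul_eq_mul, mul_one, intervalIntegral.integral_const] at h
  rw [h]
  have : ε ^ (3 : ℝ) = ε ^ 3 := by
    rw [← Real.rpow_natCast]; norm_num
  rw [this]
  ring

lemma int_ft {v : V} (hM : M v.2.2 0 = 0) : ∫ z in (-1 : ℝ)..1, ft v.2.2 z = 2 * av (fv v) := by
  have hc := continuous_ft v.2.2
  have h1 : ∫ z in (-1 : ℝ)..0, ft v.2.2 z = ∫ z in (0 : ℝ)..1, ft v.2.2 z := by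
    have := intervalIntegral.integral_comp_neg (a := 0) (b := 1) (f := ft v.2.2)
    rw [neg_zero] at this
    rw [← this]
    refine intervalIntegral.integral_congr fun z _ => ?_
    exact ft_neg _ _
  have h2 : ∫ z in (0 : ℝ)..1, ft v.2.2 z = av (fv v) := by
    rw [av_apply]
    refine intervalIntegral.integral_congr fun z hz => ?_
    rw [uIcc_of_le zero_le_one] at hz
    rw [ft_fv hM hz, ext_of_mem _ hz]
  rw [← intervalIntegral.integral_add_adjacent_intervals (hc.intervalIntegrable (-1) 0)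
    (hc.intervalIntegrable 0 1), h1, h2]
  ring

theorem avg_uu {v : V} (hM : M v.2.2 0 = 0) (hk : 1 < v.2.1) {ε : ℝ} (hε : 0 < ε) :
    ⨍ y in ball (0 : E3) ε, uu v y = ε ^ v.2.1 * (3 / (3 + v.2.1) * av (fv v)) := by
  rw [setAverage_eq, vol_ball hε]
  have h := int_ball (k := v.2.1) (by linarith) hε (continuous_ft v.2.2)
  have e : ∫ x in ball (0 : E3) ε, uu v x = _ := h
  rw [e, int_ft hM, smul_eq_mul, Real.rpow_add hε]
  have : ε ^ (3 : ℝ) = ε ^ 3 := by
    rw [← Real.rpow_natCast]; norm_num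
  rw [this]
  have hpi := pi_pos
  have : v.2.1 + 3 ≠ 0 := by linarith
  have : 3 + v.2.1 ≠ 0 := by linarith
  field_simp
  ring

end Pool.Agent.H23R3.PM
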