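import Pool.Agent.H23R3.PMIft

set_option autoImplicit false

namespace Pool.Agent.H23R3.PM

open MeasureTheory Set Filter Topology Real intervalIntegral

lemma tv_M : M tv.2.2 0 = 0 := by
  have := congrArg (fun w : V => w.2.1) tv_spec
  exact this

lemma tv_fst : tv.1 = 1 := congrArg Prod.fst tv_spec

lemma tv_eq : tv.2.2 + (6 : ℝ) • Fop tv.2.2 + (5 * tv.2.1) • pP = -(ri * Gg v0) := by
  have h1 : EL tv = 0 := congrArg (fun w : V => w.2.2) tv_spec
  rw [EL_apply, tv_fst, one_smul] at h1
  have h2 : rho v0 * NL tv = -Gg v0 := eq_neg_of_add_eq_zero_left h1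
  have h3 : NL tv = -(ri * Gg v0) := by
    calc NL tv = (ri * rho v0) * NL tv := by rw [ri_mul, one_mul]
      _ = ri * (rho v0 * NL tv) := mul_assoc _ _ _
      _ = -(ri * Gg v0) := by rw [h2, mul_neg]
  rw [← h3, NL_apply, add_assoc]

lemma riG (z : unitInterval) : (ri * Gg v0) z = 3 - 4 * (1 + 3 * (z : ℝ) ^ 2)⁻¹ := by
  rw [ContinuousMap.mul_apply, Gg_v0]
  change (1 + 3 * (z : ℝ) ^ 2)⁻¹ * (9 * (z : ℝ) ^ 2 - 1) = _
  have : (1 + 3 * (z : ℝ) ^ 2) ≠ 0 := by positivity
  field_simp
  ring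

lemma cont_inv : Continuous (fun z : ℝ => (1 + 3 * z ^ 2)⁻¹) := by
  have : ∀ z : ℝ, 1 + 3 * z ^ 2 ≠ 0 := fun z => by positivity
  fun_prop (disch := assumption)

lemma ip_riG : ip (ri * Gg v0) = -2 + 4 * (π / (3 * √3)) := by
  unfold ip
  have e : ∫ z in (0 : ℝ)..1, ext (ri * Gg v0) z * PP z =
      ∫ z in (0 : ℝ)..1, ((3 * PP z - 2) + 4 * (1 + 3 * z ^ 2)⁻¹) := by
    refine intervalIntegral.integral_congr fun z hz => ?_
    rw [uIcc_of_le zero_le_one] at hz
    rw [ext_of_mem _ hz, riG]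
    unfold PP
    have : (1 + 3 * (z : ℝ) ^ 2) ≠ 0 := by positivity
    simp only
    field_simp
    ring
  rw [e, intervalIntegral.integral_add, intervalIntegral.integral_sub,
    intervalIntegral.integral_const_mul, int_PP, intervalIntegral.integral_const_mul, int_inv]
  · simp
  · exact (continuous_const.mul continuous_PP).intervalIntegrable _ _
  · exact continuous_const.intervalIntegrable _ _
  · exact ((continuous_const.mul continuous_PP).sub continuous_const).intervalIntegrable _ _
  · exact (continuous_const.mul cont_inv).intervalIntegrable _ _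

/-- the total integral -/
noncomputable def av : X →L[ℝ] ℝ :=
  LinearMap.mkContinuous
    { toFun := fun g => ∫ z in (0 : ℝ)..1, ext g z
      map_add' := by
        intro f g
        rw [← intervalIntegral.integral_add ((continuous_ext f).intervalIntegrable _ _)
          ((continuous_ext g).intervalIntegrable _ _)]
        rfl
      map_smul' := by
        intro c f
        simp only [RingHom.id_apply, smul_eq_mul]
        rw [← intervalIntegral.integral_const_mul]
        rfl } 1 (by
      intro g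
      change ‖∫ z in (0 : ℝ)..1, ext g z‖ ≤ 1 * ‖g‖
      have := intervalIntegral.norm_integral_le_of_norm_le_const (a := 0) (b := 1)
        (f := ext g) (C := ‖g‖) (fun z _ => abs_ext_le g z)
      simpa using this)

lemma av_apply (g : X) : av g = ∫ z in (0 : ℝ)..1, ext g z := rfl

lemma av_M (g : X) : av g = M g 0 := by
  rw [← Wr_zero]
  rfl

lemma av_pP : av pP = 0 := by
  refine Eq.trans ?_ int_PP
  rw [av_apply]
  refine intervalIntegral.integral_congr fun z hz => ?_
  rw [uIcc_of_le zero_le_one] at hz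
  rw [ext_of_mem _ hz]
  rfl

lemma av_riG : av (ri * Gg v0) = 3 - 4 * (π / (3 * √3)) := by
  rw [av_apply]
  have e : ∫ z in (0 : ℝ)..1, ext (ri * Gg v0) z =
      ∫ z in (0 : ℝ)..1, ((3 : ℝ) - 4 * (1 + 3 * z ^ 2)⁻¹) := by
    refine intervalIntegral.integral_congr fun z hz => ?_
    rw [uIcc_of_le zero_le_one] at hz
    rw [ext_of_mem _ hz, riG]
  rw [e, intervalIntegral.integral_sub, intervalIntegral.integral_const_mul, int_inv]
  · simp
  · exact continuous_const.intervalIntegrable _ _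
  · exact (continuous_const.mul cont_inv).intervalIntegrable _ _

lemma sqrt3_bounds : (1.73 : ℝ) < √3 ∧ √3 < 1.74 := by
  constructor
  · apply Real.lt_sqrt_of_sq_lt; norm_num
  · rw [Real.sqrt_lt' (by norm_num)]; norm_num

lemma tv_k : tv.2.1 = 2 - 4 * (π / (3 * √3)) := by
  have h1 := congrArg ip tv_eq
  have h2 : ip (-(ri * Gg v0)) = -ip (ri * Gg v0) := by
    have := ip_smul (-1) (ri * Gg v0)
    rw [neg_one_smul] at this
    rw [this]; ring
  rw [ip_add, green', tv_M, ip_smul, ip_pP, h2, ip_riG] at h1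
  linarith

lemma tv_k_neg : tv.2.1 < 0 := by
  rw [tv_k]
  obtain ⟨h1, h2⟩ := sqrt3_bounds
  have h3 : 0 < √3 := by linarith
  have h4 := pi_gt_three
  have h5 : 1 / 2 < π / (3 * √3) := by
    rw [lt_div_iff₀ (by positivity)]
    linarith
  linarith

lemma tv_av : av (Fop tv.2.2) = (-3 + 4 * (π / (3 * √3))) / 6 := by
  have h1 := congrArg av tv_eq
  rw [map_add, map_add, map_smul, map_smul, map_neg, av_pP, av_riG, av_M tv.2.2, tv_M] at h1
  simp only [smul_eq_mul] at h1
  linarith

/-- maximum and minimum -/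
noncomputable def smax (f : X) : ℝ := sSup (range f)
noncomputable def smin (f : X) : ℝ := sInf (range f)

lemma isCompact_range_X (f : X) : IsCompact (range f) := isCompact_range f.continuous

lemma le_smax (f : X) (z : unitInterval) : f z ≤ smax f :=
  le_csSup (isCompact_range_X f).bddAbove (mem_range_self z)

lemma smin_le (f : X) (z : unitInterval) : smin f ≤ f z :=
  csInf_le (isCompact_range_X f).bddBelow (mem_range_self z)

lemma smax_le {f : X} {c : ℝ} (h : ∀ z, f z ≤ c) : smax f ≤ c := by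
  apply csSup_le (range_nonempty _)
  rintro _ ⟨z, rfl⟩
  exact h z

lemma le_smin {f : X} {c : ℝ} (h : ∀ z, c ≤ f z) : c ≤ smin f := by
  apply le_csInf (range_nonempty _)
  rintro _ ⟨z, rfl⟩
  exact h z

lemma smax_lip (f g : X) : |smax f - smax g| ≤ ‖f - g‖ := by
  have key : ∀ f g : X, smax f ≤ smax g + ‖f - g‖ := by
    intro f g
    apply smax_le
    intro z
    have h1 := (f - g).norm_coe_le_norm z
    rw [Real.norm_eq_abs] at h1
    have h2 := le_abs_self ((f - g) z)
    rw [ContinuousMap.sub_apply] at h1 h2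
    have h3 := le_smax g z
    linarith
  rw [abs_le]
  have h1 := key f g
  have h2 := key g f
  rw [norm_sub_rev] at h2
  constructor <;> linarith

lemma smin_lip (f g : X) : |smin f - smin g| ≤ ‖f - g‖ := by
  have key : ∀ f g : X, smin f - ‖f - g‖ ≤ smin g := by
    intro f g
    apply le_smin
    intro z
    have h1 := (f - g).norm_coe_le_norm z
    rw [Real.norm_eq_abs] at h1
    have h2 := le_abs_self ((f - g) z)
    rw [ContinuousMap.sub_apply] at h1 h2
    have h3 := smin_le f z
    linarith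
  rw [abs_le]
  have h1 := key f g
  have h2 := key g f
  rw [norm_sub_rev] at h2
  constructor <;> linarith

lemma continuous_smax : Continuous smax := by
  refine (LipschitzWith.of_dist_le_mul (K := 1) fun f g => ?_).continuous
  rw [Real.dist_eq, dist_eq_norm, NNReal.coe_one, one_mul]
  exact smax_lip f g

lemma continuous_smin : Continuous smin := by
  refine (LipschitzWith.of_dist_le_mul (K := 1) fun f g => ?_).continuous
  rw [Real.dist_eq, dist_eq_norm, NNReal.coe_one, one_mul]
  exact smin_lip f g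

lemma smax_pP : smax pP = 1 := by
  apply le_antisymm
  · apply smax_le
    intro z
    rw [pP_apply]
    unfold PP
    have h1 := z.2.1
    have h2 := z.2.2
    nlinarith
  · have := le_smax pP 1
    rw [pP_apply] at this
    unfold PP at this
    norm_num at this
    exact this

lemma smin_pP : smin pP = -1 / 2 := by
  apply le_antisymm
  · have := smin_le pP 0
    rw [pP_apply] at this
    unfold PP at this
    norm_num at this
    linarith
  · apply le_smin
    intro z
    rw [pP_apply]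
    unfold PP
    have h1 := z.2.1
    nlinarith

/-- the constant in the expansion -/
noncomputable def cst (v : V) : ℝ :=
  (v.1 - 2) / (2 * (v.1 + 3)) * (smax (fv v) + smin (fv v)) +
    5 / (v.1 + 3) * (3 / (3 + v.2.1)) * av (fv v)

lemma continuousAt_crv : ContinuousAt crv 2 := crv_deriv.continuousAt

lemma av_one : av (1 : X) = 1 := by
  rw [av_apply]
  have : ∀ z, ext (1 : X) z = 1 := fun z => rfl
  simp [this]

lemma deriv_av : HasDerivAt (fun p => av (fv (crv p))) ((-3 + 4 * (π / (3 * √3))) / 6) 2 := by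
  have h1 : HasDerivAt (fun p => (crv p).2.2) tv.2.2 2 :=
    (hL.hasFDerivAt (x := crv 2)).comp_hasDerivAt 2 crv_deriv
  have h2 := ((av.comp Fop).hasFDerivAt (x := (crv 2).2.2)).comp_hasDerivAt 2 h1
  have h3 := h2.const_add (av 1)
  have e : (fun p => av (fv (crv p))) = fun p => av 1 + (av.comp Fop) (crv p).2.2 := by
    ext p
    unfold fv
    rw [map_add]
    rfl
  rw [e]
  refine h3.congr_deriv ?_
  exact tv_av

lemma deriv_k : HasDerivAt (fun p => (crv p).2.1) tv.2.1 2 :=
  (kL.hasFDerivAt (x := crv 2)).comp_hasDerivAt 2 crv_deriv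

lemma av_two : av (fv (crv 2)) = 0 := by
  rw [crv_two, fv_v0, av_pP]

lemma continuousAt_fv : ContinuousAt (fun p => fv (crv p)) 2 :=
  contDiff_fv.continuous.continuousAt.comp continuousAt_crv

lemma slope_tendsto {f : ℝ → ℝ} {f' : ℝ} (h : HasDerivAt f f' 2) :
    Tendsto (fun p => (f p - f 2) / (p - 2)) (𝓝[>] 2) (𝓝 f') := by
  have h1 := (hasDerivAt_iff_tendsto_slope.mp h).mono_left
    (nhdsWithin_mono 2 (fun x (hx : (2 : ℝ) < x) => (ne_of_gt hx : x ≠ 2)))
  refine h1.congr fun p => ?_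
  rw [slope_def_field]

lemma cst_tendsto : Tendsto (fun p => ((p - 2) / (2 * (p + 3)) *
      (smax (fv (crv p)) + smin (fv (crv p))) +
    5 / (p + 3) * (3 / (3 + (crv p).2.1)) * av (fv (crv p))) / (p - 2)) (𝓝[>] 2)
    (𝓝 (1 / 10 * (1 + -1 / 2) +
      5 / 5 * (3 / 5) * ((-3 + 4 * (π / (3 * √3))) / 6))) := by
  have h1 : Tendsto (fun p => smax (fv (crv p)) + smin (fv (crv p))) (𝓝[>] 2)
      (𝓝 (1 + -1 / 2)) := by
    have ha := (continuous_smax.continuousAt.comp continuousAt_fv).tendsto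
    have hb := (continuous_smin.continuousAt.comp continuousAt_fv).tendsto
    have := (ha.add hb).mono_left (nhdsWithin_le_nhds (s := Ioi (2 : ℝ)))
    simp only [Function.comp, crv_two, fv_v0, smax_pP, smin_pP] at this
    exact this
  have h2 := slope_tendsto deriv_av
  rw [av_two] at h2
  have h3 : Tendsto (fun p : ℝ => 1 / (2 * (p + 3))) (𝓝[>] 2) (𝓝 (1 / 10)) := by
    have : ContinuousAt (fun p : ℝ => 1 / (2 * (p + 3))) 2 := by
      apply ContinuousAt.div₀ <;> first | fun_prop | norm_num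
    have := this.tendsto.mono_left (nhdsWithin_le_nhds (s := Ioi (2 : ℝ)))
    norm_num at this ⊢
    exact this
  have h4 : Tendsto (fun p : ℝ => 5 / (p + 3)) (𝓝[>] 2) (𝓝 (5 / 5)) := by
    have : ContinuousAt (fun p : ℝ => 5 / (p + 3)) 2 := by
      apply ContinuousAt.div₀ <;> first | fun_prop | norm_num
    have := this.tendsto.mono_left (nhdsWithin_le_nhds (s := Ioi (2 : ℝ)))
    norm_num at this ⊢
    exact this
  have h5 : Tendsto (fun p : ℝ => 3 / (3 + (crv p).2.1)) (𝓝[>] 2) (𝓝 (3 / 5)) := by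
    have hk := deriv_k.continuousAt
    have hk2 : (crv 2).2.1 = 2 := by rw [crv_two]; rfl
    have : ContinuousAt (fun p : ℝ => 3 / (3 + (crv p).2.1)) 2 := by
      apply ContinuousAt.div₀ continuousAt_const (continuousAt_const.add hk)
      change 3 + (crv 2).2.1 ≠ 0
      rw [hk2]
      norm_num
    have := this.tendsto.mono_left (nhdsWithin_le_nhds (s := Ioi (2 : ℝ)))
    rw [hk2] at this
    norm_num at this ⊢
    exact this
  refine ((h3.mul h1).add ((h4.mul h5).mul h2)).congr' ?_
  filter_upwards [self_mem_nhdsWithin] with p hp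
  have hp2 : p - 2 ≠ 0 := sub_ne_zero.mpr (ne_of_gt hp)
  rw [sub_zero]
  field_simp

lemma lim_neg : 1 / 10 * (1 + -1 / 2) +
      5 / 5 * (3 / 5) * ((-3 + 4 * (π / (3 * √3))) / 6) < 0 := by
  obtain ⟨h1, h2⟩ := sqrt3_bounds
  have h3 : 0 < √3 := by linarith
  have h4 := pi_lt_d2
  have h5 : π / (3 * √3) < 5 / 8 := by
    rw [div_lt_iff₀ (by positivity)]
    linarith
  linarith

lemma pi_div_lt : π / (3 * √3) < 5 / 8 := by
  obtain ⟨h1, h2⟩ := sqrt3_bounds
  have h3 : 0 < √3 := by linarith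
  have h4 := pi_lt_d2
  rw [div_lt_iff₀ (by positivity)]
  linarith

lemma mu_ev : ∀ᶠ p in 𝓝[>] (2 : ℝ), 1 < ((crv p).2.1 - 1) * (p - 1) := by
  have hk2 : (crv 2).2.1 = 2 := by rw [crv_two]; rfl
  have h1 : HasDerivAt (fun p => ((crv p).2.1 - 1) * (p - 1)) (tv.2.1 * (2 - 1) +
      ((crv 2).2.1 - 1) * 1) 2 := (deriv_k.sub_const 1).mul ((hasDerivAt_id 2).sub_const 1)
  have h2 := slope_tendsto h1
  have h3 : 0 < tv.2.1 * (2 - 1) + ((crv 2).2.1 - 1) * 1 := by
    rw [hk2, tv_k]
    have := pi_div_lt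
    linarith
  filter_upwards [h2.eventually_const_lt h3, self_mem_nhdsWithin] with p hp hp2
  have hp0 : 0 < p - 2 := by
    have : (2 : ℝ) < p := hp2
    linarith
  rw [hk2] at hp
  have := (lt_div_iff₀ hp0).mp hp
  linarith

theorem exists_profile : ∃ v : V, 2 < v.1 ∧ v.1 < 3 ∧ 1 < v.2.1 ∧ v.2.1 < 2 ∧
    M v.2.2 0 = 0 ∧ Ee v = 0 ∧ (∀ z, 0 < rho v z) ∧ 0 < smax (fv v) ∧ smin (fv v) < 0 ∧
    cst v ≠ 0 ∧ 1 < (v.2.1 - 1) * (v.1 - 1) := by
  have e1 := crv_spec.filter_mono (nhdsWithin_le_nhds (s := Ioi (2 : ℝ)))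
  have e2 : ∀ᶠ p in 𝓝[>] (2 : ℝ), p < 3 :=
    (eventually_lt_nhds (by norm_num)).filter_mono nhdsWithin_le_nhds
  have e3 : ∀ᶠ p in 𝓝[>] (2 : ℝ), ((crv p).2.1 - 2) / (p - 2) < 0 := by
    have h := slope_tendsto deriv_k
    have hk2 : (crv 2).2.1 = 2 := by rw [crv_two]; rfl
    rw [hk2] at h
    exact h.eventually_lt_const tv_k_neg
  have e4 : ∀ᶠ p in 𝓝[>] (2 : ℝ), 1 < (crv p).2.1 := by
    have hk := deriv_k.continuousAt
    have hk2 : (crv 2).2.1 = 2 := by rw [crv_two]; rfl
    have : ∀ᶠ p in 𝓝 (2 : ℝ), 1 < (crv p).2.1 := by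
      apply hk.tendsto.eventually_const_lt
      rw [hk2]; norm_num
    exact this.filter_mono nhdsWithin_le_nhds
  have e5 : ∀ᶠ p in 𝓝[>] (2 : ℝ), ‖rho (crv p) - rho v0‖ < 1 / 2 := by
    have h : ContinuousAt (fun p => rho (crv p)) 2 :=
      contDiff_rho.continuous.continuousAt.comp continuousAt_crv
    have h2 := (h.sub (continuousAt_const (y := rho v0))).norm
    have h3 : ‖rho (crv 2) - rho v0‖ < 1 / 2 := by
      rw [crv_two, sub_self, norm_zero]; norm_num
    exact (h2.tendsto.eventually_lt_const h3).filter_mono nhdsWithin_le_nhds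
  have e6 : ∀ᶠ p in 𝓝[>] (2 : ℝ), 0 < smax (fv (crv p)) := by
    have h := (continuous_smax.continuousAt.comp continuousAt_fv)
    have : 0 < (smax ∘ fun p => fv (crv p)) 2 := by
      simp only [Function.comp]
      rw [crv_two, fv_v0, smax_pP]
      norm_num
    exact (h.tendsto.eventually_const_lt this).filter_mono nhdsWithin_le_nhds
  have e7 : ∀ᶠ p in 𝓝[>] (2 : ℝ), smin (fv (crv p)) < 0 := by
    have h := (continuous_smin.continuousAt.comp continuousAt_fv)
    have : (smin ∘ fun p => fv (crv p)) 2 < 0 := by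
      simp only [Function.comp]
      rw [crv_two, fv_v0, smin_pP]
      norm_num
    exact (h.tendsto.eventually_lt_const this).filter_mono nhdsWithin_le_nhds
  have e8 := cst_tendsto.eventually_lt_const lim_neg
  have e9 : ∀ᶠ p in 𝓝[>] (2 : ℝ), 2 < p := self_mem_nhdsWithin
  obtain ⟨p, h1, h2, h3, h4, h5, h6, h7, h8, h9, h10'⟩ :=
    (e1.and (e2.and (e3.and (e4.and (e5.and (e6.and (e7.and (e8.and (e9.and mu_ev))))))))).exists
  have hp : (crv p).1 = p := congrArg Prod.fst h1
  have hp0 : 0 < p - 2 := by linarith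
  refine ⟨crv p, by rw [hp]; exact h9, by rw [hp]; exact h2, h4, ?_, ?_, ?_, ?_, h6, h7, ?_,
    by rw [hp]; exact h10'⟩
  · have := (div_lt_iff₀ hp0).mp h3
    linarith
  · exact congrArg (fun w : V => w.2.1) h1
  · exact congrArg (fun w : V => w.2.2) h1
  · intro z
    have h10 := (rho (crv p) - rho v0).norm_coe_le_norm z
    rw [Real.norm_eq_abs, ContinuousMap.sub_apply, rho_v0] at h10
    have h11 := (abs_lt.mp (h10.trans_lt h5)).1
    have h12 : 0 ≤ (z : ℝ) ^ 2 := sq_nonneg _
    linarith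
  · intro hc
    unfold cst at hc
    rw [hp] at hc
    rw [hc] at h8
    simp at h8

end Pool.Agent.H23R3.PM
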