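import Pool.Agent.H23R3.PMGeo

set_option autoImplicit false

namespace Pool.Agent.H23R3.PM

open MeasureTheory Set Filter Topology Real Metric
open scoped ContDiff

noncomputable def sq2 (x : E3) : ℝ := x 0 ^ 2 + x 1 ^ 2

def UU : Set E3 := {x | 0 < sq2 x}

lemma sq2_nonneg (x : E3) : 0 ≤ sq2 x := by unfold sq2; positivity

lemma contDiff_co (i : Fin 3) : ContDiff ℝ ∞ fun x : E3 => x i :=
  (EuclideanSpace.proj i : E3 →L[ℝ] ℝ).contDiff

lemma contDiff_sq2 : ContDiff ℝ ∞ sq2 := ((contDiff_co 0).pow 2).add ((contDiff_co 1).pow 2)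

lemma isOpen_UU : IsOpen UU := isOpen_lt continuous_const contDiff_sq2.continuous

lemma norm_sq_eq (x : E3) : ‖x‖ ^ 2 = sq2 x + x 2 ^ 2 := by
  rw [EuclideanSpace.norm_sq_eq]
  simp only [Fin.sum_univ_three, Real.norm_eq_abs, sq_abs]
  rfl

lemma ne_zero_of_UU {x : E3} (hx : x ∈ UU) : x ≠ 0 := by
  rintro rfl
  have : (0 : ℝ) < sq2 0 := hx
  simp [sq2] at this

lemma sq2_eq {x : E3} (hx : x ≠ 0) : sq2 x = ‖x‖ ^ 2 * (1 - zz x ^ 2) := by
  have h := zz_mul hx
  have h2 := norm_sq_eq x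
  have : ‖x‖ ^ 2 * (1 - zz x ^ 2) = ‖x‖ ^ 2 - (zz x * ‖x‖) ^ 2 := by ring
  rw [this, h, h2]
  ring

lemma zz_mem_Ioo {x : E3} (hx : x ∈ UU) : zz x ∈ Ioo (-1 : ℝ) 1 := by
  have h0 := ne_zero_of_UU hx
  have h1 := sq2_eq h0
  have h2 : (0 : ℝ) < sq2 x := hx
  rw [h1] at h2
  have h3 : 0 < 1 - zz x ^ 2 := pos_of_mul_pos_right h2 (by positivity)
  exact abs_lt.mp ((sq_lt_one_iff_abs_lt_one _).mp (by linarith))

lemma ae_UU : ∀ᵐ x : E3, x ∈ UU := by
  have key : volume {z : E3 | z 0 = 0} = 0 := by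
    have : {z : E3 | z 0 = 0} =
        ((LinearMap.ker (EuclideanSpace.proj 0 : E3 →L[ℝ] ℝ).toLinearMap : Submodule ℝ E3) :
          Set E3) := by
      ext z
      simp
    rw [this]
    apply Measure.addHaar_submodule
    intro h
    have h2 : (EuclideanSpace.single 0 (1:ℝ) : E3) ∈
        LinearMap.ker (EuclideanSpace.proj 0 : E3 →L[ℝ] ℝ).toLinearMap := by
      rw [h]
      trivial
    simp at h2
  have h0 : ∀ᵐ z : E3, z 0 ≠ 0 := by
    rw [ae_iff]
    simpa using key
  filter_upwards [h0] with z hz0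
  show 0 < sq2 z
  unfold sq2
  positivity

section
variable (v : V)

noncomputable def ca (x : E3) : ℝ := ‖x‖ ^ (mu v - 1) * al v (zz x)
noncomputable def cb (x : E3) : ℝ := ‖x‖ ^ mu v * be v (zz x)
noncomputable def VV (x : E3) : E3 := ca v x • x + cb v x • e2

lemma continuous_rt : Continuous (rt v) :=
  (continuous_const.mul ((continuous_ft _).pow 2)).add
    ((continuous_const.sub (continuous_id.pow 2)).mul ((continuous_yt _).pow 2))

lemma continuous_be (hp : 2 < v.1) : Continuous (be v) := by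
  have hq : 0 ≤ qq v := by unfold qq; linarith
  exact ((continuous_rt v).rpow_const fun _ => Or.inr hq).mul (continuous_yt _)

lemma continuous_al (hp : 2 < v.1) : Continuous (al v) := by
  have hq : 0 ≤ qq v := by unfold qq; linarith
  exact ((continuous_rt v).rpow_const fun _ => Or.inr hq).mul
    ((continuous_const.mul (continuous_ft _)).sub (continuous_id.mul (continuous_yt _)))

lemma continuous_VV (hp : 2 < v.1) (hmu : 1 < mu v) : Continuous (VV v) :=
  continuous_field (by linarith) (continuous_al v hp) (continuous_be v hp)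

lemma continuous_ca (hp : 2 < v.1) (hmu : 1 < mu v) : Continuous (ca v) := by
  rw [continuous_iff_continuousAt]
  intro x
  by_cases hx : x = 0
  · subst hx
    obtain ⟨C, hC0, hC⟩ := exists_bound (continuous_al v hp)
    have h0 : ca v 0 = 0 := by
      unfold ca
      rw [norm_zero, Real.zero_rpow (by linarith), zero_mul]
    show Tendsto (ca v) (𝓝 0) (𝓝 (ca v 0))
    rw [h0, tendsto_zero_iff_norm_tendsto_zero]
    have h1 : Tendsto (fun x : E3 => ‖x‖ ^ (mu v - 1) * C) (𝓝 0) (𝓝 0) := by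
      have := (tendsto_npow (s := mu v - 1) (by linarith)).mul_const C
      simpa using this
    refine squeeze_zero (fun _ => norm_nonneg _) (fun x => ?_) h1
    unfold ca
    rw [norm_mul, Real.norm_of_nonneg (Real.rpow_nonneg (norm_nonneg x) _), Real.norm_eq_abs]
    exact mul_le_mul_of_nonneg_left (hC x) (Real.rpow_nonneg (norm_nonneg x) _)
  · exact (continuousAt_npow hx _).mul
      ((continuous_al v hp).continuousAt.comp (continuousAt_zz hx))

lemma Gr_zero (hk : 1 < v.2.1) : Gr v 0 = 0 := by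
  unfold Gr
  rw [norm_zero, Real.zero_rpow (by linarith : v.2.1 - 1 ≠ 0), smul_zero, zero_mul, zero_smul,
    add_zero]

lemma VV_eq (hM : M v.2.2 0 = 0) (hr : ∀ z, 0 < rho v z) (hk : 1 < v.2.1)
    (hmu : 1 < mu v) (x : E3) : ‖Gr v x‖ ^ (v.1 - 2) • Gr v x = VV v x := by
  by_cases hx : x = 0
  · subst hx
    rw [Gr_zero v hk, smul_zero]
    unfold VV cb
    rw [norm_zero, Real.zero_rpow (by linarith : mu v ≠ 0), smul_zero, zero_mul, zero_smul,
      add_zero]
  · have hpos := norm_pos' hx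
    have hrt := rt_pos hM hr (zz_mem x)
    have e1 : ‖Gr v x‖ ^ (v.1 - 2) = ‖x‖ ^ ((v.2.1 - 1) * (v.1 - 2)) * rt v (zz x) ^ qq v := by
      have : ‖Gr v x‖ ^ (v.1 - 2) = (‖Gr v x‖ ^ 2) ^ qq v := by
        rw [← Real.rpow_natCast, ← Real.rpow_mul (norm_nonneg _)]
        congr 1
        unfold qq
        push_cast
        ring
      rw [this, norm_Gr_sq v hx, Real.mul_rpow (by positivity) hrt.le, ← Real.rpow_natCast,
        ← Real.rpow_mul hpos.le, ← Real.rpow_mul hpos.le]
      congr 2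
      unfold qq
      push_cast
      ring
    have e2 : ‖x‖ ^ (mu v - 1) = ‖x‖ ^ ((v.2.1 - 1) * (v.1 - 2)) * ‖x‖ ^ (v.2.1 - 2) := by
      rw [← Real.rpow_add hpos]
      congr 1
      unfold mu
      ring
    have e3 : ‖x‖ ^ (mu v) = ‖x‖ ^ ((v.2.1 - 1) * (v.1 - 2)) * ‖x‖ ^ (v.2.1 - 1) := by
      rw [← Real.rpow_add hpos]
      congr 1
      unfold mu
      ring
    rw [e1]
    unfold VV ca cb Gr al be
    rw [e2, e3, smul_add, smul_smul, smul_smul]
    congr 2 <;> ring

/-! ### regularity -/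

lemma contDiff_ft (h : X) : ContDiff ℝ 1 (ft h) := by
  rw [contDiff_one_iff_deriv]
  refine ⟨fun t => (hasDerivAt_ft h t).differentiableAt, ?_⟩
  have : deriv (ft h) = yt h := funext fun t => (hasDerivAt_ft h t).deriv
  rw [this]
  exact continuous_yt h

lemma contDiff_Wt (h : X) : ContDiff ℝ 1 (Wt h) := by
  rw [contDiff_one_iff_deriv]
  refine ⟨fun t => (hasDerivAt_Wt h t).differentiableAt, ?_⟩
  have : deriv (Wt h) = fun t => -ht h t := funext fun t => (hasDerivAt_Wt h t).deriv
  rw [this]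
  exact (continuous_ht h).neg

lemma contDiffAt_yt {h : X} (hM : M h 0 = 0) {z : ℝ} (hz : z ∈ Ioo (-1 : ℝ) 1) :
    ContDiffAt ℝ 1 (yt h) z := by
  have hpos : 0 < 1 - z ^ 2 := by nlinarith [hz.1, hz.2]
  have h1 : ContDiffAt ℝ 1 (fun z => -Wt h z / (1 - z ^ 2)) z := by
    refine ContDiffAt.div (contDiff_Wt h).contDiffAt.neg ?_ hpos.ne'
    exact (contDiff_const.sub (contDiff_id.pow 2)).contDiffAt
  refine h1.congr_of_eventuallyEq ?_
  filter_upwards [isOpen_Ioo.mem_nhds hz] with s hs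
  have hs2 : 0 < 1 - s ^ 2 := by nlinarith [hs.1, hs.2]
  rw [eq_div_iff hs2.ne', mul_comm]
  exact yt_eq hM (Ioo_subset_Icc_self hs)

lemma contDiffAt_rt (hM : M v.2.2 0 = 0) {z : ℝ} (hz : z ∈ Ioo (-1 : ℝ) 1) :
    ContDiffAt ℝ 1 (rt v) z := by
  have h1 := (contDiff_ft v.2.2).contDiffAt (x := z)
  have h2 := contDiffAt_yt hM hz
  have h3 : ContDiffAt ℝ 1 (fun z : ℝ => 1 - z ^ 2) z :=
    (contDiff_const.sub (contDiff_id.pow 2)).contDiffAt
  exact (contDiffAt_const.mul (h1.pow 2)).add (h3.mul (h2.pow 2))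

lemma contDiffAt_be (hM : M v.2.2 0 = 0) (hr : ∀ z, 0 < rho v z) {z : ℝ}
    (hz : z ∈ Ioo (-1 : ℝ) 1) : ContDiffAt ℝ 1 (be v) z :=
  ((contDiffAt_rt v hM hz).rpow_const_of_ne (rt_pos hM hr (Ioo_subset_Icc_self hz)).ne').mul
    (contDiffAt_yt hM hz)

lemma contDiffAt_al (hM : M v.2.2 0 = 0) (hr : ∀ z, 0 < rho v z) {z : ℝ}
    (hz : z ∈ Ioo (-1 : ℝ) 1) : ContDiffAt ℝ 1 (al v) z :=
  ((contDiffAt_rt v hM hz).rpow_const_of_ne (rt_pos hM hr (Ioo_subset_Icc_self hz)).ne').mul
    ((contDiffAt_const.mul (contDiff_ft _).contDiffAt).sub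
      (contDiffAt_id.mul (contDiffAt_yt hM hz)))

lemma contDiffAt_zz {x : E3} (hx : x ≠ 0) : ContDiffAt ℝ 1 zz x := by
  have h1 : ContDiffAt ℝ 1 (fun x : E3 => x 2) x := ((contDiff_co 2).of_le (by simp)).contDiffAt
  exact h1.div (contDiffAt_norm ℝ hx) (norm_pos' hx).ne'

lemma contDiffAt_npow {x : E3} (hx : x ≠ 0) (s : ℝ) :
    ContDiffAt ℝ 1 (fun x : E3 => ‖x‖ ^ s) x :=
  (contDiffAt_norm ℝ hx).rpow_const_of_ne (norm_pos' hx).ne'

lemma contDiffAt_ca (hM : M v.2.2 0 = 0) (hr : ∀ z, 0 < rho v z) {x : E3} (hx : x ∈ UU) :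
    ContDiffAt ℝ 1 (ca v) x :=
  (contDiffAt_npow (ne_zero_of_UU hx) _).mul
    ((contDiffAt_al v hM hr (zz_mem_Ioo hx)).comp x (contDiffAt_zz (ne_zero_of_UU hx)))

lemma contDiffAt_cb (hM : M v.2.2 0 = 0) (hr : ∀ z, 0 < rho v z) {x : E3} (hx : x ∈ UU) :
    ContDiffAt ℝ 1 (cb v) x :=
  (contDiffAt_npow (ne_zero_of_UU hx) _).mul
    ((contDiffAt_be v hM hr (zz_mem_Ioo hx)).comp x (contDiffAt_zz (ne_zero_of_UU hx)))

/-- components -/
noncomputable def FF (j : Fin 3) (x : E3) : ℝ := ca v x * x j + cb v x * e2 j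

lemma FF_eq (j : Fin 3) (x : E3) : FF v j x = VV v x j := by
  unfold FF VV
  simp

lemma contDiffOn_FF (hM : M v.2.2 0 = 0) (hr : ∀ z, 0 < rho v z) (j : Fin 3) :
    ContDiffOn ℝ 1 (FF v j) UU := by
  intro x hx
  apply ContDiffAt.contDiffWithinAt
  have h1 : ContDiffAt ℝ 1 (fun x : E3 => x j) x := ((contDiff_co j).of_le (by simp)).contDiffAt
  exact ((contDiffAt_ca v hM hr hx).mul h1).add ((contDiffAt_cb v hM hr hx).mul contDiffAt_const)

noncomputable def pd (j : Fin 3) (f : E3 → ℝ) (x : E3) : ℝ :=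
  fderiv ℝ f x (EuclideanSpace.single j 1)

lemma sum_single (x : E3) (L : E3 →L[ℝ] ℝ) :
    ∑ j, x j * L (EuclideanSpace.single j 1) = L x := by
  have h : x = ∑ j, x j • (EuclideanSpace.single j (1:ℝ) : E3) := by
    ext i
    fin_cases i <;> simp [Fin.sum_univ_three]
  conv_rhs => rw [h]
  rw [map_sum]
  simp

lemma e2_apply (j : Fin 3) : e2 j = if j = 2 then 1 else 0 := by
  unfold e2
  simp

lemma div_zero' (hM : M v.2.2 0 = 0) (hE : Ee v = 0) (hr : ∀ z, 0 < rho v z) {x : E3}
    (hx : x ∈ UU) : ∑ j, pd j (FF v j) x = 0 := by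
  have hx0 := ne_zero_of_UU hx
  have hpos := norm_pos' hx0
  have hzi := zz_mem_Ioo hx
  obtain ⟨b', hb', hdiv⟩ := div_eq hM hE hr hzi
  obtain ⟨a', ha'⟩ : ∃ a', HasDerivAt (al v) a' (zz x) :=
    ⟨_, ((contDiffAt_al v hM hr hzi).differentiableAt (by simp)).hasDerivAt⟩
  have hA := hasFDerivAt_pp hx0 (mu v - 1) ha'
  have hB := hasFDerivAt_pp hx0 (mu v) hb'
  set LA : E3 →L[ℝ] ℝ := ‖x‖ ^ (mu v - 1) • (a' • Dz x) +
    al v (zz x) • (((mu v - 1) * ‖x‖ ^ (mu v - 1 - 2)) • innerSL ℝ x) with hLA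
  set LB : E3 →L[ℝ] ℝ := ‖x‖ ^ mu v • (b' • Dz x) +
    be v (zz x) • ((mu v * ‖x‖ ^ (mu v - 2)) • innerSL ℝ x) with hLB
  have hpd : ∀ j, pd j (FF v j) x = x j * LA (EuclideanSpace.single j 1) + ca v x +
      e2 j * LB (EuclideanSpace.single j 1) := by
    intro j
    have h1 : HasFDerivAt (fun x : E3 => x j) (EuclideanSpace.proj j : E3 →L[ℝ] ℝ) x :=
      (EuclideanSpace.proj j : E3 →L[ℝ] ℝ).hasFDerivAt
    have h2 := ((show HasFDerivAt (ca v) LA x from hA).mul h1).add
      ((show HasFDerivAt (cb v) LB x from hB).mul_const (e2 j))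
    unfold pd
    have h3 : fderiv ℝ (FF v j) x = _ := h2.fderiv
    rw [h3]
    simp only [_root_.add_apply, _root_.smul_apply, smul_eq_mul]
    simp
    ring
  simp only [hpd]
  rw [Finset.sum_add_distrib, Finset.sum_add_distrib, sum_single]
  have e2s : ∑ j, e2 j * LB (EuclideanSpace.single j 1) = LB e2 := sum_single e2 LB
  rw [e2s]
  have eA : LA x = (mu v - 1) * ca v x := by
    rw [hLA]
    simp only [_root_.add_apply, _root_.smul_apply, smul_eq_mul, Dz_self hx0,
      innerSL_apply_apply, real_inner_self_eq_norm_sq]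
    unfold ca
    have : ‖x‖ ^ (mu v - 1) = ‖x‖ ^ (mu v - 1 - 2) * ‖x‖ ^ 2 := by
      rw [← Real.rpow_natCast, ← Real.rpow_add hpos]
      congr 1
      norm_num
    rw [this]
    ring
  have eB : LB e2 = ‖x‖ ^ (mu v - 1) * ((1 - zz x ^ 2) * b' + mu v * zz x * be v (zz x)) := by
    rw [hLB]
    simp only [_root_.add_apply, _root_.smul_apply, smul_eq_mul, Dz_e2 hx0,
      innerSL_apply_apply]
    rw [real_inner_comm, inner_e2, ← zz_mul hx0]
    have i1 : ‖x‖ ^ (mu v - 1) = ‖x‖ ^ (mu v - 2) * ‖x‖ := by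
      rw [← Real.rpow_add_one hpos.ne']
      congr 1
      ring
    have i2 : ‖x‖ ^ (mu v) = ‖x‖ ^ (mu v - 2) * ‖x‖ ^ 2 := by
      rw [← Real.rpow_natCast, ← Real.rpow_add hpos]
      congr 1
      norm_num
    rw [i1, i2]
    field_simp
  rw [eA, eB]
  have : ∑ _j : Fin 3, ca v x = 3 * ca v x := by
    simp
  rw [this]
  unfold ca
  have e : (mu v - 1) * (‖x‖ ^ (mu v - 1) * al v (zz x)) +
      3 * (‖x‖ ^ (mu v - 1) * al v (zz x)) +
      ‖x‖ ^ (mu v - 1) * ((1 - zz x ^ 2) * b' + mu v * zz x * be v (zz x)) =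
      ‖x‖ ^ (mu v - 1) * ((mu v + 2) * al v (zz x) + mu v * zz x * be v (zz x) +
        (1 - zz x ^ 2) * b') := by ring
  rw [e, hdiv, mul_zero]

lemma continuous_pd {φ : E3 → ℝ} (h : ContDiff ℝ ∞ φ) (i : Fin 3) : Continuous (pd i φ) := by
  unfold pd
  exact (h.continuous_fderiv (by simp)).clm_apply continuous_const

lemma hasCompactSupport_pd {φ : E3 → ℝ} (h : HasCompactSupport φ) (i : Fin 3) :
    HasCompactSupport (pd i φ) := by
  have := h.fderiv (𝕜 := ℝ)
  refine this.comp_left (g := fun L : E3 →L[ℝ] ℝ => L (EuclideanSpace.single i 1)) ?_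
  simp

lemma continuous_mul_of_supp {h ψ : E3 → ℝ} (hh : ContinuousOn h UU) (hψ : Continuous ψ)
    (hs : tsupport ψ ⊆ UU) : Continuous fun z => h z * ψ z := by
  apply continuous_of_tsupport
  intro z hz
  have hz2 : z ∈ tsupport ψ := by
    refine closure_mono ?_ hz
    intro w hw
    simp only [Function.mem_support, ne_eq] at hw ⊢
    exact fun h0 => hw (by rw [h0, mul_zero])
  exact (hh.continuousAt (isOpen_UU.mem_nhds (hs hz2))).mul hψ.continuousAt

/-- The weak equation for test functions supported away from the axis. -/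
lemma weak_away (hM : M v.2.2 0 = 0) (hE : Ee v = 0) (hr : ∀ z, 0 < rho v z)
    {ψ : E3 → ℝ} (h1 : ContDiff ℝ ∞ ψ) (h2 : HasCompactSupport ψ)
    (h3 : tsupport ψ ⊆ UU) : ∫ z, ∑ j, FF v j z * pd j ψ z = 0 := by
  have hcψ : Continuous ψ := h1.continuous
  have hsup : ∀ j, tsupport (pd j ψ) ⊆ UU := by
    intro j
    refine Subset.trans ?_ h3
    have h5 : Function.support (pd j ψ) ⊆ tsupport ψ := by
      intro w hw
      have h6 : fderiv ℝ ψ w ≠ 0 := by
        intro h0
        apply hw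
        unfold pd
        rw [h0]
        simp
      exact support_fderiv_subset ℝ h6
    exact closure_minimal h5 (isClosed_tsupport ψ)
  have hFc : ∀ j, ContinuousOn (FF v j) UU := fun j => (contDiffOn_FF v hM hr j).continuousOn
  have hdFc : ∀ j, ContinuousOn (pd j (FF v j)) UU := by
    intro j
    have := (contDiffOn_FF v hM hr j).continuousOn_fderiv_of_isOpen isOpen_UU le_rfl
    exact this.clm_apply continuousOn_const
  have i1 : ∀ j, Integrable fun z => FF v j z * pd j ψ z := fun j =>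
    (continuous_mul_of_supp (hFc j) (continuous_pd h1 j)
      (hsup j)).integrable_of_hasCompactSupport (HasCompactSupport.mul_left (hasCompactSupport_pd h2 j))
  have i2 : ∀ j, Integrable fun z => pd j (FF v j) z * ψ z := fun j =>
    (continuous_mul_of_supp (hdFc j) hcψ h3).integrable_of_hasCompactSupport
      (HasCompactSupport.mul_left h2)
  have i3 : ∀ j, Integrable fun z => FF v j z * ψ z := fun j =>
    (continuous_mul_of_supp (hFc j) hcψ h3).integrable_of_hasCompactSupport
      (HasCompactSupport.mul_left h2)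
  have ibp : ∀ j, ∫ z, FF v j z * pd j ψ z = -∫ z, pd j (FF v j) z * ψ z := by
    intro j
    exact integral_mul_fderiv_eq_neg_fderiv_mul_of_integrable (μ := (volume : Measure E3))
      (f := FF v j) (g := ψ) (v := EuclideanSpace.single j 1) (i2 j) (i1 j) (i3 j)
      (fun x hx => ((contDiffOn_FF v hM hr j).differentiableOn (by simp)).differentiableAt
        (isOpen_UU.mem_nhds (h3 hx)))
      (fun x _ => h1.differentiable (by simp) x)
  rw [integral_finsetSum _ (fun j _ => i1 j)]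
  simp only [ibp]
  rw [Finset.sum_neg_distrib, ← integral_finsetSum _ (fun j _ => i2 j), neg_eq_zero]
  have : (fun z => ∑ j, pd j (FF v j) z * ψ z) = fun _ => 0 := by
    ext z
    rw [← Finset.sum_mul]
    by_cases hz : z ∈ UU
    · rw [div_zero' v hM hE hr hz, zero_mul]
    · have : ψ z = 0 := by
        by_contra h0
        exact hz (h3 (subset_tsupport ψ h0))
      rw [this, mul_zero]
  rw [this, integral_zero]

/-- The cutoff. -/
noncomputable def chi (n : ℝ) (z : E3) : ℝ := Real.smoothTransition (n * sq2 z - 1)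

lemma exists_bound_transition :
    ∃ D : ℝ, 0 ≤ D ∧ ∀ s : ℝ, |s * deriv Real.smoothTransition (s - 1)| ≤ D := by
  have hc : Continuous (deriv Real.smoothTransition) :=
    (Real.smoothTransition.contDiff (n := 1)).continuous_deriv le_rfl
  have hzero : ∀ x, x ∉ Icc (0:ℝ) 1 → deriv Real.smoothTransition x = 0 := by
    intro x hx
    rw [mem_Icc, not_and_or, not_le, not_le] at hx
    rcases hx with h | h
    · have : Real.smoothTransition =ᶠ[𝓝 x] fun _ => 0 := by
        filter_upwards [Iio_mem_nhds h] with y hy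
        exact Real.smoothTransition.zero_of_nonpos (le_of_lt hy)
      rw [this.deriv_eq]
      simp
    · have : Real.smoothTransition =ᶠ[𝓝 x] fun _ => 1 := by
        filter_upwards [Ioi_mem_nhds h] with y hy
        exact Real.smoothTransition.one_of_one_le (le_of_lt hy)
      rw [this.deriv_eq]
      simp
  have hcont : Continuous fun s : ℝ => s * deriv Real.smoothTransition (s - 1) :=
    continuous_id.mul (hc.comp (continuous_id.sub continuous_const))
  have hsupp : HasCompactSupport fun s : ℝ => s * deriv Real.smoothTransition (s - 1) := by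
    apply HasCompactSupport.intro (isCompact_Icc (a := (1:ℝ)) (b := 2))
    intro x hx
    rw [hzero, mul_zero]
    intro h
    apply hx
    constructor <;> linarith [h.1, h.2]
  obtain ⟨C, hC⟩ := hcont.bounded_above_of_compact_support hsupp
  refine ⟨C, (norm_nonneg _).trans (hC 0), fun s => ?_⟩
  have := hC s
  rwa [Real.norm_eq_abs] at this

lemma contDiff_chi (n : ℝ) : ContDiff ℝ ∞ (chi n) := by
  unfold chi
  refine (Real.smoothTransition.contDiff (n := ⊤)).comp ?_
  exact (contDiff_const.mul contDiff_sq2).sub contDiff_const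

/-- derivative of `sq2` -/
noncomputable def dsq (x : E3) : E3 →L[ℝ] ℝ :=
  (2 * x 0) • (EuclideanSpace.proj 0 : E3 →L[ℝ] ℝ) + (2 * x 1) • (EuclideanSpace.proj 1 : E3 →L[ℝ] ℝ)

lemma hasFDerivAt_sq2 (x : E3) : HasFDerivAt sq2 (dsq x) x := by
  have h0 : HasFDerivAt (fun x : E3 => x 0) (EuclideanSpace.proj 0 : E3 →L[ℝ] ℝ) x :=
    (EuclideanSpace.proj 0 : E3 →L[ℝ] ℝ).hasFDerivAt
  have h1 : HasFDerivAt (fun x : E3 => x 1) (EuclideanSpace.proj 1 : E3 →L[ℝ] ℝ) x :=
    (EuclideanSpace.proj 1 : E3 →L[ℝ] ℝ).hasFDerivAt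
  have := (h0.pow 2).add (h1.pow 2)
  refine this.congr_fderiv ?_
  unfold dsq
  norm_num

lemma fderiv_chi (n : ℝ) (z : E3) : fderiv ℝ (chi n) z =
    (deriv Real.smoothTransition (n * sq2 z - 1)) • (n • dsq z) := by
  have h1 : HasFDerivAt (fun z => n * sq2 z - 1) (n • dsq z) z :=
    ((hasFDerivAt_sq2 z).const_mul n).sub_const 1
  have h2 : HasDerivAt Real.smoothTransition
      (deriv Real.smoothTransition (n * sq2 z - 1)) (n * sq2 z - 1) :=
    ((Real.smoothTransition.contDiff (n := 1)).differentiable (by simp) _).hasDerivAt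
  exact (h2.comp_hasFDerivAt z h1).fderiv

lemma tsupport_chi (n : ℝ) : tsupport (chi n) ⊆ UU := by
  have h1 : Function.support (chi n) ⊆ {z | 1 ≤ n * sq2 z} := by
    intro z hz
    by_contra h
    simp only [mem_ofPred_eq, not_le] at h
    apply hz
    exact Real.smoothTransition.zero_of_nonpos (by linarith)
  have h2 : IsClosed {z : E3 | 1 ≤ n * sq2 z} :=
    isClosed_le continuous_const (continuous_const.mul contDiff_sq2.continuous)
  refine (closure_minimal h1 h2).trans ?_
  intro z hz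
  simp only [mem_ofPred_eq] at hz
  show 0 < sq2 z
  rcases (sq2_nonneg z).eq_or_lt with h | h
  · rw [← h] at hz
    norm_num at hz
  · exact h

lemma dsq_VV (z : E3) : dsq z (VV v z) = 2 * ca v z * sq2 z := by
  have h0 : VV v z 0 = ca v z * z 0 := by
    rw [← FF_eq]; unfold FF; rw [e2_apply]; simp
  have h1 : VV v z 1 = ca v z * z 1 := by
    rw [← FF_eq]; unfold FF; rw [e2_apply]; simp
  change 2 * z 0 * VV v z 0 + 2 * z 1 * VV v z 1 = _
  rw [h0, h1]
  unfold sq2
  ring

lemma sum_FF (x : E3) (L : E3 →L[ℝ] ℝ) :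
    ∑ j, FF v j x * L (EuclideanSpace.single j 1) = L (VV v x) := by
  simp only [FF_eq]
  exact sum_single _ _

lemma flux_chi (z : E3) (n : ℝ) :
    ∑ j, FF v j z * pd j (chi n) z
      = (n * sq2 z) * deriv Real.smoothTransition (n * sq2 z - 1) * (2 * ca v z) := by
  unfold pd
  rw [sum_FF, fderiv_chi]
  simp only [_root_.smul_apply, smul_eq_mul, dsq_VV]
  ring

/-- The weak equation for the flux. -/
theorem weak_FF (hM : M v.2.2 0 = 0) (hE : Ee v = 0) (hr : ∀ z, 0 < rho v z)
    (hp : 2 < v.1) (hmu : 1 < mu v)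
    {φ : E3 → ℝ} (h1 : ContDiff ℝ ∞ φ) (h2 : HasCompactSupport φ) :
    ∫ z, ∑ j, FF v j z * pd j φ z = 0 := by
  obtain ⟨D, hD0, hD⟩ := exists_bound_transition
  have hcφ : Continuous φ := h1.continuous
  have hcF : ∀ j, Continuous (FF v j) := by
    intro j
    have : FF v j = fun x => VV v x j := funext fun x => FF_eq v j x
    rw [this]
    exact (contDiff_co j).continuous.comp (continuous_VV v hp hmu)
  have hca := continuous_ca v hp hmu
  -- the truncated test functions
  set ψ : ℕ → E3 → ℝ := fun n z => φ z * chi ((n : ℝ) + 1) z with hψ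
  have hψ1 : ∀ n, ContDiff ℝ ∞ (ψ n) := fun n => h1.mul (contDiff_chi _)
  have hψ2 : ∀ n, HasCompactSupport (ψ n) := fun n => h2.mul_right
  have hψ3 : ∀ n, tsupport (ψ n) ⊆ UU := by
    intro n
    refine Subset.trans ?_ (tsupport_chi ((n : ℝ) + 1))
    apply closure_mono
    intro w hw
    simp only [hψ, Function.mem_support, ne_eq] at hw ⊢
    exact fun h0 => hw (by rw [h0, mul_zero])
  have hzero : ∀ n, ∫ z, ∑ j, FF v j z * pd j (ψ n) z = 0 :=
    fun n => weak_away v hM hE hr (hψ1 n) (hψ2 n) (hψ3 n)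
  have hpd : ∀ n z j, pd j (ψ n) z = φ z * pd j (chi ((n : ℝ) + 1)) z
      + chi ((n : ℝ) + 1) z * pd j φ z := by
    intro n z j
    have e1 : DifferentiableAt ℝ φ z := h1.differentiable (by simp) z
    have e2 : DifferentiableAt ℝ (chi ((n : ℝ) + 1)) z :=
      (contDiff_chi _).differentiable (by simp) z
    have e3 := (e1.hasFDerivAt.mul e2.hasFDerivAt).fderiv
    unfold pd
    have e4 : fderiv ℝ (ψ n) z = φ z • fderiv ℝ (chi ((n : ℝ) + 1)) z
      + chi ((n : ℝ) + 1) z • fderiv ℝ φ z := e3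
    rw [e4]
    simp
  have hsplit : ∀ n z, ∑ j, FF v j z * pd j (ψ n) z
      = φ z * ∑ j, FF v j z * pd j (chi ((n : ℝ) + 1)) z
        + chi ((n : ℝ) + 1) z * ∑ j, FF v j z * pd j φ z := by
    intro n z
    rw [Finset.mul_sum, Finset.mul_sum, ← Finset.sum_add_distrib]
    apply Finset.sum_congr rfl
    intro j _
    rw [hpd]
    ring
  -- dominated convergence
  have hlim : Tendsto (fun n : ℕ => ∫ z, ∑ j, FF v j z * pd j (ψ n) z) atTop
      (𝓝 (∫ z, ∑ j, FF v j z * pd j φ z)) := by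
    refine tendsto_integral_of_dominated_convergence
      (fun z => |φ z| * (D * (2 * |ca v z|)) + |∑ j, FF v j z * pd j φ z|) ?_ ?_ ?_ ?_
    · intro n
      exact (Finset.measurable_sum _ fun j _ =>
        (hcF j).measurable.mul (continuous_pd (hψ1 n) j).measurable).aestronglyMeasurable
    · refine Integrable.add ?_ ?_
      · refine Continuous.integrable_of_hasCompactSupport
          (hcφ.abs.mul (continuous_const.mul (continuous_const.mul hca.abs))) ?_
        exact HasCompactSupport.mul_right (h2.comp_left (g := abs) (by simp))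
      · have hc : Continuous fun z => ∑ j, FF v j z * pd j φ z :=
          continuous_finsetSum _ fun j _ => (hcF j).mul (continuous_pd h1 j)
        refine Continuous.integrable_of_hasCompactSupport hc.abs ?_
        have hs : HasCompactSupport fun z => ∑ j, FF v j z * pd j φ z := by
          have hf := h2.fderiv (𝕜 := ℝ)
          refine hf.mono fun z hz => ?_
          simp only [Function.mem_support, ne_eq] at hz ⊢
          intro h0
          apply hz
          unfold pd
          rw [h0]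
          simp
        exact hs.comp_left (g := abs) (by simp)
    · intro n
      refine Eventually.of_forall fun z => ?_
      rw [hsplit, Real.norm_eq_abs]
      refine (abs_add_le _ _).trans (add_le_add ?_ ?_)
      · rw [abs_mul]
        apply mul_le_mul_of_nonneg_left _ (abs_nonneg _)
        rw [flux_chi v z, abs_mul]
        have b1 := hD (((n : ℝ) + 1) * sq2 z)
        rw [abs_mul 2, abs_of_pos (by norm_num : (0:ℝ) < 2)]
        exact mul_le_mul_of_nonneg_right b1 (by positivity)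
      · rw [abs_mul]
        have d1 : |chi ((n : ℝ) + 1) z| ≤ 1 := by
          unfold chi
          rw [abs_of_nonneg (Real.smoothTransition.nonneg _)]
          exact Real.smoothTransition.le_one _
        calc _ ≤ 1 * |∑ j, FF v j z * pd j φ z| :=
              mul_le_mul_of_nonneg_right d1 (abs_nonneg _)
          _ = |∑ j, FF v j z * pd j φ z| := one_mul _
    · filter_upwards [ae_UU] with z hz
      have hXY : 0 < sq2 z := hz
      have hev : ∀ᶠ n : ℕ in atTop, 2 < ((n : ℝ) + 1) * sq2 z := by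
        have h5 : Tendsto (fun n : ℕ => ((n : ℝ) + 1) * sq2 z) atTop atTop :=
          (tendsto_atTop_add_const_right _ 1 tendsto_natCast_atTop_atTop).atTop_mul_const hXY
        exact h5.eventually_gt_atTop 2
      refine tendsto_const_nhds.congr' ?_
      filter_upwards [hev] with n hn
      rw [hsplit, flux_chi v z]
      have e1 : chi ((n : ℝ) + 1) z = 1 :=
        Real.smoothTransition.one_of_one_le (by linarith)
      have e2 : deriv Real.smoothTransition (((n : ℝ) + 1) * sq2 z - 1) = 0 := by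
        have : Real.smoothTransition =ᶠ[𝓝 (((n : ℝ) + 1) * sq2 z - 1)] fun _ => 1 := by
          filter_upwards [Ioi_mem_nhds (show 1 < ((n : ℝ) + 1) * sq2 z - 1 by linarith)]
            with y hy
          exact Real.smoothTransition.one_of_one_le (le_of_lt hy)
        rw [this.deriv_eq]
        simp
      rw [e1, e2]
      ring
  simp only [hzero] at hlim
  exact (tendsto_nhds_unique hlim tendsto_const_nhds)

theorem weak_uu (hM : M v.2.2 0 = 0) (hE : Ee v = 0) (hr : ∀ z, 0 < rho v z)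
    (hp : 2 < v.1) (hk : 1 < v.2.1) (hmu : 1 < mu v)
    {φ : E3 → ℝ} (h1 : ContDiff ℝ ∞ φ) (h2 : HasCompactSupport φ) :
    ∫ y, ‖gradient (uu v) y‖ ^ (v.1 - 2) * inner ℝ (gradient (uu v) y) (gradient φ y) = 0 := by
  rw [← weak_FF v hM hE hr hp hmu h1 h2]
  refine integral_congr_ae (Eventually.of_forall fun y => ?_)
  show ‖gradient (uu v) y‖ ^ (v.1 - 2) * inner ℝ (gradient (uu v) y) (gradient φ y) =
    ∑ j, FF v j y * pd j φ y
  rw [gradient_uu v hk]
  unfold pd
  rw [sum_FF, ← VV_eq v hM hr hk hmu, map_smul, smul_eq_mul]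
  congr 1
  have hd : DifferentiableAt ℝ φ y := h1.differentiable (by simp) y
  have := hd.hasGradientAt.hasFDerivAt.fderiv
  rw [this, real_inner_comm]
  rfl

end

end Pool.Agent.H23R3.PM
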