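import Pool.Agent.H23R3.PMAvg
import Pool.Agent.H23R3.PMWeak

set_option autoImplicit false

namespace Pool.Agent.H23R3.PM

open MeasureTheory Set Filter Topology Real Metric

open Pool.Agent.Helper254.Dir (sph)

lemma uu_eq_abs {v : V} (hM : M v.2.2 0 = 0) (x : E3) :
    ∃ z : unitInterval, uu v x = ‖x‖ ^ v.2.1 * fv v z := by
  have h1 : |zz x| ∈ Icc (0 : ℝ) 1 := ⟨abs_nonneg _, abs_zz_le x⟩
  refine ⟨⟨|zz x|, h1⟩, ?_⟩
  unfold uu
  rw [← ft_fv hM h1]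
  rcases abs_choice (zz x) with h | h
  · rw [h]
  · rw [h, ft_neg]

lemma uu_attain {v : V} (hM : M v.2.2 0 = 0) {ε : ℝ} (hε : 0 < ε) (z : unitInterval) :
    ∃ x ∈ closedBall (0 : E3) ε, uu v x = ε ^ v.2.1 * fv v z := by
  refine ⟨sph ε (arccos z) 0, ?_, ?_⟩
  · rw [mem_closedBall_zero_iff, norm_sph hε.le]
  · unfold uu
    rw [norm_sph hε.le, zz_sph hε, cos_arccos (by linarith [z.2.1]) z.2.2, ft_fv hM z.2]

lemma sSup_uu {v : V} (hM : M v.2.2 0 = 0) (hk : 1 < v.2.1) (hs : 0 < smax (fv v)) {ε : ℝ}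
    (hε : 0 < ε) : sSup (uu v '' closedBall (0 : E3) ε) = ε ^ v.2.1 * smax (fv v) := by
  obtain ⟨z, hz⟩ := (isCompact_range_X (fv v)).sSup_mem (range_nonempty _)
  refine IsGreatest.csSup_eq ⟨?_, ?_⟩
  · obtain ⟨x, hx, hx2⟩ := uu_attain hM hε z
    refine ⟨x, hx, ?_⟩
    rw [hx2, hz]
    rfl
  · rintro _ ⟨x, hx, rfl⟩
    obtain ⟨w, hw⟩ := uu_eq_abs hM x
    rw [mem_closedBall_zero_iff] at hx
    rw [hw]
    calc ‖x‖ ^ v.2.1 * fv v w ≤ ‖x‖ ^ v.2.1 * smax (fv v) :=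
          mul_le_mul_of_nonneg_left (le_smax _ _) (Real.rpow_nonneg (norm_nonneg _) _)
      _ ≤ ε ^ v.2.1 * smax (fv v) :=
          mul_le_mul_of_nonneg_right
            (Real.rpow_le_rpow (norm_nonneg _) hx (by linarith)) hs.le

lemma sInf_uu {v : V} (hM : M v.2.2 0 = 0) (hk : 1 < v.2.1) (hs : smin (fv v) < 0) {ε : ℝ}
    (hε : 0 < ε) : sInf (uu v '' closedBall (0 : E3) ε) = ε ^ v.2.1 * smin (fv v) := by
  obtain ⟨z, hz⟩ := (isCompact_range_X (fv v)).sInf_mem (range_nonempty _)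
  refine IsLeast.csInf_eq ⟨?_, ?_⟩
  · obtain ⟨x, hx, hx2⟩ := uu_attain hM hε z
    refine ⟨x, hx, ?_⟩
    rw [hx2, hz]
    rfl
  · rintro _ ⟨x, hx, rfl⟩
    obtain ⟨w, hw⟩ := uu_eq_abs hM x
    rw [mem_closedBall_zero_iff] at hx
    rw [hw]
    calc ε ^ v.2.1 * smin (fv v) ≤ ‖x‖ ^ v.2.1 * smin (fv v) :=
          mul_le_mul_of_nonpos_right
            (Real.rpow_le_rpow (norm_nonneg _) hx (by linarith)) hs.le
      _ ≤ ‖x‖ ^ v.2.1 * fv v w :=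
          mul_le_mul_of_nonneg_left (smin_le _ _) (Real.rpow_nonneg (norm_nonneg _) _)

end Pool.Agent.H23R3.PM
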