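import Pool.Agent.H23R3.PMProf

set_option autoImplicit false

namespace Pool.Agent.H23R3.PM

open MeasureTheory Set Filter Topology Real Metric

abbrev E3 := EuclideanSpace ℝ (Fin 3)

noncomputable def e2 : E3 := EuclideanSpace.single 2 1

noncomputable def zz (x : E3) : ℝ := x 2 / ‖x‖

noncomputable def pr2 : E3 →L[ℝ] ℝ := EuclideanSpace.proj 2

lemma pr2_apply (x : E3) : pr2 x = x 2 := rfl

lemma inner_e2 (x : E3) : inner ℝ e2 x = x 2 := by
  unfold e2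
  rw [EuclideanSpace.inner_single_left]
  simp

lemma norm_e2 : ‖e2‖ = 1 := by simp [e2]

lemma abs_zz_le (x : E3) : |zz x| ≤ 1 := by
  unfold zz
  rw [abs_div, abs_norm]
  apply div_le_one_of_le₀ _ (norm_nonneg x)
  have := PiLp.norm_apply_le x 2
  rwa [Real.norm_eq_abs] at this

lemma zz_mem (x : E3) : zz x ∈ Icc (-1 : ℝ) 1 := abs_le.mp (abs_zz_le x)

lemma norm_pos' {x : E3} (hx : x ≠ 0) : 0 < ‖x‖ := norm_pos_iff.mpr hx

lemma zz_mul {x : E3} (hx : x ≠ 0) : zz x * ‖x‖ = x 2 := by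
  unfold zz
  have := norm_pos' hx
  field_simp

lemma hasFDerivAt_norm' {x : E3} (hx : x ≠ 0) :
    HasFDerivAt (fun x : E3 => ‖x‖) (‖x‖⁻¹ • innerSL ℝ x) x := by
  have hpos := norm_pos' hx
  have h1 := (hasStrictFDerivAt_norm_sq x).hasFDerivAt
  have h2 := h1.sqrt (by positivity)
  have e : (fun x : E3 => √(‖x‖ ^ 2)) = fun x : E3 => ‖x‖ := by
    ext x; exact Real.sqrt_sq (norm_nonneg x)
  rw [e] at h2
  refine h2.congr_fderiv ?_
  rw [Real.sqrt_sq (norm_nonneg x)]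
  ext w
  simp only [ContinuousLinearMap.smul_apply, smul_eq_mul, nsmul_eq_mul, Nat.cast_ofNat]
  field_simp

/-- derivative of `zz` -/
noncomputable def Dz (x : E3) : E3 →L[ℝ] ℝ := ‖x‖⁻¹ • pr2 - (x 2 * (‖x‖⁻¹) ^ 3) • innerSL ℝ x

lemma Dz_apply (x w : E3) : Dz x w = ‖x‖⁻¹ * w 2 - (x 2 * (‖x‖⁻¹) ^ 3) * inner ℝ x w := rfl

lemma hasFDerivAt_zz {x : E3} (hx : x ≠ 0) : HasFDerivAt zz (Dz x) x := by
  have hpos := norm_pos' hx
  have h1 : HasFDerivAt (fun x : E3 => x 2) pr2 x := pr2.hasFDerivAt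
  have h2 := (hasDerivAt_inv hpos.ne').comp_hasFDerivAt x (hasFDerivAt_norm' hx)
  have h3 := h1.mul h2
  have e : zz = fun x : E3 => x 2 * ‖x‖⁻¹ := by
    ext x; unfold zz; rw [div_eq_mul_inv]
  rw [e]
  refine h3.congr_fderiv ?_
  ext w
  rw [Dz_apply]
  change x 2 * (-(‖x‖ ^ 2)⁻¹ * (‖x‖⁻¹ * inner ℝ x w)) + ‖x‖⁻¹ * w 2 = _
  field_simp
  ring

lemma hasFDerivAt_npow {x : E3} (hx : x ≠ 0) (s : ℝ) :
    HasFDerivAt (fun x : E3 => ‖x‖ ^ s) ((s * ‖x‖ ^ (s - 2)) • innerSL ℝ x) x := by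
  have hpos := norm_pos' hx
  have h1 := (hasFDerivAt_norm' hx).rpow_const (p := s) (Or.inl hpos.ne')
  refine h1.congr_fderiv ?_
  rw [smul_smul, show s - 1 = (s - 2) + 1 by ring, Real.rpow_add_one hpos.ne']
  congr 1
  field_simp

lemma hasFDerivAt_pp {x : E3} (hx : x ≠ 0) (s : ℝ) {φ : ℝ → ℝ} {φ' : ℝ}
    (h : HasDerivAt φ φ' (zz x)) :
    HasFDerivAt (fun x : E3 => ‖x‖ ^ s * φ (zz x))
      (‖x‖ ^ s • (φ' • Dz x) + φ (zz x) • ((s * ‖x‖ ^ (s - 2)) • innerSL ℝ x)) x :=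
  (hasFDerivAt_npow hx s).mul (h.comp_hasFDerivAt x (hasFDerivAt_zz hx))

lemma Dz_self {x : E3} (hx : x ≠ 0) : Dz x x = 0 := by
  have hpos := norm_pos' hx
  rw [Dz_apply, real_inner_self_eq_norm_sq]
  field_simp
  ring

lemma Dz_e2 {x : E3} (hx : x ≠ 0) : Dz x e2 = ‖x‖⁻¹ * (1 - zz x ^ 2) := by
  have hpos := norm_pos' hx
  rw [Dz_apply, real_inner_comm, inner_e2]
  have : e2 2 = 1 := by simp [e2]
  rw [this]
  unfold zz
  field_simp

section
variable (v : V)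

/-- the homogeneous function -/
noncomputable def uu (x : E3) : ℝ := ‖x‖ ^ v.2.1 * ft v.2.2 (zz x)

noncomputable def Gr (x : E3) : E3 :=
  (‖x‖ ^ (v.2.1 - 2) * (v.2.1 * ft v.2.2 (zz x) - zz x * yt v.2.2 (zz x))) • x +
    (‖x‖ ^ (v.2.1 - 1) * yt v.2.2 (zz x)) • e2

lemma inner_Gr (x w : E3) : inner ℝ (Gr v x) w =
    (‖x‖ ^ (v.2.1 - 2) * (v.2.1 * ft v.2.2 (zz x) - zz x * yt v.2.2 (zz x))) * inner ℝ x w +
    (‖x‖ ^ (v.2.1 - 1) * yt v.2.2 (zz x)) * w 2 := by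
  unfold Gr
  rw [inner_add_left, real_inner_smul_left, real_inner_smul_left, inner_e2]

lemma hasFDerivAt_uu {x : E3} (hx : x ≠ 0) : HasFDerivAt (uu v) (innerSL ℝ (Gr v x)) x := by
  have hpos := norm_pos' hx
  have h1 := hasFDerivAt_pp hx v.2.1 (hasDerivAt_ft v.2.2 (zz x))
  refine h1.congr_fderiv ?_
  refine ContinuousLinearMap.ext fun w => ?_
  rw [innerSL_apply_apply, inner_Gr]
  change ‖x‖ ^ v.2.1 * (yt v.2.2 (zz x) * Dz x w) +
    ft v.2.2 (zz x) * ((v.2.1 * ‖x‖ ^ (v.2.1 - 2)) * inner ℝ x w) = _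
  rw [Dz_apply]
  have e1 : ‖x‖ ^ v.2.1 = ‖x‖ ^ (v.2.1 - 2) * ‖x‖ ^ 2 := by
    rw [← Real.rpow_natCast, ← Real.rpow_add hpos]
    congr 1
    norm_num
  have e2 : ‖x‖ ^ (v.2.1 - 1) = ‖x‖ ^ (v.2.1 - 2) * ‖x‖ := by
    rw [← Real.rpow_add_one hpos.ne']
    congr 1
    ring
  rw [e1, e2, ← zz_mul hx]
  field_simp
  ring

lemma exists_bound {φ : ℝ → ℝ} (hφ : Continuous φ) :
    ∃ C : ℝ, 0 ≤ C ∧ ∀ x : E3, |φ (zz x)| ≤ C := by
  obtain ⟨C, hC⟩ := (isCompact_Icc (a := (-1 : ℝ)) (b := 1)).exists_bound_of_continuousOn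
    hφ.continuousOn
  refine ⟨C, (norm_nonneg _).trans (hC 0 ⟨by norm_num, by norm_num⟩), fun x => ?_⟩
  exact hC _ (zz_mem x)

lemma continuous_ft (h : X) : Continuous (ft h) :=
  continuous_iff_continuousAt.mpr fun z => (hasDerivAt_ft h z).continuousAt

lemma tendsto_npow {s : ℝ} (hs : 0 < s) : Tendsto (fun x : E3 => ‖x‖ ^ s) (𝓝 0) (𝓝 0) := by
  have h : Continuous (fun x : E3 => ‖x‖ ^ s) :=
    continuous_norm.rpow_const fun _ => Or.inr hs.le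
  have := h.tendsto 0
  simpa [Real.zero_rpow hs.ne'] using this

lemma uu_zero (hk : 1 < v.2.1) : uu v 0 = 0 := by
  unfold uu
  rw [norm_zero, Real.zero_rpow (by linarith), zero_mul]

lemma hasFDerivAt_uu_zero (hk : 1 < v.2.1) : HasFDerivAt (uu v) (innerSL ℝ (Gr v 0)) 0 := by
  have hG : Gr v 0 = 0 := by
    unfold Gr
    rw [norm_zero, Real.zero_rpow (by linarith : v.2.1 - 1 ≠ 0), smul_zero, zero_mul, zero_smul,
      add_zero]
  rw [hG, map_zero]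
  obtain ⟨C, hC0, hC⟩ := exists_bound (continuous_ft v.2.2)
  rw [hasFDerivAt_iff_isLittleO_nhds_zero, Asymptotics.isLittleO_iff]
  intro c hc
  have h1 : Tendsto (fun x : E3 => C * ‖x‖ ^ (v.2.1 - 1)) (𝓝 0) (𝓝 0) := by
    have := (tendsto_npow (s := v.2.1 - 1) (by linarith)).const_mul C
    simpa using this
  filter_upwards [h1.eventually_lt_const hc] with x hx
  rw [zero_add, uu_zero v hk, sub_zero]
  simp only [ContinuousLinearMap.zero_apply, sub_zero]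
  by_cases hx0 : x = 0
  · rw [hx0, uu_zero v hk]
    simp
  have hpos := norm_pos' hx0
  unfold uu
  rw [norm_mul, Real.norm_of_nonneg (Real.rpow_nonneg (norm_nonneg x) _), Real.norm_eq_abs]
  have e1 : ‖x‖ ^ v.2.1 = ‖x‖ ^ (v.2.1 - 1) * ‖x‖ := by
    rw [← Real.rpow_add_one hpos.ne']
    congr 1
    ring
  calc ‖x‖ ^ v.2.1 * |ft v.2.2 (zz x)| ≤ ‖x‖ ^ v.2.1 * C := by
        gcongr
        exact hC x
    _ = C * ‖x‖ ^ (v.2.1 - 1) * ‖x‖ := by rw [e1]; ring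
    _ ≤ c * ‖x‖ := by gcongr

lemma hasFDerivAt_uu' (hk : 1 < v.2.1) (x : E3) :
    HasFDerivAt (uu v) (innerSL ℝ (Gr v x)) x := by
  by_cases hx : x = 0
  · rw [hx]; exact hasFDerivAt_uu_zero v hk
  · exact hasFDerivAt_uu v hx

lemma continuousAt_zz {x : E3} (hx : x ≠ 0) : ContinuousAt zz x := (hasFDerivAt_zz hx).continuousAt

lemma continuousAt_npow {x : E3} (hx : x ≠ 0) (s : ℝ) : ContinuousAt (fun x : E3 => ‖x‖ ^ s) x :=
  (hasFDerivAt_npow hx s).continuousAt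

/-- general continuity of a homogeneous vector field -/
lemma continuous_field {s : ℝ} (hs : 0 < s) {φ χ : ℝ → ℝ} (hφ : Continuous φ)
    (hχ : Continuous χ) : Continuous (fun x : E3 => (‖x‖ ^ (s - 1) * φ (zz x)) • x +
      (‖x‖ ^ s * χ (zz x)) • e2) := by
  rw [continuous_iff_continuousAt]
  intro x
  by_cases hx : x = 0
  · subst hx
    obtain ⟨C, hC0, hC⟩ := exists_bound hφ
    obtain ⟨C', hC'0, hC'⟩ := exists_bound hχ
    have h0 : (‖(0 : E3)‖ ^ (s - 1) * φ (zz 0)) • (0 : E3) + (‖(0 : E3)‖ ^ s * χ (zz 0)) • e2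
        = 0 := by
      rw [norm_zero, Real.zero_rpow hs.ne', smul_zero, zero_mul, zero_smul, add_zero]
    show Tendsto (fun x : E3 => (‖x‖ ^ (s - 1) * φ (zz x)) • x +
      (‖x‖ ^ s * χ (zz x)) • e2) (𝓝 0)
      (𝓝 ((‖(0 : E3)‖ ^ (s - 1) * φ (zz 0)) • (0 : E3) + (‖(0 : E3)‖ ^ s * χ (zz 0)) • e2))
    rw [h0, tendsto_zero_iff_norm_tendsto_zero]
    have h1 : Tendsto (fun x : E3 => (C + C') * ‖x‖ ^ s) (𝓝 0) (𝓝 0) := by
      have := (tendsto_npow hs).const_mul (C + C')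
      simpa using this
    refine squeeze_zero (fun _ => norm_nonneg _) (fun x => ?_) h1
    by_cases hx0 : x = 0
    · rw [hx0, h0, norm_zero, Real.zero_rpow hs.ne', mul_zero]
    have hpos := norm_pos' hx0
    have e1 : ‖x‖ ^ s = ‖x‖ ^ (s - 1) * ‖x‖ := by
      rw [← Real.rpow_add_one hpos.ne']
      congr 1
      ring
    refine (norm_add_le _ _).trans ?_
    rw [norm_smul, norm_smul, norm_mul, norm_mul, norm_e2, mul_one,
      Real.norm_of_nonneg (Real.rpow_nonneg (norm_nonneg x) _),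
      Real.norm_of_nonneg (Real.rpow_nonneg (norm_nonneg x) _), Real.norm_eq_abs, Real.norm_eq_abs]
    calc ‖x‖ ^ (s - 1) * |φ (zz x)| * ‖x‖ + ‖x‖ ^ s * |χ (zz x)|
        ≤ ‖x‖ ^ (s - 1) * C * ‖x‖ + ‖x‖ ^ s * C' := by
          gcongr
          · exact hC x
          · exact hC' x
      _ = (C + C') * ‖x‖ ^ s := by rw [e1]; ring
  · have h1 := continuousAt_zz hx
    have h2 := continuousAt_npow hx (s - 1)
    have h3 := continuousAt_npow hx s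
    exact ((h2.mul (hφ.continuousAt.comp h1)).smul continuousAt_id).add
      ((h3.mul (hχ.continuousAt.comp h1)).smul continuousAt_const)

lemma continuous_Gr (hk : 1 < v.2.1) : Continuous (Gr v) := by
  have h := continuous_field (s := v.2.1 - 1) (by linarith)
    (φ := fun z => v.2.1 * ft v.2.2 z - z * yt v.2.2 z) (χ := yt v.2.2)
    ((continuous_const.mul (continuous_ft _)).sub (continuous_id.mul (continuous_yt _)))
    (continuous_yt _)
  have e : Gr v = fun x : E3 => (‖x‖ ^ (v.2.1 - 1 - 1) *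
      (v.2.1 * ft v.2.2 (zz x) - zz x * yt v.2.2 (zz x))) • x +
      (‖x‖ ^ (v.2.1 - 1) * yt v.2.2 (zz x)) • e2 := by
    ext1 x
    unfold Gr
    rw [show v.2.1 - 1 - 1 = v.2.1 - 2 by ring]
  rw [e]
  exact h

lemma contDiff_uu (hk : 1 < v.2.1) : ContDiff ℝ 1 (uu v) := by
  rw [contDiff_one_iff_fderiv]
  refine ⟨fun x => (hasFDerivAt_uu' v hk x).differentiableAt, ?_⟩
  have : fderiv ℝ (uu v) = fun x => innerSL ℝ (Gr v x) :=
    funext fun x => (hasFDerivAt_uu' v hk x).fderiv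
  rw [this]
  exact (innerSL ℝ).continuous.comp (continuous_Gr v hk)

lemma gradient_uu (hk : 1 < v.2.1) (x : E3) : gradient (uu v) x = Gr v x := by
  have h : HasGradientAt (uu v) (Gr v x) x := by
    rw [hasGradientAt_iff_hasFDerivAt]
    exact hasFDerivAt_uu' v hk x
  exact h.gradient

lemma norm_Gr_sq {x : E3} (hx : x ≠ 0) :
    ‖Gr v x‖ ^ 2 = (‖x‖ ^ (v.2.1 - 1)) ^ 2 * rt v (zz x) := by
  have hpos := norm_pos' hx
  rw [← real_inner_self_eq_norm_sq, inner_Gr, real_inner_comm, inner_Gr,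
    real_inner_self_eq_norm_sq]
  have e3 : Gr v x 2 = (‖x‖ ^ (v.2.1 - 2) *
      (v.2.1 * ft v.2.2 (zz x) - zz x * yt v.2.2 (zz x))) * x 2 +
      (‖x‖ ^ (v.2.1 - 1) * yt v.2.2 (zz x)) := by
    unfold Gr
    simp [e2]
  have e2' : ‖x‖ ^ (v.2.1 - 1) = ‖x‖ ^ (v.2.1 - 2) * ‖x‖ := by
    rw [← Real.rpow_add_one hpos.ne']
    congr 1
    ring
  rw [e3, e2', ← zz_mul hx]
  unfold rt
  ring

end

end Pool.Agent.H23R3.PM
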