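import Pool.Agent.H23R3.PMOp

set_option autoImplicit false

namespace Pool.Agent.H23R3.PM

open MeasureTheory Set Filter Topology Real intervalIntegral

/-- `∫_z^1 h` -/
noncomputable def Wr (h : X) (z : ℝ) : ℝ := ∫ s in z..1, ext h s

lemma hasDerivAt_Wr (h : X) (z : ℝ) : HasDerivAt (Wr h) (-ext h z) z := by
  unfold Wr
  exact integral_hasDerivAt_left ((continuous_ext h).intervalIntegrable _ _)
    ((continuous_ext h).stronglyMeasurableAtFilter _ _) (continuous_ext h).continuousAt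

lemma M_eq (h : X) {z : ℝ} (hz : z ∈ Icc (0 : ℝ) 1) : (1 - z) * M h ⟨z, hz⟩ = Wr h z :=
  M_mul h ⟨z, hz⟩

lemma Y_eq (h : X) {z : ℝ} (hz : z ∈ Icc (0 : ℝ) 1) :
    (1 - z ^ 2) * ext (Yop h) z = -Wr h z := by
  rw [ext_of_mem _ hz, Yop_apply, ← M_eq h hz]
  have : (1 + z) ≠ 0 := by have := hz.1; positivity
  simp only
  field_simp
  ring

lemma F_eq (h : X) {z : ℝ} (hz : z ∈ Icc (0 : ℝ) 1) : ext (Fop h) z = -Wr (Yop h) z := by
  rw [ext_of_mem _ hz, Fop_apply, ← M_eq (Yop h) hz]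
  ring

lemma Wr_one (h : X) : Wr h 1 = 0 := by unfold Wr; simp

lemma Wr_zero (h : X) : Wr h 0 = M h 0 := by
  have := M_eq h (z := 0) ⟨le_rfl, zero_le_one⟩
  rw [← this, sub_zero, one_mul]
  rfl

noncomputable def PP (z : ℝ) : ℝ := (3 * z ^ 2 - 1) / 2

lemma hasDerivAt_PP (z : ℝ) : HasDerivAt PP (3 * z) z := by
  unfold PP
  have := (((hasDerivAt_pow 2 z).const_mul 3).sub_const 1).div_const 2
  exact this.congr_deriv (by norm_num; ring)

lemma green (h : X) :
    ∫ z in (0 : ℝ)..1, (ext h z + 6 * ext (Fop h) z) * PP z = -(1 / 2) * M h 0 := by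
  have hG : ∀ z ∈ uIcc (0 : ℝ) 1, HasDerivAt
      (fun z => -Wr h z * PP z + (1 - z ^ 2) * (3 * z) * Wr (Yop h) z)
      ((ext h z + 6 * ext (Fop h) z) * PP z) z := by
    intro z hz
    rw [uIcc_of_le zero_le_one] at hz
    have h1 := (hasDerivAt_Wr h z).fun_neg.mul (hasDerivAt_PP z)
    have h2 : HasDerivAt (fun z : ℝ => (1 - z ^ 2) * (3 * z)) (3 - 9 * z ^ 2) z := by
      have := (((hasDerivAt_pow 2 z).const_sub 1)).mul ((hasDerivAt_id z).const_mul 3)
      exact this.congr_deriv (by simp; ring)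
    have h3 := h1.add (h2.mul (hasDerivAt_Wr (Yop h) z))
    refine h3.congr_deriv ?_
    rw [F_eq h hz]
    have e := Y_eq h hz
    have e2 : (1 - z ^ 2) * (3 * z) * -ext (Yop h) z = 3 * z * Wr h z := by
      calc (1 - z ^ 2) * (3 * z) * -ext (Yop h) z = -(3 * z) * ((1 - z ^ 2) * ext (Yop h) z) := by
            ring
        _ = _ := by rw [e]; ring
    rw [e2]
    unfold PP
    ring
  have hc : Continuous fun z => (ext h z + 6 * ext (Fop h) z) * PP z := by
    have h1 := continuous_ext h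
    have h2 := continuous_ext (Fop h)
    unfold PP
    fun_prop
  rw [integral_eq_sub_of_hasDerivAt hG (hc.intervalIntegrable _ _)]
  rw [Wr_one, Wr_one, Wr_zero]
  unfold PP
  norm_num
  ring

lemma int_PP_sq : ∫ z in (0 : ℝ)..1, PP z * PP z = 1 / 5 := by
  have hG : ∀ z ∈ uIcc (0 : ℝ) 1, HasDerivAt
      (fun z : ℝ => (9 * z ^ 5 / 5 - 2 * z ^ 3 + z) / 4) (PP z * PP z) z := by
    intro z _
    have := (((((hasDerivAt_pow 5 z).const_mul 9).div_const 5).sub
      ((hasDerivAt_pow 3 z).const_mul 2)).add (hasDerivAt_id z)).div_const 4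
    refine this.congr_deriv ?_
    unfold PP
    norm_num
    ring
  rw [integral_eq_sub_of_hasDerivAt hG]
  · norm_num
  · exact Continuous.intervalIntegrable (by unfold PP; fun_prop) _ _

lemma int_PP : ∫ z in (0 : ℝ)..1, PP z = 0 := by
  have hG : ∀ z ∈ uIcc (0 : ℝ) 1, HasDerivAt
      (fun z : ℝ => (z ^ 3 - z) / 2) (PP z) z := by
    intro z _
    have := ((hasDerivAt_pow 3 z).sub (hasDerivAt_id z)).div_const 2
    refine this.congr_deriv ?_
    unfold PP
    norm_num
  rw [integral_eq_sub_of_hasDerivAt hG]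
  · norm_num
  · exact Continuous.intervalIntegrable (by unfold PP; fun_prop) _ _

/-- `∫_0^1 dz/(1+3z²) = π/(3√3)` -/
lemma int_inv : ∫ z in (0 : ℝ)..1, (1 + 3 * z ^ 2)⁻¹ = π / (3 * √3) := by
  have h3 : √3 ^ 2 = 3 := Real.sq_sqrt (by norm_num)
  have h30 : 0 < √3 := Real.sqrt_pos.mpr (by norm_num)
  have hG : ∀ z ∈ uIcc (0 : ℝ) 1, HasDerivAt
      (fun z : ℝ => Real.arctan (√3 * z) / √3) ((1 + 3 * z ^ 2)⁻¹) z := by
    intro z _
    have h1 : HasDerivAt (fun z : ℝ => √3 * z) (√3 * 1) z := (hasDerivAt_id z).const_mul _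
    have h2 := (h1.arctan).div_const √3
    refine h2.congr_deriv ?_
    rw [mul_pow, h3]
    field_simp
  rw [integral_eq_sub_of_hasDerivAt hG]
  · have h4 : Real.arctan √3 = π / 3 := by
      rw [← Real.tan_pi_div_three]
      apply Real.arctan_tan
      · have := pi_pos; linarith
      · have := pi_pos; linarith
    simp only [mul_one, mul_zero, Real.arctan_zero, zero_div, sub_zero]
    rw [h4]
    field_simp
  · refine Continuous.intervalIntegrable ?_ _ _
    have : ∀ z : ℝ, 1 + 3 * z ^ 2 ≠ 0 := fun z => by positivity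
    fun_prop (disch := assumption)

end Pool.Agent.H23R3.PM
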