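import Pool.Agent.H23R3.PMNon

set_option autoImplicit false

namespace Pool.Agent.H23R3.PM

open MeasureTheory Set Filter Topology Real intervalIntegral

noncomputable def hL : V →L[ℝ] X :=
  (ContinuousLinearMap.snd ℝ ℝ X).comp (ContinuousLinearMap.snd ℝ ℝ (ℝ × X))

noncomputable def kL : V →L[ℝ] ℝ :=
  (ContinuousLinearMap.fst ℝ ℝ X).comp (ContinuousLinearMap.snd ℝ ℝ (ℝ × X))

noncomputable def pL : V →L[ℝ] ℝ := ContinuousLinearMap.fst ℝ ℝ (ℝ × X)

noncomputable def NL : V →L[ℝ] X :=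
  hL + ((6 : ℝ) • (Fop.comp hL) + ((5 : ℝ) • kL).smulRight pP)

noncomputable def EL : V →L[ℝ] X :=
  (ContinuousLinearMap.mul ℝ X (rho v0)).comp NL + pL.smulRight (Gg v0)

noncomputable def PL : V →L[ℝ] V :=
  pL.prod (((ContinuousMap.evalCLM ℝ (0 : unitInterval)).comp (M.comp hL)).prod EL)

lemma NL_apply (v : V) : NL v = v.2.2 + ((6 : ℝ) • Fop v.2.2 + (5 * v.2.1) • pP) := rfl

lemma EL_apply (v : V) : EL v = rho v0 * NL v + v.1 • Gg v0 := rfl

lemma PL_apply (v : V) : PL v = (v.1, (M v.2.2 0, EL v)) := rfl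

lemma fv_v0 : fv v0 = pP := F_h0'

lemma Nn_v0 : Nn v0 = 0 := by
  unfold Nn
  rw [fv_v0]
  unfold v0 h0
  ext z
  simp only [ContinuousMap.add_apply, ContinuousMap.smul_apply, smul_eq_mul,
    ContinuousMap.zero_apply]
  ring

lemma rho_v0 (z : unitInterval) : rho v0 z = 1 + 3 * (z : ℝ) ^ 2 := by
  unfold rho
  rw [fv_v0]
  unfold om v0
  simp only [ContinuousMap.add_apply, ContinuousMap.smul_apply, ContinuousMap.mul_apply,
    ContinuousMap.pow_apply, smul_eq_mul]
  rw [Y_h0, pP_apply]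
  change 2 ^ 2 * PP z ^ 2 + (1 - (z : ℝ) ^ 2) * (3 * z) ^ 2 = _
  unfold PP
  ring

lemma om_v0 (z : unitInterval) : om v0 z = 9 * (z : ℝ) ^ 2 * (1 - (z : ℝ) ^ 2) := by
  unfold om v0
  simp only [ContinuousMap.mul_apply, ContinuousMap.pow_apply]
  rw [Y_h0]
  change (1 - (z : ℝ) ^ 2) * (3 * z) ^ 2 = _
  ring

lemma Gg_v0 (z : unitInterval) : Gg v0 z = 9 * (z : ℝ) ^ 2 - 1 := by
  unfold Gg
  rw [fv_v0]
  simp only [ContinuousMap.add_apply, ContinuousMap.smul_apply, ContinuousMap.mul_apply,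
    smul_eq_mul, rho_v0, om_v0]
  change (2 * (2 - 1)) * (PP z * (1 + 3 * (z : ℝ) ^ 2)) +
    2 ^ 2 * (PP z * (9 * (z : ℝ) ^ 2 * (1 - (z : ℝ) ^ 2))) +
    9 * (z : ℝ) ^ 2 * (1 - (z : ℝ) ^ 2) * (h0 z + z * Yop h0 z) = _
  rw [h0_apply, Y_h0]
  unfold PP
  ring

lemma strict_Nn : HasStrictFDerivAt Nn NL v0 := by
  have h1 : HasStrictFDerivAt (fun v : V => v.2.2) hL v0 := hL.hasStrictFDerivAt
  have h2 : HasStrictFDerivAt (fun v : V => v.2.1) kL v0 := kL.hasStrictFDerivAt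
  have h3 := h2.mul (h2.add_const 1)
  have h4 : HasStrictFDerivAt fv (Fop.comp hL) v0 :=
    (Fop.hasStrictFDerivAt.comp v0 h1).const_add 1
  have h5 := h1.add (h3.smul h4)
  refine h5.congr_fderiv ?_
  refine ContinuousLinearMap.ext fun v => ContinuousMap.ext fun z => ?_
  rw [NL_apply, fv_v0]
  simp only [v0]
  change v.2.2 z + ((2 * (2 + 1)) * Fop v.2.2 z + (2 * v.2.1 + (2 + 1) * v.2.1) * pP z) =
    v.2.2 z + (6 * Fop v.2.2 z + (5 * v.2.1) * pP z)
  ring

lemma strict_Ee : HasStrictFDerivAt Ee EL v0 := by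
  have h1 := (contDiff_rho.contDiffAt (x := v0)).hasStrictFDerivAt (by norm_num)
  have h2 := (contDiff_Gg.contDiffAt (x := v0)).hasStrictFDerivAt (by norm_num)
  have h3 : HasStrictFDerivAt (fun v : V => v.1) pL v0 := pL.hasStrictFDerivAt
  have h4 := (h1.mul strict_Nn).add ((h3.sub_const 2).smul h2)
  refine h4.congr_fderiv ?_
  refine ContinuousLinearMap.ext fun v => ContinuousMap.ext fun z => ?_
  rw [EL_apply, Nn_v0]
  change (rho v0 * NL v + (0 : X) * (fderiv ℝ rho v0 v) +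
    ((2 - 2 : ℝ) • (fderiv ℝ Gg v0 v) + v.1 • Gg v0)) z = _
  rw [sub_self, zero_smul, zero_mul, add_zero, zero_add]

lemma strict_Psi : HasStrictFDerivAt Psi PL v0 := by
  have h1 : HasStrictFDerivAt (fun v : V => v.1) pL v0 := pL.hasStrictFDerivAt
  have h2 : HasStrictFDerivAt (fun v : V => M v.2.2 0)
      ((ContinuousMap.evalCLM ℝ (0 : unitInterval)).comp (M.comp hL)) v0 :=
    ((ContinuousMap.evalCLM ℝ (0 : unitInterval)).comp (M.comp hL)).hasStrictFDerivAt
  exact h1.prodMk (h2.prodMk strict_Ee)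

/-- inverse of `ρ₀` -/
noncomputable def ri : X := ⟨fun z => (1 + 3 * (z : ℝ) ^ 2)⁻¹, by
  have : ∀ z : unitInterval, (1 + 3 * (z : ℝ) ^ 2) ≠ 0 := fun z => by positivity
  fun_prop (disch := assumption)⟩

lemma ri_mul : ri * rho v0 = 1 := by
  ext z
  rw [ContinuousMap.mul_apply, rho_v0, ContinuousMap.one_apply]
  change (1 + 3 * (z : ℝ) ^ 2)⁻¹ * (1 + 3 * (z : ℝ) ^ 2) = 1
  have : (1 + 3 * (z : ℝ) ^ 2) ≠ 0 := by positivity
  field_simp

/-- the pairing `∫_0^1 g P` -/
noncomputable def ip (g : X) : ℝ := ∫ z in (0 : ℝ)..1, ext g z * PP z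

lemma continuous_PP : Continuous PP := by unfold PP; fun_prop

lemma ip_int (g : X) (a b : ℝ) : IntervalIntegrable (fun z => ext g z * PP z) volume a b :=
  ((continuous_ext g).mul continuous_PP).intervalIntegrable _ _

lemma ip_add (f g : X) : ip (f + g) = ip f + ip g := by
  unfold ip
  rw [← intervalIntegral.integral_add (ip_int f 0 1) (ip_int g 0 1)]
  congr 1
  ext z
  change (ext f z + ext g z) * PP z = _
  ring

lemma ip_smul (c : ℝ) (g : X) : ip (c • g) = c * ip g := by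
  unfold ip
  rw [← intervalIntegral.integral_const_mul]
  congr 1
  ext z
  change (c * ext g z) * PP z = _
  ring

lemma ip_pP : ip pP = 1 / 5 := by
  rw [← int_PP_sq]
  unfold ip
  refine intervalIntegral.integral_congr fun z hz => ?_
  rw [uIcc_of_le zero_le_one] at hz
  rw [ext_of_mem _ hz]
  rfl

lemma green' (h : X) : ip (h + (6 : ℝ) • Fop h) = -(1 / 2) * M h 0 := by
  rw [← green h]
  rfl

lemma PL_inj {v : V} (hv : PL v = 0) : v = 0 := by
  rw [PL_apply] at hv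
  have h1 : v.1 = 0 := congrArg Prod.fst hv
  have h2 : M v.2.2 0 = 0 := congrArg (fun w : V => w.2.1) hv
  have h3 : EL v = 0 := congrArg (fun w : V => w.2.2) hv
  rw [EL_apply, h1, zero_smul, add_zero] at h3
  have h4 : NL v = 0 := by
    calc NL v = (ri * rho v0) * NL v := by rw [ri_mul, one_mul]
      _ = ri * (rho v0 * NL v) := mul_assoc _ _ _
      _ = 0 := by rw [h3, mul_zero]
  rw [NL_apply, ← add_assoc] at h4
  have h5 := congrArg ip h4
  rw [ip_add, green', h2, ip_smul, ip_pP] at h5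
  have h6 : ip 0 = 0 := by
    have := ip_smul 0 0
    simpa using this
  rw [h6] at h5
  have hk : v.2.1 = 0 := by linarith
  rw [hk, mul_zero, zero_smul, add_zero] at h4
  have hh := inj_one_add h4
  ext1
  · exact h1
  · ext1
    · exact hk
    · exact hh

lemma PL_surj (w : V) : ∃ v : V, PL v = w := by
  obtain ⟨a, b, g⟩ := w
  set G : X := ri * (g - a • Gg v0) with hG
  set κ : ℝ := (b + 2 * ip G) / 2 with hκ
  obtain ⟨η, hη⟩ := surj_one_add (G + (-(5 * κ)) • pP)
  refine ⟨(a, κ, η), ?_⟩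
  rw [PL_apply]
  have h1 : M η 0 = b := by
    have := green' η
    rw [hη, ip_add, ip_smul, ip_pP] at this
    rw [hκ] at this
    linarith
  have h2 : EL (a, κ, η) = g := by
    rw [EL_apply, NL_apply]
    simp only
    rw [← add_assoc, hη, add_assoc, ← add_smul, neg_add_cancel, zero_smul, add_zero, hG,
      ← mul_assoc, mul_comm (rho v0) ri, ri_mul, one_mul, sub_add_cancel]
  simp only
  rw [h1, h2]

noncomputable def PE : V ≃L[ℝ] V :=
  ContinuousLinearEquiv.ofBijective PL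
    (by
      rw [LinearMap.ker_eq_bot']
      intro v hv
      exact PL_inj hv)
    (by
      rw [LinearMap.range_eq_top]
      intro w
      exact PL_surj w)

lemma PE_coe : (PE : V →L[ℝ] V) = PL := ContinuousLinearEquiv.coe_ofBijective _ _ _

lemma strict_Psi' : HasStrictFDerivAt Psi (PE : V →L[ℝ] V) v0 := by
  rw [PE_coe]; exact strict_Psi

lemma Psi_v0 : Psi v0 = (2, (0, 0)) := by
  unfold Psi Ee
  rw [Nn_v0]
  have h1 : M v0.2.2 0 = 0 := by
    change M h0 0 = 0
    rw [M_h0]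
    simp
  have h2 : v0.1 - 2 = 0 := by change (2 : ℝ) - 2 = 0; norm_num
  rw [h1, h2, mul_zero, zero_smul, add_zero]
  rfl

/-- the curve of solutions -/
noncomputable def crv (p : ℝ) : V := strict_Psi'.localInverse Psi PE v0 (p, (0, 0))

lemma crv_two : crv 2 = v0 := by
  unfold crv
  rw [← Psi_v0]
  exact strict_Psi'.localInverse_apply_image

lemma crv_spec : ∀ᶠ p in 𝓝 (2 : ℝ), Psi (crv p) = (p, (0, 0)) := by
  have h1 := strict_Psi'.eventually_right_inverse
  rw [Psi_v0] at h1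
  have h2 : Tendsto (fun p : ℝ => ((p, ((0 : ℝ), (0 : X))) : V)) (𝓝 2) (𝓝 (2, (0, 0))) := by
    apply Continuous.tendsto' (by fun_prop)
    rfl
  exact h2.eventually h1

/-- the tangent vector -/
noncomputable def tv : V := PE.symm (1, (0, 0))

lemma crv_deriv : HasDerivAt crv tv 2 := by
  have h1 := strict_Psi'.to_localInverse.hasFDerivAt
  rw [Psi_v0] at h1
  have h2 : HasDerivAt (fun p : ℝ => ((p, ((0 : ℝ), (0 : X))) : V)) (1, (0, 0)) 2 := by
    exact (hasDerivAt_id (2 : ℝ)).prodMk (hasDerivAt_const _ _)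
  exact h1.comp_hasDerivAt 2 h2

lemma tv_spec : PL tv = (1, (0, 0)) := by
  have : PE tv = (1, (0, 0)) := PE.apply_symm_apply _
  have h2 : (PE : V →L[ℝ] V) tv = PL tv := by rw [PE_coe]
  rw [← h2]
  exact this

end Pool.Agent.H23R3.PM
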