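import Pool.Agent.H23R3.PMGreen

set_option autoImplicit false

namespace Pool.Agent.H23R3.PM

open MeasureTheory Set Filter Topology Real intervalIntegral

abbrev V := ℝ × ℝ × X

/-- `P = (3z²-1)/2` as an element of `X` -/
noncomputable def pP : X := ⟨fun z => PP z, by unfold PP; fun_prop⟩

lemma pP_apply (z : unitInterval) : pP z = PP z := rfl

noncomputable def h0 : X := (-6 : ℝ) • pP

lemma h0_apply (z : unitInterval) : h0 z = 3 - 9 * (z : ℝ) ^ 2 := by
  change (-6 : ℝ) * PP z = _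
  unfold PP
  ring

lemma M_h0 (z : unitInterval) : M h0 z = -3 * z * (1 + z) := by
  have hz0 : 0 ≤ (z : ℝ) := z.2.1
  have hz1 : (z : ℝ) ≤ 1 := z.2.2
  change ∫ σ in (0 : ℝ)..1, ext h0 (1 - (1 - (z : ℝ)) * σ) = _
  have hG : ∀ σ ∈ uIcc (0 : ℝ) 1, HasDerivAt
      (fun σ : ℝ => 3 * σ - 9 * (σ - (1 - (z : ℝ)) * σ ^ 2 + (1 - (z : ℝ)) ^ 2 * σ ^ 3 / 3))
      (ext h0 (1 - (1 - (z : ℝ)) * σ)) σ := by
    intro σ hσ
    rw [uIcc_of_le zero_le_one] at hσ
    have hs : (1 - (1 - (z : ℝ)) * σ) ∈ Icc (0 : ℝ) 1 := by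
      constructor
      · nlinarith [hσ.1, hσ.2]
      · nlinarith [hσ.1, hσ.2]
    rw [ext_of_mem h0 hs, h0_apply]
    have := ((hasDerivAt_id σ).const_mul 3).sub ((((hasDerivAt_id σ).sub
      ((hasDerivAt_pow 2 σ).const_mul (1 - (z : ℝ)))).add
      (((hasDerivAt_pow 3 σ).const_mul ((1 - (z : ℝ)) ^ 2)).div_const 3)).const_mul 9)
    refine this.congr_deriv ?_
    norm_num
    ring
  rw [integral_eq_sub_of_hasDerivAt hG]
  · norm_num
    ring
  · exact ((continuous_ext h0).comp (by fun_prop)).intervalIntegrable _ _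

lemma Y_h0 (z : unitInterval) : Yop h0 z = 3 * z := by
  rw [Yop_apply, M_h0]
  have : (1 + (z : ℝ)) ≠ 0 := by have := z.2.1; positivity
  field_simp

lemma F_h0 (z : unitInterval) : Fop h0 z = PP z - 1 := by
  have hz0 : 0 ≤ (z : ℝ) := z.2.1
  have hz1 : (z : ℝ) ≤ 1 := z.2.2
  rw [Fop_apply]
  have : M (Yop h0) z = 3 * (1 + z) / 2 := by
    change ∫ σ in (0 : ℝ)..1, ext (Yop h0) (1 - (1 - (z : ℝ)) * σ) = _
    have hG : ∀ σ ∈ uIcc (0 : ℝ) 1, HasDerivAt
        (fun σ : ℝ => 3 * (σ - (1 - (z : ℝ)) * σ ^ 2 / 2))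
        (ext (Yop h0) (1 - (1 - (z : ℝ)) * σ)) σ := by
      intro σ hσ
      rw [uIcc_of_le zero_le_one] at hσ
      have hs : (1 - (1 - (z : ℝ)) * σ) ∈ Icc (0 : ℝ) 1 := by
        constructor
        · nlinarith [hσ.1, hσ.2]
        · nlinarith [hσ.1, hσ.2]
      rw [ext_of_mem _ hs, Y_h0]
      have := ((hasDerivAt_id σ).sub
        (((hasDerivAt_pow 2 σ).const_mul (1 - (z : ℝ))).div_const 2)).const_mul 3
      refine this.congr_deriv ?_
      norm_num
      ring
    rw [integral_eq_sub_of_hasDerivAt hG]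
    · norm_num
      ring
    · exact ((continuous_ext _).comp (by fun_prop)).intervalIntegrable _ _
  rw [this]
  unfold PP
  ring

lemma F_h0' : 1 + Fop h0 = pP := by
  ext z
  rw [ContinuousMap.add_apply, F_h0, pP_apply, ContinuousMap.one_apply]
  ring

/-- `1 - z²` -/
noncomputable def omc : X := ⟨fun z => 1 - (z : ℝ) ^ 2, by fun_prop⟩

noncomputable def fv (v : V) : X := 1 + Fop v.2.2

noncomputable def om (v : V) : X := omc * (Yop v.2.2) ^ 2

noncomputable def rho (v : V) : X := (v.2.1 ^ 2) • (fv v) ^ 2 + om v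

noncomputable def Nn (v : V) : X := v.2.2 + (v.2.1 * (v.2.1 + 1)) • fv v

noncomputable def Gg (v : V) : X :=
  (v.2.1 * (v.2.1 - 1)) • (fv v * rho v) + (v.2.1 ^ 2) • (fv v * om v) +
    om v * (v.2.2 + zc * Yop v.2.2)

noncomputable def Ee (v : V) : X := rho v * Nn v + (v.1 - 2) • Gg v

noncomputable def Psi (v : V) : V := (v.1, (M v.2.2 0, Ee v))

noncomputable def v0 : V := (2, (2, h0))

lemma contDiff_h : ContDiff ℝ 1 (fun v : V => v.2.2) := contDiff_snd.comp contDiff_snd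

lemma contDiff_k : ContDiff ℝ 1 (fun v : V => v.2.1) := contDiff_fst.comp contDiff_snd

lemma contDiff_fv : ContDiff ℝ 1 fv :=
  contDiff_const.add (Fop.contDiff.comp contDiff_h)

lemma contDiff_y : ContDiff ℝ 1 (fun v : V => Yop v.2.2) := Yop.contDiff.comp contDiff_h

lemma contDiff_om : ContDiff ℝ 1 om := contDiff_const.mul (contDiff_y.pow 2)

lemma contDiff_rho : ContDiff ℝ 1 rho :=
  ((contDiff_k.pow 2).smul (contDiff_fv.pow 2)).add contDiff_om

lemma contDiff_Gg : ContDiff ℝ 1 Gg := by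
  unfold Gg
  refine (((contDiff_k.mul (contDiff_k.sub contDiff_const)).smul
    (contDiff_fv.mul contDiff_rho)).add ((contDiff_k.pow 2).smul
    (contDiff_fv.mul contDiff_om))).add (contDiff_om.mul (contDiff_h.add
    (contDiff_const.mul contDiff_y)))

end Pool.Agent.H23R3.PM
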