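import Mathlib

set_option autoImplicit false

namespace Pool.Agent.H23R3.PM

open MeasureTheory Set Filter Topology Real intervalIntegral

abbrev X := C(unitInterval, ℝ)

/-- extension to the line by clamping -/
noncomputable def ext (h : X) (s : ℝ) : ℝ := h (projIcc 0 1 zero_le_one s)

lemma continuous_ext (h : X) : Continuous (ext h) := h.continuous.comp continuous_projIcc

lemma ext_of_mem (h : X) {s : ℝ} (hs : s ∈ Icc (0 : ℝ) 1) : ext h s = h ⟨s, hs⟩ := by
  unfold ext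
  rw [projIcc_of_mem _ hs]

lemma ext_coe (h : X) (z : unitInterval) : ext h z = h z := ext_of_mem h z.2

lemma abs_ext_le (h : X) (s : ℝ) : |ext h s| ≤ ‖h‖ := h.norm_coe_le_norm _

noncomputable def Mfun (h : X) : X where
  toFun z := ∫ σ in (0 : ℝ)..1, ext h (1 - (1 - (z : ℝ)) * σ)
  continuous_toFun := by
    refine continuous_parametric_intervalIntegral_of_continuous' ?_ 0 1
    exact (continuous_ext h).comp (by fun_prop)

lemma int_ext (h : X) (z a b : ℝ) :
    IntervalIntegrable (fun σ => ext h (1 - (1 - z) * σ)) volume a b :=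
  ((continuous_ext h).comp (by fun_prop)).intervalIntegrable _ _

lemma Mfun_bound {g : X} {C : ℝ} {j : ℕ} (hg : ∀ z : unitInterval, |g z| ≤ C * (1 - z) ^ j)
    (z : unitInterval) : |Mfun g z| ≤ C * (1 - z) ^ j / (j + 1) := by
  have hz0 : 0 ≤ (z : ℝ) := z.2.1
  have hz1 : (z : ℝ) ≤ 1 := z.2.2
  have h1 : ‖∫ σ in (0 : ℝ)..1, ext g (1 - (1 - (z : ℝ)) * σ)‖ ≤
      ∫ σ in (0 : ℝ)..1, C * ((1 - z) * σ) ^ j := by
    refine norm_integral_le_of_norm_le zero_le_one (Eventually.of_forall fun t ht => ?_) ?_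
    · have hs : (1 - (1 - (z : ℝ)) * t) ∈ Icc (0 : ℝ) 1 := by
        constructor
        · nlinarith [ht.1, ht.2]
        · nlinarith [ht.1, ht.2]
      rw [ext_of_mem g hs, Real.norm_eq_abs]
      have := hg ⟨_, hs⟩
      simpa using this
    · exact Continuous.intervalIntegrable (by fun_prop) _ _
  have h2 : ∫ σ in (0 : ℝ)..1, C * ((1 - z) * σ) ^ j = C * (1 - z) ^ j / (j + 1) := by
    simp_rw [mul_pow]
    rw [intervalIntegral.integral_const_mul, intervalIntegral.integral_const_mul, integral_pow]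
    simp
    ring
  rw [h2] at h1
  exact h1

lemma Mfun_norm (h : X) : ‖Mfun h‖ ≤ 1 * ‖h‖ := by
  rw [one_mul, ContinuousMap.norm_le _ (norm_nonneg _)]
  intro z
  have := Mfun_bound (g := h) (C := ‖h‖) (j := 0) (fun z => by
    simpa using h.norm_coe_le_norm z) z
  simpa using this

noncomputable def M : X →L[ℝ] X :=
  LinearMap.mkContinuous
    { toFun := Mfun
      map_add' := by
        intro f g
        ext z
        simp only [Mfun, ContinuousMap.coe_mk, ContinuousMap.add_apply]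
        rw [← intervalIntegral.integral_add (int_ext f z 0 1) (int_ext g z 0 1)]
        rfl
      map_smul' := by
        intro c f
        ext z
        simp only [Mfun, ContinuousMap.coe_mk, RingHom.id_apply, ContinuousMap.smul_apply,
          smul_eq_mul]
        rw [← intervalIntegral.integral_const_mul]
        rfl } 1 Mfun_norm

lemma M_apply (h : X) : M h = Mfun h := rfl

lemma M_bound {g : X} {C : ℝ} {j : ℕ} (hg : ∀ z : unitInterval, |g z| ≤ C * (1 - z) ^ j)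
    (z : unitInterval) : |M g z| ≤ C * (1 - z) ^ j / (j + 1) := Mfun_bound hg z

lemma M_mul (h : X) (z : unitInterval) :
    (1 - (z : ℝ)) * M h z = ∫ s in (z : ℝ)..1, ext h s := by
  have := smul_integral_comp_sub_mul (a := 0) (b := 1) (ext h) (1 - (z : ℝ)) 1
  simp only [smul_eq_mul, mul_one, mul_zero, sub_zero, sub_sub_cancel] at this
  exact this

/-- the coordinate function -/
def zc : X := ⟨fun z => (z : ℝ), continuous_subtype_val⟩

noncomputable def aa : X := ⟨fun z => -(1 + (z : ℝ))⁻¹, by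
  have : ∀ z : unitInterval, (1 + (z : ℝ)) ≠ 0 := fun z => by
    have := z.2.1
    positivity
  fun_prop (disch := assumption)⟩

noncomputable def bb : X := ⟨fun z => -(1 - (z : ℝ)), by fun_prop⟩

noncomputable def Yop : X →L[ℝ] X := (ContinuousLinearMap.mul ℝ X aa).comp M

noncomputable def Fop : X →L[ℝ] X := (ContinuousLinearMap.mul ℝ X bb).comp (M.comp Yop)

lemma Yop_apply (h : X) (z : unitInterval) : Yop h z = -(1 + (z : ℝ))⁻¹ * M h z := rfl

lemma Fop_apply (h : X) (z : unitInterval) : Fop h z = -(1 - (z : ℝ)) * M (Yop h) z := rfl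

lemma Fop_bound {g : X} {C : ℝ} {j : ℕ} (hg : ∀ z : unitInterval, |g z| ≤ C * (1 - z) ^ j)
    (z : unitInterval) : |Fop g z| ≤ C / (j + 1) * (1 - z) ^ (j + 1) := by
  have hC : ∀ z : unitInterval, 0 ≤ C * (1 - (z : ℝ)) ^ j := fun z =>
    (abs_nonneg _).trans (hg z)
  have hY : ∀ z : unitInterval, |Yop g z| ≤ C * (1 - z) ^ j := by
    intro z
    have hz0 : 0 ≤ (z : ℝ) := z.2.1
    rw [Yop_apply, abs_mul, abs_neg, abs_inv, abs_of_pos (by positivity : 0 < 1 + (z : ℝ))]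
    have h1 := M_bound hg z
    have h2 : (1 + (z : ℝ))⁻¹ ≤ 1 := inv_le_one_of_one_le₀ (by linarith)
    have h3 : C * (1 - (z : ℝ)) ^ j / (j + 1) ≤ C * (1 - (z : ℝ)) ^ j := by
      apply div_le_self (hC z)
      have : (0 : ℝ) ≤ j := Nat.cast_nonneg j
      linarith
    calc (1 + (z : ℝ))⁻¹ * |M g z| ≤ 1 * |M g z| := by gcongr
      _ = |M g z| := one_mul _
      _ ≤ _ := h1.trans h3
  have h4 := M_bound hY z
  have hz1 : (z : ℝ) ≤ 1 := z.2.2
  rw [Fop_apply, abs_mul, abs_neg, abs_of_nonneg (by linarith : 0 ≤ 1 - (z : ℝ))]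
  calc (1 - (z : ℝ)) * |M (Yop g) z| ≤ (1 - (z : ℝ)) * (C * (1 - z) ^ j / (j + 1)) := by
        gcongr
    _ = _ := by ring

/-- `-6 F` -/
noncomputable def Top : X →L[ℝ] X :=
  (ContinuousLinearMap.mul ℝ X ⟨fun z => 6 * (1 - (z : ℝ)), by fun_prop⟩).comp (M.comp Yop)

lemma Top_eq (h : X) : Top h = -((6 : ℝ) • Fop h) := by
  ext z
  simp only [ContinuousMap.neg_apply, ContinuousMap.smul_apply, Fop_apply, smul_eq_mul]
  change (6 * (1 - (z : ℝ))) * M (Yop h) z = _
  ring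

lemma Top_pow_bound (h : X) (j : ℕ) (z : unitInterval) :
    |(Top ^ j) h z| ≤ 6 ^ j * ‖h‖ / (Nat.factorial j) * (1 - z) ^ j := by
  induction j generalizing z with
  | zero => simpa using h.norm_coe_le_norm z
  | succ j ih =>
    have e : (Top ^ (j + 1)) h z = -(6 * Fop ((Top ^ j) h) z) := by
      rw [pow_succ']
      change Top ((Top ^ j) h) z = _
      rw [Top_eq]
      rfl
    rw [e, abs_neg, abs_mul, abs_of_pos (by norm_num : (0 : ℝ) < 6)]
    have h1 := Fop_bound (g := (Top ^ j) h) ih z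
    refine (mul_le_mul_of_nonneg_left h1 (by norm_num)).trans (le_of_eq ?_)
    rw [Nat.factorial_succ]
    push_cast
    have h2 : (Nat.factorial j : ℝ) ≠ 0 := by positivity
    have h3 : (j : ℝ) + 1 ≠ 0 := by positivity
    field_simp
    ring

lemma Top_pow_norm (j : ℕ) : ‖Top ^ j‖ ≤ 6 ^ j / (Nat.factorial j) := by
  refine ContinuousLinearMap.opNorm_le_bound _ (by positivity) fun h => ?_
  rw [ContinuousMap.norm_le _ (by positivity)]
  intro z
  have hz0 : 0 ≤ (z : ℝ) := z.2.1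
  have hz1 : (z : ℝ) ≤ 1 := z.2.2
  have h1 := Top_pow_bound h j z
  have h2 : (1 - (z : ℝ)) ^ j ≤ 1 := pow_le_one₀ (by linarith) (by linarith)
  calc ‖(Top ^ j) h z‖ ≤ 6 ^ j * ‖h‖ / (Nat.factorial j) * (1 - z) ^ j := h1
    _ ≤ 6 ^ j * ‖h‖ / (Nat.factorial j) * 1 := by gcongr
    _ = 6 ^ j / (Nat.factorial j) * ‖h‖ := by ring

lemma isUnit_of_pow {A : Type*} [NormedRing A] [CompleteSpace A] (x : A) (n : ℕ)
    (hN : ‖x ^ n‖ < 1) : ∃ R : A, (1 - x) * R = 1 ∧ R * (1 - x) = 1 := by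
  have hU := isUnit_one_sub_of_norm_lt_one hN
  have e1 := mul_neg_geom_sum x n
  have e2 := geom_sum_mul_neg x n
  set S := ∑ i ∈ Finset.range n, x ^ i
  obtain ⟨u, hu⟩ := hU
  have a1 : (1 - x) * (S * (u⁻¹ : Aˣ)) = 1 := by
    rw [← mul_assoc, e1, ← hu, Units.mul_inv]
  have a2 : ((u⁻¹ : Aˣ) * S) * (1 - x) = 1 := by
    rw [mul_assoc, e2, ← hu, Units.inv_mul]
  refine ⟨S * (u⁻¹ : Aˣ), a1, ?_⟩
  have a3 : ((u⁻¹ : Aˣ) : A) * S = S * (u⁻¹ : Aˣ) := by
    calc ((u⁻¹ : Aˣ) : A) * S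
        = ((u⁻¹ : Aˣ) * S) * ((1 - x) * (S * (u⁻¹ : Aˣ))) := by
          rw [a1, mul_one]
      _ = (((u⁻¹ : Aˣ) * S) * (1 - x)) * (S * (u⁻¹ : Aˣ)) := by
          rw [mul_assoc, mul_assoc, mul_assoc]
      _ = _ := by rw [a2, one_mul]
  rw [← a3]
  exact a2

/-- `1 + 6 F` is invertible -/
lemma exists_inv : ∃ R : X →L[ℝ] X, (∀ g, R g + (6 : ℝ) • Fop (R g) = g) ∧
    ∀ h, R (h + (6 : ℝ) • Fop h) = h := by
  have hN : ‖Top ^ 17‖ < 1 :=
    (Top_pow_norm 17).trans_lt (by norm_num [Nat.factorial])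
  obtain ⟨R, h1, h2⟩ := isUnit_of_pow Top 17 hN
  refine ⟨R, fun g => ?_, fun h => ?_⟩
  · have := DFunLike.congr_fun h1 g
    have e : ((1 : X →L[ℝ] X) - Top) (R g) = R g + (6 : ℝ) • Fop (R g) := by
      change R g - Top (R g) = _
      rw [Top_eq, sub_neg_eq_add]
    rw [← e]
    exact this
  · have := DFunLike.congr_fun h2 h
    have e : ((1 : X →L[ℝ] X) - Top) h = h + (6 : ℝ) • Fop h := by
      change h - Top h = _
      rw [Top_eq, sub_neg_eq_add]
    rw [← e]
    exact this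

lemma surj_one_add (g : X) : ∃ h : X, h + (6 : ℝ) • Fop h = g := by
  obtain ⟨R, h1, -⟩ := exists_inv
  exact ⟨R g, h1 g⟩

lemma inj_one_add {h : X} (hh : h + (6 : ℝ) • Fop h = 0) : h = 0 := by
  obtain ⟨R, -, h2⟩ := exists_inv
  rw [← h2 h, hh, map_zero]

end Pool.Agent.H23R3.PM
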