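import Pool.Agent.H23R3.PMCurve

set_option autoImplicit false

namespace Pool.Agent.H23R3.PM

open MeasureTheory Set Filter Topology Real intervalIntegral

noncomputable def yt (h : X) (z : ℝ) : ℝ := ext (Yop h) z - ext (Yop h) (-z)

noncomputable def ft (h : X) (z : ℝ) : ℝ := 1 - ∫ s in z..1, yt h s

noncomputable def ht (h : X) (z : ℝ) : ℝ := ext h |z|

noncomputable def Wt (h : X) (z : ℝ) : ℝ := ∫ s in z..1, ht h s

section
variable {h : X}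

lemma continuous_yt (h : X) : Continuous (yt h) :=
  (continuous_ext _).sub ((continuous_ext _).comp continuous_neg)

lemma continuous_ht (h : X) : Continuous (ht h) := (continuous_ext h).comp continuous_abs

lemma hasDerivAt_ft (h : X) (z : ℝ) : HasDerivAt (ft h) (yt h z) z := by
  unfold ft
  have := (integral_hasDerivAt_left ((continuous_yt h).intervalIntegrable z 1)
    ((continuous_yt h).stronglyMeasurableAtFilter _ _) (continuous_yt h).continuousAt).const_sub 1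
  simpa using this

lemma hasDerivAt_Wt (h : X) (z : ℝ) : HasDerivAt (Wt h) (-ht h z) z := by
  unfold Wt
  exact integral_hasDerivAt_left ((continuous_ht h).intervalIntegrable z 1)
    ((continuous_ht h).stronglyMeasurableAtFilter _ _) (continuous_ht h).continuousAt

lemma Y_zero (hM : M h 0 = 0) : Yop h 0 = 0 := by
  rw [Yop_apply, hM, mul_zero]

lemma ext_nonpos {g : X} {z : ℝ} (hz : z ≤ 0) : ext g z = g 0 := by
  unfold ext
  rw [projIcc_of_le_left zero_le_one hz]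
  rfl

lemma yt_of_nonneg (hM : M h 0 = 0) {z : ℝ} (hz : 0 ≤ z) : yt h z = ext (Yop h) z := by
  unfold yt
  rw [ext_nonpos (by linarith : -z ≤ 0), Y_zero hM, sub_zero]

lemma yt_neg (h : X) (z : ℝ) : yt h (-z) = -yt h z := by
  unfold yt
  rw [neg_neg]
  ring

lemma ht_neg (h : X) (z : ℝ) : ht h (-z) = ht h z := by
  unfold ht
  rw [abs_neg]

lemma ht_of_nonneg {z : ℝ} (hz : 0 ≤ z) : ht h z = ext h z := by
  unfold ht
  rw [abs_of_nonneg hz]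

lemma ft_neg (h : X) (z : ℝ) : ft h (-z) = ft h z := by
  have hd : ∀ z, HasDerivAt (fun z => ft h (-z) - ft h z) 0 z := by
    intro z
    have h1 : HasDerivAt (fun z => ft h (-z)) (yt h (-z) * (-1)) z :=
      (hasDerivAt_ft h (-z)).comp z (hasDerivAt_neg z)
    refine (h1.sub (hasDerivAt_ft h z)).congr_deriv ?_
    rw [yt_neg]
    ring
  have := is_const_of_deriv_eq_zero (fun z => (hd z).differentiableAt) (fun z => (hd z).deriv) z 0
  simp only [neg_zero, sub_self] at this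
  linarith

lemma Wt_of_nonneg {z : ℝ} (hz : 0 ≤ z) (hz1 : z ≤ 1) : Wt h z = Wr h z := by
  unfold Wt Wr
  refine intervalIntegral.integral_congr fun s hs => ?_
  rw [uIcc_of_le hz1] at hs
  exact ht_of_nonneg (hz.trans hs.1)

lemma Wt_neg (hM : M h 0 = 0) (z : ℝ) : Wt h (-z) = -Wt h z := by
  have hd : ∀ z, HasDerivAt (fun z => Wt h (-z) + Wt h z) 0 z := by
    intro z
    have h1 : HasDerivAt (fun z => Wt h (-z)) (-ht h (-z) * (-1)) z :=
      (hasDerivAt_Wt h (-z)).comp z (hasDerivAt_neg z)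
    refine (h1.add (hasDerivAt_Wt h z)).congr_deriv ?_
    rw [ht_neg]
    ring
  have := is_const_of_deriv_eq_zero (fun z => (hd z).differentiableAt) (fun z => (hd z).deriv) z 0
  simp only [neg_zero] at this
  rw [Wt_of_nonneg le_rfl zero_le_one, Wr_zero, hM] at this
  linarith

lemma yt_eq (hM : M h 0 = 0) {z : ℝ} (hz : z ∈ Icc (-1 : ℝ) 1) :
    (1 - z ^ 2) * yt h z = -Wt h z := by
  rcases le_total 0 z with h0 | h0
  · rw [yt_of_nonneg hM h0, Wt_of_nonneg h0 hz.2]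
    exact Y_eq h ⟨h0, hz.2⟩
  · have h1 : 0 ≤ -z := by linarith
    have h2 : -z ≤ 1 := by linarith [hz.1]
    have e := Y_eq h ⟨h1, h2⟩
    rw [← yt_of_nonneg hM h1, ← Wt_of_nonneg h1 h2, yt_neg, Wt_neg hM] at e
    have : (1 - (-z) ^ 2) = 1 - z ^ 2 := by ring
    rw [this] at e
    linarith

lemma hasDerivAt_yt (hM : M h 0 = 0) {z : ℝ} (hz : z ∈ Ioo (-1 : ℝ) 1) :
    HasDerivAt (yt h) ((ht h z + 2 * z * yt h z) / (1 - z ^ 2)) z := by
  have hpos : 0 < 1 - z ^ 2 := by nlinarith [hz.1, hz.2]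
  have h1 : HasDerivAt (fun z => -Wt h z / (1 - z ^ 2))
      ((ht h z * (1 - z ^ 2) - (-Wt h z) * (-(2 * z))) / (1 - z ^ 2) ^ 2) z := by
    have ha := (hasDerivAt_Wt h z).fun_neg
    have hb : HasDerivAt (fun z : ℝ => 1 - z ^ 2) (-(2 * z)) z := by
      have := (hasDerivAt_pow 2 z).const_sub 1
      simpa using this
    have := ha.div hb hpos.ne'
    rw [neg_neg] at this
    exact this
  have h2 : yt h =ᶠ[𝓝 z] fun z => -Wt h z / (1 - z ^ 2) := by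
    filter_upwards [isOpen_Ioo.mem_nhds hz] with s hs
    have hs2 : 0 < 1 - s ^ 2 := by nlinarith [hs.1, hs.2]
    rw [eq_div_iff hs2.ne', mul_comm]
    exact yt_eq hM (Ioo_subset_Icc_self hs)
  refine (h1.congr_of_eventuallyEq h2).congr_deriv ?_
  rw [← yt_eq hM (Ioo_subset_Icc_self hz)]
  field_simp
  ring

lemma ft_of_nonneg (hM : M h 0 = 0) {z : ℝ} (hz : z ∈ Icc (0 : ℝ) 1) :
    ft h z = 1 + ext (Fop h) z := by
  rw [F_eq h hz]
  unfold ft Wr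
  have : ∫ s in z..1, yt h s = ∫ s in z..1, ext (Yop h) s := by
    refine intervalIntegral.integral_congr fun s hs => ?_
    rw [uIcc_of_le hz.2] at hs
    exact yt_of_nonneg hM (hz.1.trans hs.1)
  rw [this]
  ring

lemma ft_fv {v : V} (hM : M v.2.2 0 = 0) {z : ℝ} (hz : z ∈ Icc (0 : ℝ) 1) :
    ft v.2.2 z = fv v ⟨z, hz⟩ := by
  rw [ft_of_nonneg hM hz, ext_of_mem _ hz]
  rfl

noncomputable def rt (v : V) (z : ℝ) : ℝ :=
  v.2.1 ^ 2 * ft v.2.2 z ^ 2 + (1 - z ^ 2) * yt v.2.2 z ^ 2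

lemma rt_neg (v : V) (z : ℝ) : rt v (-z) = rt v z := by
  unfold rt
  rw [ft_neg, yt_neg]
  ring

lemma rt_of_nonneg {v : V} (hM : M v.2.2 0 = 0) {z : ℝ} (hz : z ∈ Icc (0 : ℝ) 1) :
    rt v z = rho v ⟨z, hz⟩ := by
  unfold rt
  rw [ft_fv hM hz, yt_of_nonneg hM hz.1, ext_of_mem _ hz]
  unfold rho om
  simp only [ContinuousMap.add_apply, ContinuousMap.smul_apply, ContinuousMap.mul_apply,
    ContinuousMap.pow_apply, smul_eq_mul]
  rfl

lemma rt_pos {v : V} (hM : M v.2.2 0 = 0) (hr : ∀ z, 0 < rho v z) {z : ℝ}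
    (hz : z ∈ Icc (-1 : ℝ) 1) : 0 < rt v z := by
  rcases le_total 0 z with h0 | h0
  · rw [rt_of_nonneg hM ⟨h0, hz.2⟩]
    exact hr _
  · rw [← rt_neg, rt_of_nonneg hM ⟨by linarith, by linarith [hz.1]⟩]
    exact hr _

/-- the profile equation -/
lemma prof_eq_nonneg {v : V} (hM : M v.2.2 0 = 0) (hE : Ee v = 0) {z : ℝ}
    (hz : z ∈ Icc (0 : ℝ) 1) :
    rt v z * (ht v.2.2 z + ((v.2.1 - 1) * (v.1 - 1) + 2) * v.2.1 * ft v.2.2 z) +
      (v.1 - 2) * ((1 - z ^ 2) * yt v.2.2 z ^ 2) *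
        (v.2.1 ^ 2 * ft v.2.2 z + ht v.2.2 z + z * yt v.2.2 z) = 0 := by
  have h1 := DFunLike.congr_fun hE ⟨z, hz⟩
  rw [rt_of_nonneg hM hz, ft_fv hM hz, yt_of_nonneg hM hz.1, ext_of_mem _ hz,
    ht_of_nonneg hz.1, ext_of_mem _ hz]
  have h2 : om v ⟨z, hz⟩ = (1 - z ^ 2) * Yop v.2.2 ⟨z, hz⟩ ^ 2 := rfl
  have h3 : rho v ⟨z, hz⟩ = v.2.1 ^ 2 * fv v ⟨z, hz⟩ ^ 2 + om v ⟨z, hz⟩ := rfl
  have h4 : Ee v ⟨z, hz⟩ = rho v ⟨z, hz⟩ * (v.2.2 ⟨z, hz⟩ + (v.2.1 * (v.2.1 + 1)) * fv v ⟨z, hz⟩) +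
      (v.1 - 2) * ((v.2.1 * (v.2.1 - 1)) * (fv v ⟨z, hz⟩ * rho v ⟨z, hz⟩) +
        v.2.1 ^ 2 * (fv v ⟨z, hz⟩ * om v ⟨z, hz⟩) +
        om v ⟨z, hz⟩ * (v.2.2 ⟨z, hz⟩ + z * Yop v.2.2 ⟨z, hz⟩)) := rfl
  rw [h4] at h1
  have h5 : (0 : X) ⟨z, hz⟩ = 0 := rfl
  rw [h5] at h1
  rw [← h2, ← h1]
  ring

lemma prof_eq {v : V} (hM : M v.2.2 0 = 0) (hE : Ee v = 0) {z : ℝ}
    (hz : z ∈ Icc (-1 : ℝ) 1) :
    rt v z * (ht v.2.2 z + ((v.2.1 - 1) * (v.1 - 1) + 2) * v.2.1 * ft v.2.2 z) +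
      (v.1 - 2) * ((1 - z ^ 2) * yt v.2.2 z ^ 2) *
        (v.2.1 ^ 2 * ft v.2.2 z + ht v.2.2 z + z * yt v.2.2 z) = 0 := by
  rcases le_total 0 z with h0 | h0
  · exact prof_eq_nonneg hM hE ⟨h0, hz.2⟩
  · have h1 := prof_eq_nonneg hM hE (z := -z) ⟨by linarith, by linarith [hz.1]⟩
    rw [rt_neg, ht_neg, ft_neg, yt_neg] at h1
    rw [← h1]
    ring

lemma hasDerivAt_rt {v : V} (hM : M v.2.2 0 = 0) {z : ℝ} (hz : z ∈ Ioo (-1 : ℝ) 1) :
    HasDerivAt (rt v) (2 * yt v.2.2 z * (v.2.1 ^ 2 * ft v.2.2 z + ht v.2.2 z +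
      z * yt v.2.2 z)) z := by
  have hpos : 0 < 1 - z ^ 2 := by nlinarith [hz.1, hz.2]
  have h1 := (((hasDerivAt_ft v.2.2 z).pow 2).const_mul (v.2.1 ^ 2))
  have h2 : HasDerivAt (fun z : ℝ => 1 - z ^ 2) (-(2 * z)) z := by
    have := (hasDerivAt_pow 2 z).const_sub 1
    simpa using this
  have h3 := h1.add (h2.mul ((hasDerivAt_yt hM hz).pow 2))
  refine h3.congr_deriv ?_
  norm_num
  field_simp
  ring

noncomputable def qq (v : V) : ℝ := (v.1 - 2) / 2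

noncomputable def mu (v : V) : ℝ := (v.2.1 - 1) * (v.1 - 1)

noncomputable def al (v : V) (z : ℝ) : ℝ := rt v z ^ qq v * (v.2.1 * ft v.2.2 z - z * yt v.2.2 z)

noncomputable def be (v : V) (z : ℝ) : ℝ := rt v z ^ qq v * yt v.2.2 z

lemma div_eq {v : V} (hM : M v.2.2 0 = 0) (hE : Ee v = 0) (hr : ∀ z, 0 < rho v z) {z : ℝ}
    (hz : z ∈ Ioo (-1 : ℝ) 1) :
    ∃ b', HasDerivAt (be v) b' z ∧
      (mu v + 2) * al v z + mu v * z * be v z + (1 - z ^ 2) * b' = 0 := by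
  have hpos : 0 < 1 - z ^ 2 := by nlinarith [hz.1, hz.2]
  have hrt := rt_pos hM hr (Ioo_subset_Icc_self hz)
  have h1 := (hasDerivAt_rt hM hz).rpow_const (p := qq v) (Or.inl hrt.ne')
  have h2 := h1.mul (hasDerivAt_yt hM hz)
  refine ⟨_, h2, ?_⟩
  have e := prof_eq hM hE (Ioo_subset_Icc_self hz)
  have e2 : rt v z ^ qq v = rt v z ^ (qq v - 1) * rt v z := by
    rw [← Real.rpow_add_one hrt.ne']
    congr 1
    ring
  unfold al be mu
  rw [e2]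
  have e3 : (((v.2.1 - 1) * (v.1 - 1) + 2) *
      (rt v z ^ (qq v - 1) * rt v z * (v.2.1 * ft v.2.2 z - z * yt v.2.2 z)) +
      (v.2.1 - 1) * (v.1 - 1) * z * (rt v z ^ (qq v - 1) * rt v z * yt v.2.2 z) +
      (1 - z ^ 2) * (2 * yt v.2.2 z * (v.2.1 ^ 2 * ft v.2.2 z + ht v.2.2 z + z * yt v.2.2 z) *
        qq v * rt v z ^ (qq v - 1) * yt v.2.2 z +
        rt v z ^ (qq v - 1) * rt v z * ((ht v.2.2 z + 2 * z * yt v.2.2 z) / (1 - z ^ 2)))) =
      rt v z ^ (qq v - 1) * (rt v z * (ht v.2.2 z +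
        ((v.2.1 - 1) * (v.1 - 1) + 2) * v.2.1 * ft v.2.2 z) +
      (v.1 - 2) * ((1 - z ^ 2) * yt v.2.2 z ^ 2) *
        (v.2.1 ^ 2 * ft v.2.2 z + ht v.2.2 z + z * yt v.2.2 z)) := by
    unfold qq
    field_simp
    ring
  rw [e, mul_zero] at e3
  exact e3

end

end Pool.Agent.H23R3.PM
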