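import Mathlib

set_option autoImplicit false

namespace Pool.Agent.H23R3.QC

open MeasureTheory Set Filter Topology Real
open scoped ContDiff RealInnerProductSpace

abbrev E := EuclideanSpace ℝ (Fin 4)

noncomputable def bv (i : Fin 4) : E := EuclideanSpace.single i (1 : ℝ)

/-- partial derivative -/
noncomputable def D (i : Fin 4) (f : E → ℝ) (x : E) : ℝ := fderiv ℝ f x (bv i)

/-- bilaplacian as iterated partial derivatives -/
noncomputable def bilap (f : E → ℝ) (x : E) : ℝ :=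
  ∑ i, ∑ j, D i (D i (D j (D j f))) x

lemma contDiff_D {f : E → ℝ} (hf : ContDiff ℝ ∞ f) (i : Fin 4) : ContDiff ℝ ∞ (D i f) := by
  have h : ContDiff ℝ ∞ (fderiv ℝ f) := (contDiff_infty_iff_fderiv.mp hf).2
  exact h.clm_apply contDiff_const

lemma iter_succ {f : E → ℝ} (hf : ContDiff ℝ ∞ f) (n : ℕ) (x : E) (m : Fin (n + 1) → E) :
    iteratedFDeriv ℝ (n + 1) f x m =
      fderiv ℝ (fun y => iteratedFDeriv ℝ n f y (Fin.tail m)) x (m 0) := by
  rw [iteratedFDeriv_succ_apply_left]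
  have hd : DifferentiableAt ℝ (iteratedFDeriv ℝ n f) x :=
    (hf.differentiable_iteratedFDeriv (by exact_mod_cast WithTop.coe_lt_top _)) x
  rw [fderiv_continuousMultilinear_apply_const_apply hd]

lemma iter_one {f : E → ℝ} (x : E) (m : Fin 1 → E) :
    iteratedFDeriv ℝ 1 f x m = fderiv ℝ f x (m 0) := by
  simp [iteratedFDeriv_one_apply]

lemma iter_four {f : E → ℝ} (hf : ContDiff ℝ ∞ f) (x a b c d : E) :
    iteratedFDeriv ℝ 4 f x ![a, b, c, d] =
      fderiv ℝ (fun y => fderiv ℝ (fun y => fderiv ℝ (fun y => fderiv ℝ f y d) y c) y b) x a := by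
  rw [iter_succ hf 3]
  have h3 : ∀ y, iteratedFDeriv ℝ 3 f y (Fin.tail ![a, b, c, d]) =
      fderiv ℝ (fun y => fderiv ℝ (fun y => fderiv ℝ f y d) y c) y b := by
    intro y
    rw [iter_succ hf 2]
    have h2 : ∀ y, iteratedFDeriv ℝ 2 f y (Fin.tail (Fin.tail ![a, b, c, d])) =
        fderiv ℝ (fun y => fderiv ℝ f y d) y c := by
      intro y
      rw [iter_succ hf 1]
      have h1 : ∀ y, iteratedFDeriv ℝ 1 f y (Fin.tail (Fin.tail (Fin.tail ![a, b, c, d]))) =
          fderiv ℝ f y d := by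
        intro y
        rw [iter_one]
        rfl
      simp_rw [h1]
      rfl
    simp_rw [h2]
    rfl
  simp_rw [h3]
  rfl

lemma bilap_eq {f : E → ℝ} (hf : ContDiff ℝ ∞ f) (x : E) :
    ∑ i : Fin 4, ∑ j : Fin 4,
          iteratedFDeriv ℝ 4 f x
            ![(EuclideanSpace.single i (1 : ℝ) : EuclideanSpace ℝ (Fin 4)),
              (EuclideanSpace.single i (1 : ℝ) : EuclideanSpace ℝ (Fin 4)),
              (EuclideanSpace.single j (1 : ℝ) : EuclideanSpace ℝ (Fin 4)),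
              (EuclideanSpace.single j (1 : ℝ) : EuclideanSpace ℝ (Fin 4))] = bilap f x := by
  unfold bilap
  refine Finset.sum_congr rfl fun i _ => Finset.sum_congr rfl fun j _ => ?_
  rw [iter_four hf]
  rfl

/-! ### calculus rules -/

lemma D_add {f g : E → ℝ} (hf : ContDiff ℝ ∞ f) (hg : ContDiff ℝ ∞ g) (i : Fin 4) :
    D i (fun x => f x + g x) = fun x => D i f x + D i g x := by
  ext x
  unfold D
  rw [fderiv_fun_add (hf.differentiable (by simp) x) (hg.differentiable (by simp) x)]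
  rfl

lemma D_const_mul {f : E → ℝ} (hf : ContDiff ℝ ∞ f) (c : ℝ) (i : Fin 4) :
    D i (fun x => c * f x) = fun x => c * D i f x := by
  ext x
  unfold D
  rw [fderiv_const_mul (hf.differentiable (by simp) x)]
  rfl

lemma D_const (c : ℝ) (i : Fin 4) : D i (fun _ : E => c) = fun _ => 0 := by
  ext x
  unfold D
  simp

lemma bilap_add {f g : E → ℝ} (hf : ContDiff ℝ ∞ f) (hg : ContDiff ℝ ∞ g) :
    bilap (fun x => f x + g x) = fun x => bilap f x + bilap g x := by
  ext x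
  unfold bilap
  rw [← Finset.sum_add_distrib]
  refine Finset.sum_congr rfl fun i _ => ?_
  rw [← Finset.sum_add_distrib]
  refine Finset.sum_congr rfl fun j _ => ?_
  rw [D_add hf hg, D_add (contDiff_D hf j) (contDiff_D hg j),
    D_add (contDiff_D (contDiff_D hf j) j) (contDiff_D (contDiff_D hg j) j),
    D_add (contDiff_D (contDiff_D (contDiff_D hf j) j) i)
      (contDiff_D (contDiff_D (contDiff_D hg j) j) i)]

lemma bilap_const_mul {f : E → ℝ} (hf : ContDiff ℝ ∞ f) (c : ℝ) :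
    bilap (fun x => c * f x) = fun x => c * bilap f x := by
  ext x
  unfold bilap
  rw [Finset.mul_sum]
  refine Finset.sum_congr rfl fun i _ => ?_
  rw [Finset.mul_sum]
  refine Finset.sum_congr rfl fun j _ => ?_
  rw [D_const_mul hf, D_const_mul (contDiff_D hf j),
    D_const_mul (contDiff_D (contDiff_D hf j) j),
    D_const_mul (contDiff_D (contDiff_D (contDiff_D hf j) j) i)]

lemma bilap_const (c : ℝ) : bilap (fun _ => c) = fun _ => 0 := by
  ext x
  unfold bilap
  simp [D_const]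

lemma D_comp_sub (f : E → ℝ) (p : E) (i : Fin 4) :
    D i (fun x => f (x - p)) = fun x => D i f (x - p) := by
  ext x
  unfold D
  have : (fun x => f (x - p)) = fun x => f (x + -p) := by
    ext x; rw [sub_eq_add_neg]
  rw [this, fderiv_comp_add_right, sub_eq_add_neg]

lemma bilap_comp_sub (f : E → ℝ) (p : E) :
    bilap (fun x => f (x - p)) = fun x => bilap f (x - p) := by
  ext x
  unfold bilap
  refine Finset.sum_congr rfl fun i _ => Finset.sum_congr rfl fun j _ => ?_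
  rw [D_comp_sub, D_comp_sub, D_comp_sub, D_comp_sub]

/-! ### the functions `w`, `Wp`, `Lg` -/

noncomputable def w (η : ℝ) (x : E) : ℝ := η ^ 2 + ‖x‖ ^ 2

lemma w_pos {η : ℝ} (hη : 0 < η) (x : E) : 0 < w η x := by
  unfold w; positivity

lemma contDiff_w (η : ℝ) : ContDiff ℝ ∞ (w η) := by
  unfold w
  exact contDiff_const.add (contDiff_norm_sq ℝ)

lemma contDiff_coord (i : Fin 4) : ContDiff ℝ ∞ (fun x : E => x i) := by
  exact (EuclideanSpace.proj (𝕜 := ℝ) i).contDiff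

lemma inner_bv (x : E) (i : Fin 4) : inner ℝ x (bv i) = x i := by
  unfold bv
  rw [EuclideanSpace.inner_single_right]
  simp

lemma hasFDerivAt_w (η : ℝ) (x : E) : HasFDerivAt (w η) (2 • innerSL ℝ x) x := by
  have := (hasStrictFDerivAt_norm_sq x).hasFDerivAt
  unfold w
  exact this.const_add (η ^ 2)

lemma D_w (η : ℝ) (i : Fin 4) (x : E) : D i (w η) x = 2 * x i := by
  unfold D
  rw [(hasFDerivAt_w η x).fderiv]
  have := inner_bv x i
  simp only [ContinuousLinearMap.smul_apply, innerSL_apply_apply, this]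
  simp

lemma D_coord (i j : Fin 4) (x : E) : D i (fun x : E => x j) x = if i = j then 1 else 0 := by
  unfold D
  have h : HasFDerivAt (fun x : E => x j) (EuclideanSpace.proj (𝕜 := ℝ) j) x :=
    (EuclideanSpace.proj (𝕜 := ℝ) j).hasFDerivAt
  rw [h.fderiv]
  simp [bv, eq_comm]

lemma D_mul {f g : E → ℝ} (hf : ContDiff ℝ ∞ f) (hg : ContDiff ℝ ∞ g) (i : Fin 4) (x : E) :
    D i (fun x => f x * g x) x = f x * D i g x + D i f x * g x := by
  unfold D
  rw [fderiv_fun_mul (hf.differentiable (by simp) x) (hg.differentiable (by simp) x)]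
  simp [mul_comm]

lemma D_comp_w {φ : ℝ → ℝ} {φ' : ℝ} {η : ℝ} {x : E} (h : HasDerivAt φ φ' (w η x)) (i : Fin 4) :
    D i (fun x => φ (w η x)) x = φ' * (2 * x i) := by
  unfold D
  have h1 := h.comp_hasFDerivAt x (hasFDerivAt_w η x)
  have h2 : HasFDerivAt (fun x => φ (w η x)) (φ' • (2 • innerSL ℝ x)) x := h1
  rw [h2.fderiv]
  have := inner_bv x i
  simp only [ContinuousLinearMap.smul_apply, innerSL_apply_apply, this]
  simp

/-- `w^{-m}` -/
noncomputable def Wp (η : ℝ) (m : ℕ) (x : E) : ℝ := ((w η x) ^ m)⁻¹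

noncomputable def Lg (η : ℝ) (x : E) : ℝ := Real.log (w η x)

lemma contDiff_Wp {η : ℝ} (hη : 0 < η) (m : ℕ) : ContDiff ℝ ∞ (Wp η m) := by
  unfold Wp
  exact ((contDiff_w η).pow m).inv (fun x => (pow_pos (w_pos hη x) m).ne')

lemma contDiff_Lg {η : ℝ} (hη : 0 < η) : ContDiff ℝ ∞ (Lg η) := by
  unfold Lg
  exact (contDiff_w η).log (fun x => (w_pos hη x).ne')

lemma D_Wp {η : ℝ} (hη : 0 < η) (m : ℕ) (i : Fin 4) (x : E) :
    D i (Wp η m) x = -(2 * m) * x i * Wp η (m + 1) x := by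
  have hw := w_pos hη x
  have h : HasDerivAt (fun y : ℝ => (y ^ m)⁻¹) (-(m * w η x ^ (m - 1)) / ((w η x) ^ m) ^ 2)
      (w η x) := (hasDerivAt_pow m (w η x)).inv (pow_pos hw m).ne'
  have := D_comp_w h i
  unfold Wp
  rw [this]
  rcases m with _ | m
  · simp
  · have h1 : m + 1 - 1 = m := rfl
    rw [h1]
    push_cast
    field_simp
    try ring

lemma D_Lg {η : ℝ} (hη : 0 < η) (i : Fin 4) (x : E) :
    D i (Lg η) x = 2 * x i * Wp η 1 x := by
  have hw := w_pos hη x
  have h := Real.hasDerivAt_log hw.ne'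
  have := D_comp_w h i
  unfold Lg Wp
  rw [this]
  ring

lemma DD_Wp {η : ℝ} (hη : 0 < η) (m : ℕ) (i : Fin 4) (x : E) :
    D i (D i (Wp η m)) x =
      -(2 * m) * Wp η (m + 1) x + 4 * m * (m + 1) * x i ^ 2 * Wp η (m + 2) x := by
  have e : D i (Wp η m) = fun x => (-(2 * m) * x i) * Wp η (m + 1) x := by
    ext x; exact D_Wp hη m i x
  rw [e, D_mul (contDiff_const.mul (contDiff_coord i)) (contDiff_Wp hη (m + 1)), D_Wp hη]
  have e2 : D i (fun x : E => -(2 * (m : ℝ)) * x i) x = -(2 * m) := by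
    rw [D_const_mul (contDiff_coord i)]
    simp only
    rw [D_coord]; simp
  rw [e2]
  push_cast
  ring

lemma DD_Lg {η : ℝ} (hη : 0 < η) (i : Fin 4) (x : E) :
    D i (D i (Lg η)) x = 2 * Wp η 1 x - 4 * x i ^ 2 * Wp η 2 x := by
  have e : D i (Lg η) = fun x => (2 * x i) * Wp η 1 x := by
    ext x; exact D_Lg hη i x
  rw [e, D_mul (contDiff_const.mul (contDiff_coord i)) (contDiff_Wp hη 1), D_Wp hη]
  have e2 : D i (fun x : E => 2 * x i) x = 2 := by
    rw [D_const_mul (contDiff_coord i)]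
    simp only
    rw [D_coord]; simp
  rw [e2]
  push_cast
  ring

lemma norm_sq_eq (x : E) : ‖x‖ ^ 2 = ∑ i, x i ^ 2 := by
  rw [EuclideanSpace.norm_sq_eq]
  simp

lemma D_sum {f : Fin 4 → E → ℝ} (hf : ∀ j, ContDiff ℝ ∞ (f j)) (i : Fin 4) :
    D i (fun x => ∑ j, f j x) = fun x => ∑ j, D i (f j) x := by
  ext x
  unfold D
  rw [fderiv_fun_sum (fun j _ => (hf j).differentiable (by simp) x)]
  simp

lemma bilap_eq_lap {f : E → ℝ} (hf : ContDiff ℝ ∞ f) (x : E) :
    bilap f x = ∑ i, D i (D i (fun x => ∑ j, D j (D j f) x)) x := by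
  unfold bilap
  refine Finset.sum_congr rfl fun i _ => ?_
  rw [D_sum (fun j => contDiff_D (contDiff_D hf j) j),
    D_sum (fun j => contDiff_D (contDiff_D (contDiff_D hf j) j) i)]

lemma lap_Lg {η : ℝ} (hη : 0 < η) (x : E) :
    ∑ j, D j (D j (Lg η)) x = 4 * Wp η 1 x + 4 * η ^ 2 * Wp η 2 x := by
  have hs : ∑ j : Fin 4, D j (D j (Lg η)) x = 8 * Wp η 1 x - 4 * ‖x‖ ^ 2 * Wp η 2 x := by
    simp_rw [DD_Lg hη, norm_sq_eq, Fin.sum_univ_four]
    ring
  rw [hs]
  have hw := w_pos hη x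
  have hn : ‖x‖ ^ 2 = w η x - η ^ 2 := by unfold w; ring
  rw [hn]
  unfold Wp
  simp
  field_simp
  ring

lemma lap_Wp {η : ℝ} (hη : 0 < η) (m : ℕ) (x : E) :
    ∑ j, D j (D j (Wp η m)) x =
      4 * m * (m - 1) * Wp η (m + 1) x - 4 * m * (m + 1) * η ^ 2 * Wp η (m + 2) x := by
  have hs : ∑ j : Fin 4, D j (D j (Wp η m)) x =
      -(8 * m) * Wp η (m + 1) x + 4 * m * (m + 1) * ‖x‖ ^ 2 * Wp η (m + 2) x := by
    simp_rw [DD_Wp hη, norm_sq_eq, Fin.sum_univ_four]
    ring
  rw [hs]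
  have hw := w_pos hη x
  have hn : ‖x‖ ^ 2 = w η x - η ^ 2 := by unfold w; ring
  rw [hn]
  unfold Wp
  simp
  field_simp
  ring

/-- `Δ² log(η²+|x|²) = -96 η⁴/(η²+|x|²)⁴` -/
lemma bilap_Lg {η : ℝ} (hη : 0 < η) (x : E) :
    bilap (Lg η) x = -96 * η ^ 4 * Wp η 4 x := by
  rw [bilap_eq_lap (contDiff_Lg hη)]
  have e : (fun x => ∑ j, D j (D j (Lg η)) x) =
      fun x => 4 * Wp η 1 x + (4 * η ^ 2) * Wp η 2 x := by
    ext x; exact lap_Lg hη x
  rw [e]
  have e2 : ∀ i, D i (D i (fun x => 4 * Wp η 1 x + (4 * η ^ 2) * Wp η 2 x)) =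
      fun x => 4 * D i (D i (Wp η 1)) x + (4 * η ^ 2) * D i (D i (Wp η 2)) x := by
    intro i
    rw [D_add (contDiff_const.mul (contDiff_Wp hη 1)) (contDiff_const.mul (contDiff_Wp hη 2)),
      D_const_mul (contDiff_Wp hη 1), D_const_mul (contDiff_Wp hη 2),
      D_add (contDiff_const.mul (contDiff_D (contDiff_Wp hη 1) i))
        (contDiff_const.mul (contDiff_D (contDiff_Wp hη 2) i)),
      D_const_mul (contDiff_D (contDiff_Wp hη 1) i),
      D_const_mul (contDiff_D (contDiff_Wp hη 2) i)]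
  simp_rw [e2]
  rw [Finset.sum_add_distrib, ← Finset.mul_sum, ← Finset.mul_sum, lap_Wp hη, lap_Wp hη]
  push_cast
  ring

lemma bilap_norm_sq (x : E) : bilap (fun x : E => ‖x‖ ^ 2) x = 0 := by
  have h0 : (fun x : E => ‖x‖ ^ 2) = w 0 := by
    ext x; unfold w; ring
  rw [h0, bilap_eq_lap (contDiff_w 0)]
  have e : (fun x => ∑ j, D j (D j (w 0)) x) = fun _ => 8 := by
    ext x
    have e1 : ∀ j, D j (w 0) = fun x => 2 * x j := by
      intro j; ext x; exact D_w 0 j x
    simp_rw [e1]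
    have e2 : ∀ j, D j (fun x : E => 2 * x j) x = 2 := by
      intro j
      rw [D_const_mul (contDiff_coord j)]
      simp only
      rw [D_coord]; simp
    simp_rw [e2]
    simp
    norm_num
  rw [e]
  simp [D_const]

end Pool.Agent.H23R3.QC
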