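import Pool.Agent.H23R3.QRad

set_option autoImplicit false

namespace Pool.Agent.H23R3.QC

open MeasureTheory Set Filter Topology Real Metric
open scoped ContDiff

/-- `ε² + 4 a²` -/
noncomputable def Dn (ε : ℝ) (p : E) : ℝ := ε ^ 2 + 4 * ‖p‖ ^ 2

noncomputable def vv (ε : ℝ) (p x : E) : ℝ :=
  -Lg ε (x - p) + -Lg ε (x + p) + (2 / Dn ε p) * ‖x‖ ^ 2 +
    (Real.log (2 * ε * Dn ε p) - (2 / Dn ε p) * ‖p‖ ^ 2)

noncomputable def zz (ε : ℝ) (p x : E) : ℝ :=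
  (4 * inner ℝ p (x - p) + ‖x - p‖ ^ 2) / Dn ε p

noncomputable def GG (ε : ℝ) (p x : E) : ℝ :=
  (rexp (zz ε p x) / (1 + zz ε p x)) ^ 4 * rexp (4 * (‖x - p‖ ^ 2 / Dn ε p))

section
variable {ε : ℝ} {p x : E}

lemma Dn_pos (hε : 0 < ε) : 0 < Dn ε p := by unfold Dn; positivity

lemma w_add_eq (hε : 0 < ε) : w ε (x + p) = Dn ε p * (1 + zz ε p x) := by
  have hD := Dn_pos (p := p) hε
  unfold zz
  have h1 : Dn ε p * (1 + (4 * inner ℝ p (x - p) + ‖x - p‖ ^ 2) / Dn ε p) =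
      Dn ε p + (4 * inner ℝ p (x - p) + ‖x - p‖ ^ 2) := by
    field_simp
  rw [h1]
  unfold w Dn
  have h2 : x + p = (x - p) + (2 : ℝ) • p := by
    rw [two_smul]; abel
  rw [h2, @norm_add_sq_real, norm_smul, inner_smul_right, real_inner_comm]
  norm_num
  ring

lemma one_add_zz_pos (hε : 0 < ε) : 0 < 1 + zz ε p x := by
  have h := w_add_eq (p := p) (x := x) hε
  have hw := w_pos hε (x + p)
  have hD := Dn_pos (p := p) hε
  rw [h] at hw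
  exact (pos_iff_pos_of_mul_pos hw).mp hD

lemma norm_sq_sub (hε : 0 < ε) :
    (2 / Dn ε p) * ‖x‖ ^ 2 - (2 / Dn ε p) * ‖p‖ ^ 2 = zz ε p x + ‖x - p‖ ^ 2 / Dn ε p := by
  have hD := Dn_pos (p := p) hε
  have h1 : ‖x‖ ^ 2 = ‖x - p‖ ^ 2 + 2 * inner ℝ p (x - p) + ‖p‖ ^ 2 := by
    have h2 : x = (x - p) + p := by abel
    conv_lhs => rw [h2]
    rw [@norm_add_sq_real, real_inner_comm]
  rw [h1]
  unfold zz
  field_simp
  ring

lemma exp4v (hε : 0 < ε) : rexp (4 * vv ε p x) = 16 * B ε (x - p) * GG ε p x := by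
  have hD := Dn_pos (p := p) hε
  have hw := w_pos hε (x - p)
  have hw2 := w_pos hε (x + p)
  have hz := one_add_zz_pos (p := p) (x := x) hε
  have e1 : 4 * vv ε p x = -(4 * Real.log (w ε (x - p))) + -(4 * Real.log (w ε (x + p))) +
      4 * Real.log (2 * ε * Dn ε p) + 4 * (zz ε p x + ‖x - p‖ ^ 2 / Dn ε p) := by
    rw [← norm_sq_sub hε]
    unfold vv Lg
    ring
  have e2 : ∀ t : ℝ, 0 < t → rexp (4 * Real.log t) = t ^ 4 := by
    intro t ht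
    have : 4 * Real.log t = Real.log (t ^ 4) := by
      rw [Real.log_pow]; norm_num
    rw [this, Real.exp_log (by positivity)]
  rw [e1, Real.exp_add, Real.exp_add, Real.exp_add, Real.exp_neg, Real.exp_neg, e2 _ hw, e2 _ hw2,
    e2 _ (by positivity), mul_add, Real.exp_add, w_add_eq hε]
  unfold B GG Wp
  have e3 : rexp (4 * zz ε p x) = rexp (zz ε p x) ^ 4 := by
    rw [← Real.exp_nat_mul]; norm_num
  rw [e3]
  field_simp
  ring

lemma GG_ge_one (hε : 0 < ε) : 1 ≤ GG ε p x := by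
  have hz := one_add_zz_pos (p := p) (x := x) hε
  have hD := Dn_pos (p := p) hε
  unfold GG
  have h1 : 1 ≤ rexp (zz ε p x) / (1 + zz ε p x) := by
    rw [le_div_iff₀ hz, one_mul]
    have := Real.add_one_le_exp (zz ε p x)
    linarith
  have h2 : 1 ≤ rexp (4 * (‖x - p‖ ^ 2 / Dn ε p)) := Real.one_le_exp (by positivity)
  have h3 := one_le_pow₀ h1 (n := 4)
  nlinarith

noncomputable def CG (a : ℝ) : ℝ := 24 / a ^ 4 * rexp (216 / a ^ 4)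

lemma CG_pos {a : ℝ} (ha : 0 < a) : 0 < CG a := by unfold CG; positivity

lemma norm_add_ge (hx : 0 ≤ inner ℝ x p) : ‖p‖ ≤ ‖x + p‖ := by
  have : ‖p‖ ^ 2 ≤ ‖x + p‖ ^ 2 := by
    rw [@norm_add_sq_real]
    nlinarith [sq_nonneg ‖x‖]
  exact le_of_sq_le_sq this (norm_nonneg _) 

lemma GG_le (hε : 0 < ε) (hεa : ε ≤ ‖p‖) (ha : ‖p‖ ≤ 1 / 4) (hx : ‖x‖ ≤ 2)
    (hxp : 0 ≤ inner ℝ x p) : GG ε p x ≤ 1 + CG ‖p‖ * ‖x - p‖ ^ 2 := by
  have hz := one_add_zz_pos (p := p) (x := x) hε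
  have hD := Dn_pos (p := p) hε
  set a := ‖p‖ with hadef
  have ha0 : 0 < a := lt_of_lt_of_le hε hεa
  set y := x - p with hy
  have hyn : ‖y‖ ≤ 3 := by
    have := norm_sub_le x p
    rw [← hadef] at this
    linarith
  have hD1 : 4 * a ^ 2 ≤ Dn ε p := by unfold Dn; nlinarith [sq_nonneg ε]
  have hD2 : Dn ε p ≤ 5 * a ^ 2 := by unfold Dn; nlinarith [pow_le_pow_left₀ hε.le hεa 2]
  have h1 : 1 / 5 ≤ 1 + zz ε p x := by
    have e := w_add_eq (p := p) (x := x) hε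
    have h2 : a ^ 2 ≤ w ε (x + p) := by
      unfold w
      have h3 := norm_add_ge hxp
      have h4 := pow_le_pow_left₀ (norm_nonneg p) h3 2
      nlinarith [sq_nonneg ε]
    rw [e] at h2
    by_contra hc
    push Not at hc
    have : Dn ε p * (1 + zz ε p x) < 5 * a ^ 2 * (1 / 5) := by
      calc Dn ε p * (1 + zz ε p x) ≤ 5 * a ^ 2 * (1 + zz ε p x) := by gcongr
        _ < 5 * a ^ 2 * (1 / 5) := by
          apply mul_lt_mul_of_pos_left hc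
          positivity
    linarith
  have h2 : |zz ε p x| ≤ ‖y‖ / a ^ 2 := by
    unfold zz
    rw [abs_div, abs_of_pos hD, div_le_div_iff₀ hD (by positivity)]
    have h3 : |4 * inner ℝ p (x - p) + ‖x - p‖ ^ 2| ≤ 4 * (a * ‖y‖) + ‖y‖ ^ 2 := by
      have := abs_real_inner_le_norm p (x - p)
      calc |4 * inner ℝ p (x - p) + ‖x - p‖ ^ 2| ≤ |4 * inner ℝ p (x - p)| + |‖x - p‖ ^ 2| :=
            abs_add_le _ _
        _ ≤ 4 * (a * ‖y‖) + ‖y‖ ^ 2 := by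
            rw [abs_mul, abs_of_pos (by norm_num : (0 : ℝ) < 4),
              abs_of_nonneg (sq_nonneg ‖x - p‖)]
            gcongr
    have h4 : 4 * (a * ‖y‖) + ‖y‖ ^ 2 ≤ 4 * ‖y‖ := by
      nlinarith [norm_nonneg y]
    calc |4 * inner ℝ p (x - p) + ‖x - p‖ ^ 2| * a ^ 2 ≤ (4 * ‖y‖) * a ^ 2 := by
          gcongr
          exact h3.trans h4
      _ = ‖y‖ * (4 * a ^ 2) := by ring
      _ ≤ ‖y‖ * Dn ε p := by gcongr
  -- log form
  have h5 : zz ε p x - Real.log (1 + zz ε p x) ≤ 5 * (‖y‖ ^ 2 / a ^ 4) := by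
    have h6 := Real.one_sub_inv_le_log_of_pos hz
    have h7 : zz ε p x - Real.log (1 + zz ε p x) ≤ zz ε p x ^ 2 / (1 + zz ε p x) := by
      have : zz ε p x ^ 2 / (1 + zz ε p x) = zz ε p x - (1 - (1 + zz ε p x)⁻¹) := by
        field_simp
        ring
      rw [this]
      linarith
    have h8 : zz ε p x ^ 2 ≤ (‖y‖ / a ^ 2) ^ 2 := by
      rw [← sq_abs]
      exact pow_le_pow_left₀ (abs_nonneg _) h2 2
    calc zz ε p x - Real.log (1 + zz ε p x) ≤ zz ε p x ^ 2 / (1 + zz ε p x) := h7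
      _ ≤ (‖y‖ / a ^ 2) ^ 2 / (1 / 5) := by gcongr
      _ = 5 * (‖y‖ ^ 2 / a ^ 4) := by field_simp
  have h9 : ‖y‖ ^ 2 / Dn ε p ≤ ‖y‖ ^ 2 / a ^ 4 := by
    gcongr
    calc a ^ 4 = a ^ 2 * a ^ 2 := by ring
      _ ≤ 4 * a ^ 2 := by
        gcongr
        nlinarith
      _ ≤ Dn ε p := hD1
  have h10 : GG ε p x = rexp (4 * (zz ε p x - Real.log (1 + zz ε p x) + ‖y‖ ^ 2 / Dn ε p)) := by
    unfold GG
    rw [mul_add, Real.exp_add]
    congr 1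
    rw [show 4 * (zz ε p x - Real.log (1 + zz ε p x)) =
      (4 : ℕ) * (zz ε p x - Real.log (1 + zz ε p x)) by norm_num, Real.exp_nat_mul, Real.exp_sub,
      Real.exp_log hz]
  set s := 24 * (‖y‖ ^ 2 / a ^ 4) with hs
  have hs0 : 0 ≤ s := by positivity
  have h11 : GG ε p x ≤ rexp s := by
    rw [h10]
    apply Real.exp_le_exp.mpr
    rw [hs]
    linarith
  have h12 : s ≤ 216 / a ^ 4 := by
    rw [hs, ← mul_div_assoc]
    gcongr
    nlinarith [norm_nonneg y]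
  have h13 : rexp s ≤ 1 + s * rexp s := by
    have h14 := Real.add_one_le_exp (-s)
    have h15 : rexp (-s) * rexp s = 1 := by rw [← Real.exp_add]; simp
    nlinarith [Real.exp_pos s]
  calc GG ε p x ≤ rexp s := h11
    _ ≤ 1 + s * rexp s := h13
    _ ≤ 1 + s * rexp (216 / a ^ 4) := by gcongr
    _ = 1 + CG a * ‖y‖ ^ 2 := by
        unfold CG
        rw [hs]
        ring

lemma vv_neg : vv ε (-p) x = vv ε p x := by
  unfold vv Dn
  have h : x + -p = x - p := by abel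
  rw [sub_neg_eq_add, norm_neg, h]
  ring

lemma B_le_of_norm {a : ℝ} (hε : 0 < ε) (ha : 0 < a) {y : E} (h : a ≤ ‖y‖) :
    B ε y ≤ ε ^ 4 / a ^ 8 := by
  unfold B Wp
  rw [div_eq_mul_inv]
  gcongr
  have : a ^ 2 ≤ w ε y := by
    unfold w
    nlinarith [pow_le_pow_left₀ ha.le h 2, sq_nonneg ε]
  calc a ^ 8 = (a ^ 2) ^ 4 := by ring
    _ ≤ w ε y ^ 4 := by gcongr

noncomputable def sg (ε : ℝ) (p x : E) : ℝ :=
  6 * rexp (4 * vv ε p x) - 96 * B ε (x - p) - 96 * B ε (x + p)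

lemma sg_neg : sg ε (-p) x = sg ε p x := by
  unfold sg
  have h : x + -p = x - p := by abel
  rw [vv_neg, sub_neg_eq_add, h]
  ring

lemma sg_bound_aux (hε : 0 < ε) (hεa : ε ≤ ‖p‖) (ha : ‖p‖ ≤ 1 / 4) (hx : ‖x‖ ≤ 2)
    (hxp : 0 ≤ inner ℝ x p) :
    |sg ε p x| ≤ 96 * CG ‖p‖ * (B ε (x - p) * ‖x - p‖ ^ 2 + B ε (x + p) * ‖x + p‖ ^ 2) +
      96 * (ε ^ 4 / ‖p‖ ^ 8) := by
  have ha0 : 0 < ‖p‖ := lt_of_lt_of_le hε hεa
  have h1 := GG_le hε hεa ha hx hxp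
  have h2 := GG_ge_one (p := p) (x := x) hε
  have h3 := B_le_of_norm hε ha0 (norm_add_ge hxp)
  have hB1 := B_pos hε (x - p)
  have hB2 := B_pos hε (x + p)
  have hC := CG_pos ha0
  have e : sg ε p x = 96 * B ε (x - p) * (GG ε p x - 1) - 96 * B ε (x + p) := by
    unfold sg
    rw [exp4v hε]
    ring
  rw [e]
  have h4 : |96 * B ε (x - p) * (GG ε p x - 1) - 96 * B ε (x + p)| ≤
      96 * B ε (x - p) * (GG ε p x - 1) + 96 * B ε (x + p) := by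
    rw [abs_le]
    have h5 : 0 ≤ 96 * B ε (x - p) * (GG ε p x - 1) := by
      apply mul_nonneg (by positivity)
      linarith
    constructor <;> linarith
  have h6 : 96 * B ε (x - p) * (GG ε p x - 1) ≤ 96 * B ε (x - p) * (CG ‖p‖ * ‖x - p‖ ^ 2) := by
    gcongr
    linarith
  have h7 : 0 ≤ 96 * CG ‖p‖ * (B ε (x + p) * ‖x + p‖ ^ 2) := by positivity
  nlinarith

lemma sg_bound (hε : 0 < ε) (hεa : ε ≤ ‖p‖) (ha : ‖p‖ ≤ 1 / 4) (hx : ‖x‖ ≤ 2) :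
    |sg ε p x| ≤ 96 * CG ‖p‖ * (B ε (x - p) * ‖x - p‖ ^ 2 + B ε (x + p) * ‖x + p‖ ^ 2) +
      96 * (ε ^ 4 / ‖p‖ ^ 8) := by
  rcases le_total 0 (inner ℝ x p) with h | h
  · exact sg_bound_aux hε hεa ha hx h
  · have h' : 0 ≤ inner ℝ x (-p) := by rw [inner_neg_right]; linarith
    have := sg_bound_aux (p := -p) hε (by rwa [norm_neg]) (by rwa [norm_neg]) hx h'
    rw [sg_neg, norm_neg, sub_neg_eq_add, show x + -p = x - p by abel] at this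
    linarith

lemma exp4v_le_aux (hε : 0 < ε) (hεa : ε ≤ ‖p‖) (ha : ‖p‖ ≤ 1 / 4) (hx : ‖x‖ ≤ 2)
    (hxp : 0 ≤ inner ℝ x p) :
    rexp (4 * vv ε p x) ≤ 16 * (B ε (x - p) + CG ‖p‖ * (B ε (x - p) * ‖x - p‖ ^ 2)) := by
  have h1 := GG_le hε hεa ha hx hxp
  have hB1 := B_pos hε (x - p)
  rw [exp4v hε]
  calc 16 * B ε (x - p) * GG ε p x ≤ 16 * B ε (x - p) * (1 + CG ‖p‖ * ‖x - p‖ ^ 2) := by gcongr
    _ = _ := by ring

lemma exp4v_le (hε : 0 < ε) (hεa : ε ≤ ‖p‖) (ha : ‖p‖ ≤ 1 / 4) (hx : ‖x‖ ≤ 2) :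
    rexp (4 * vv ε p x) ≤ 16 * (B ε (x - p) + CG ‖p‖ * (B ε (x - p) * ‖x - p‖ ^ 2)) +
      16 * (B ε (x + p) + CG ‖p‖ * (B ε (x + p) * ‖x + p‖ ^ 2)) := by
  have ha0 : 0 < ‖p‖ := lt_of_lt_of_le hε hεa
  have hC := CG_pos ha0
  have hB1 := B_pos hε (x - p)
  have hB2 := B_pos hε (x + p)
  rcases le_total 0 (inner ℝ x p) with h | h
  · have := exp4v_le_aux hε hεa ha hx h
    have h2 : 0 ≤ 16 * (B ε (x + p) + CG ‖p‖ * (B ε (x + p) * ‖x + p‖ ^ 2)) := by positivity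
    linarith
  · have h' : 0 ≤ inner ℝ x (-p) := by rw [inner_neg_right]; linarith
    have := exp4v_le_aux (p := -p) hε (by rwa [norm_neg]) (by rwa [norm_neg]) hx h'
    rw [vv_neg, norm_neg, sub_neg_eq_add] at this
    have h2 : 0 ≤ 16 * (B ε (x - p) + CG ‖p‖ * (B ε (x - p) * ‖x - p‖ ^ 2)) := by positivity
    linarith

lemma exp4v_far_aux (hε : 0 < ε) (hεa : ε ≤ ‖p‖) (ha : ‖p‖ ≤ 1 / 4) (hx : ‖x‖ ≤ 2)
    (hx2 : 2 * ‖p‖ ≤ ‖x‖) (hxp : 0 ≤ inner ℝ x p) :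
    rexp (4 * vv ε p x) ≤ 16 * (1 + 9 * CG ‖p‖) * (ε ^ 4 / ‖p‖ ^ 8) := by
  have ha0 : 0 < ‖p‖ := lt_of_lt_of_le hε hεa
  have hC := CG_pos ha0
  have h1 := exp4v_le_aux hε hεa ha hx hxp
  have h2 : ‖p‖ ≤ ‖x - p‖ := by
    have := norm_sub_norm_le x p
    linarith
  have h3 : ‖x - p‖ ≤ 3 := by
    have := norm_sub_le x p
    linarith
  have h4 := B_le_of_norm hε ha0 h2
  have hB1 := B_pos hε (x - p)
  have h5 : ‖x - p‖ ^ 2 ≤ 9 := by nlinarith [norm_nonneg (x - p)]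
  calc rexp (4 * vv ε p x) ≤ 16 * (B ε (x - p) + CG ‖p‖ * (B ε (x - p) * ‖x - p‖ ^ 2)) := h1
    _ ≤ 16 * ((ε ^ 4 / ‖p‖ ^ 8) + CG ‖p‖ * ((ε ^ 4 / ‖p‖ ^ 8) * 9)) := by gcongr
    _ = _ := by ring

lemma exp4v_far (hε : 0 < ε) (hεa : ε ≤ ‖p‖) (ha : ‖p‖ ≤ 1 / 4) (hx : ‖x‖ ≤ 2)
    (hx2 : 2 * ‖p‖ ≤ ‖x‖) :
    rexp (4 * vv ε p x) ≤ 16 * (1 + 9 * CG ‖p‖) * (ε ^ 4 / ‖p‖ ^ 8) := by
  rcases le_total 0 (inner ℝ x p) with h | h
  · exact exp4v_far_aux hε hεa ha hx hx2 h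
  · have h' : 0 ≤ inner ℝ x (-p) := by rw [inner_neg_right]; linarith
    have := exp4v_far_aux (p := -p) hε (by rwa [norm_neg]) (by rwa [norm_neg]) hx
      (by rwa [norm_neg]) h'
    rwa [vv_neg, norm_neg] at this

lemma exp4v_ge (hε : 0 < ε) : 16 * B ε (x - p) ≤ rexp (4 * vv ε p x) := by
  have h2 := GG_ge_one (p := p) (x := x) hε
  have hB1 := B_pos hε (x - p)
  rw [exp4v hε]
  nlinarith

lemma exp4v_ge' (hε : 0 < ε) : 16 * B ε (x + p) ≤ rexp (4 * vv ε p x) := by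
  have := exp4v_ge (p := -p) (x := x) hε
  rwa [sub_neg_eq_add, vv_neg] at this

end

end Pool.Agent.H23R3.QC
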