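import Pool.Agent.H23R3.QMain

set_option autoImplicit false

namespace Pool.Agent.H23R3.QC

open MeasureTheory Set Filter Topology Real Metric
open scoped ContDiff

theorem final :
    ∃ (Ω : Set (EuclideanSpace ℝ (Fin 4)))
      (Q : ℕ → EuclideanSpace ℝ (Fin 4) → ℝ)
      (Q₀ : EuclideanSpace ℝ (Fin 4) → ℝ)
      (u : ℕ → EuclideanSpace ℝ (Fin 4) → ℝ),
      IsOpen Ω ∧ IsConnected Ω ∧
      (∀ k, ContDiffOn ℝ 1 (Q k) Ω) ∧ ContDiffOn ℝ 1 Q₀ Ω ∧
      (∀ K ⊆ Ω, IsCompact K →
        TendstoUniformlyOn Q Q₀ atTop K ∧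
        TendstoUniformlyOn (fun k => fderiv ℝ (Q k)) (fderiv ℝ Q₀) atTop K) ∧
      (∀ x ∈ Ω, 0 < Q₀ x) ∧
      (∀ k, ContDiffOn ℝ 4 (u k) Ω) ∧
      (∀ k, ∀ x ∈ Ω,
        ∑ i : Fin 4, ∑ j : Fin 4,
          iteratedFDeriv ℝ 4 (u k) x
            ![(EuclideanSpace.single i (1 : ℝ) : EuclideanSpace ℝ (Fin 4)),
              (EuclideanSpace.single i (1 : ℝ) : EuclideanSpace ℝ (Fin 4)),
              (EuclideanSpace.single j (1 : ℝ) : EuclideanSpace ℝ (Fin 4)),
              (EuclideanSpace.single j (1 : ℝ) : EuclideanSpace ℝ (Fin 4))]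
          = Q k x * Real.exp (4 * u k x)) ∧
      (∃ C : ℝ, ∀ᶠ k in atTop,
        ∫⁻ x in Ω, ENNReal.ofReal (Real.exp (4 * u k x)) ≤ ENNReal.ofReal C) ∧
      ∃ x₀ ∈ Ω, ∃ α : ℝ, 16 * π ^ 2 < α ∧
        Tendsto (fun R : ℝ => liminf (fun k : ℕ =>
            ∫⁻ x in Ω ∩ Metric.ball x₀ R,
              ENNReal.ofReal (|Q k x| * Real.exp (4 * u k x))) atTop)
          (𝓝[>] 0) (𝓝 (ENNReal.ofReal α)) ∧
        Tendsto (fun R : ℝ => limsup (fun k : ℕ =>
            ∫⁻ x in Ω ∩ Metric.ball x₀ R,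
              ENNReal.ofReal (|Q k x| * Real.exp (4 * u k x))) atTop)
          (𝓝[>] 0) (𝓝 (ENNReal.ofReal α)) := by
  set d : ℕ → ℝ := fun k => 1 / ((k : ℝ) + 4) with hd
  have hd0 : ∀ k, 0 < d k := fun k => by simp only [hd]; positivity
  have hd4 : ∀ k, d k ≤ 1 / 4 := fun k => by
    simp only [hd]
    apply one_div_le_one_div_of_le (by norm_num)
    have : (0 : ℝ) ≤ k := Nat.cast_nonneg k
    linarith
  have hdlim : Tendsto d atTop (𝓝 0) := by
    simp only [hd]
    refine Tendsto.div_atTop tendsto_const_nhds ?_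
    exact tendsto_atTop_add_const_right _ _ tendsto_natCast_atTop_atTop
  choose u Q hu hQ hbil hQ6 hQ' hvol hfar hlow using fun k => main_step (d k) (hd0 k) (hd4 k)
  -- masses
  set m : ℕ → ENNReal := fun k =>
    ∫⁻ x in ball (0 : E) 1, ENNReal.ofReal (|Q k x| * rexp (4 * u k x)) with hm
  have hQ7 : ∀ k, ∀ x ∈ ball (0 : E) 1, |Q k x| ≤ 7 := by
    intro k x hx
    have h1 := abs_le.mp (hQ6 k x hx)
    have h2 := hd4 k
    rw [abs_le]
    constructor <;> linarith [h1.1, h1.2]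
  have hpt : ∀ k, ∀ S : Set E, MeasurableSet S → S ⊆ ball (0 : E) 1 →
      ∫⁻ x in S, ENNReal.ofReal (|Q k x| * rexp (4 * u k x)) ≤
      7 * ∫⁻ x in S, ENNReal.ofReal (rexp (4 * u k x)) := by
    intro k S hS hSs
    rw [← lintegral_const_mul']
    · refine setLIntegral_mono' hS fun x hx => ?_
      rw [ENNReal.ofReal_mul (abs_nonneg _)]
      gcongr
      have := hQ7 k x (hSs hx)
      calc ENNReal.ofReal |Q k x| ≤ ENNReal.ofReal 7 := ENNReal.ofReal_le_ofReal this
        _ = 7 := by simp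
    · simp
  have hmup : ∀ k, m k ≤ ENNReal.ofReal 1400 := by
    intro k
    calc m k ≤ 7 * ∫⁻ x in ball (0 : E) 1, ENNReal.ofReal (rexp (4 * u k x)) :=
          hpt k _ measurableSet_ball Subset.rfl
      _ ≤ 7 * ENNReal.ofReal 200 := by gcongr; exact hvol k
      _ = ENNReal.ofReal 7 * ENNReal.ofReal 200 := by simp
      _ = ENNReal.ofReal 1400 := by rw [← ENNReal.ofReal_mul (by norm_num)]; norm_num
  have hmlow : ∀ k, ENNReal.ofReal (20 * π ^ 2) ≤ m k := by
    intro k
    refine (hlow k).trans (lintegral_mono_set (ball_subset_ball ?_))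
    have := hd4 k
    linarith
  have hmfin : ∀ k, m k ≠ ⊤ := fun k => ((hmup k).trans_lt ENNReal.ofReal_lt_top).ne
  have hmreal : ∀ k, (m k).toReal ∈ Icc (20 * π ^ 2) 1400 := by
    intro k
    constructor
    · exact (ENNReal.ofReal_le_iff_le_toReal (hmfin k)).mp (hmlow k)
    · exact ENNReal.toReal_le_of_le_ofReal (by norm_num) (hmup k)
  obtain ⟨α, hα, φ, hφ, hφlim⟩ := isCompact_Icc.tendsto_subseq hmreal
  have hmlim : Tendsto (fun k => m (φ k)) atTop (𝓝 (ENNReal.ofReal α)) := by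
    have := ENNReal.tendsto_ofReal hφlim
    refine this.congr fun k => ?_
    simp only [Function.comp]
    exact ENNReal.ofReal_toReal (hmfin _)
  have hdφ : Tendsto (fun k => d (φ k)) atTop (𝓝 0) := hdlim.comp hφ.tendsto_atTop
  have key : ∀ R : ℝ, 0 < R → Tendsto (fun k : ℕ =>
      ∫⁻ x in ball (0 : E) 1 ∩ ball 0 R,
        ENNReal.ofReal (|Q (φ k) x| * rexp (4 * u (φ k) x))) atTop (𝓝 (ENNReal.ofReal α)) := by
    intro R hR
    have hlo : Tendsto (fun k => m (φ k) - 7 * ENNReal.ofReal (d (φ k))) atTop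
        (𝓝 (ENNReal.ofReal α)) := by
      have h1 : Tendsto (fun k => 7 * ENNReal.ofReal (d (φ k))) atTop (𝓝 0) := by
        have h2 := ENNReal.tendsto_ofReal hdφ
        rw [ENNReal.ofReal_zero] at h2
        have h3 := ENNReal.Tendsto.const_mul (a := 7) h2 (Or.inr (by simp))
        simpa using h3
      have := ENNReal.Tendsto.sub hmlim h1 (Or.inl ENNReal.ofReal_ne_top)
      simpa using this
    refine tendsto_of_tendsto_of_tendsto_of_le_of_le' hlo hmlim ?_ ?_
    · have hev : ∀ᶠ k in atTop, d (φ k) < R := hdφ.eventually_lt_const hR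
      filter_upwards [hev] with k hk
      rw [tsub_le_iff_right]
      have hsplit : m (φ k) ≤ (∫⁻ x in ball (0 : E) 1 ∩ ball 0 R,
            ENNReal.ofReal (|Q (φ k) x| * rexp (4 * u (φ k) x))) +
          ∫⁻ x in ball (0 : E) 1 \ ball 0 R,
            ENNReal.ofReal (|Q (φ k) x| * rexp (4 * u (φ k) x)) := by
        simp only [hm]
        rw [← lintegral_inter_add_sdiff _ (ball (0 : E) 1) measurableSet_ball]
      refine hsplit.trans ?_
      gcongr
      calc ∫⁻ x in ball (0 : E) 1 \ ball 0 R,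
            ENNReal.ofReal (|Q (φ k) x| * rexp (4 * u (φ k) x))
          ≤ ∫⁻ x in ball (0 : E) 1 \ ball 0 (d (φ k)),
            ENNReal.ofReal (|Q (φ k) x| * rexp (4 * u (φ k) x)) := by
            apply lintegral_mono_set
            exact sdiff_subset_sdiff_right (ball_subset_ball hk.le)
        _ ≤ 7 * ∫⁻ x in ball (0 : E) 1 \ ball 0 (d (φ k)),
            ENNReal.ofReal (rexp (4 * u (φ k) x)) :=
            hpt _ _ (measurableSet_ball.diff measurableSet_ball) sdiff_subset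
        _ ≤ 7 * ENNReal.ofReal (d (φ k)) := by gcongr; exact hfar (φ k)
    · exact Eventually.of_forall fun k => lintegral_mono_set inter_subset_left
  have hnear : ∀ᶠ R in 𝓝[>] (0 : ℝ), 0 < R := self_mem_nhdsWithin
  refine ⟨ball 0 1, fun k => Q (φ k), fun _ => 6, fun k => u (φ k), isOpen_ball, ?_, ?_, ?_, ?_,
    ?_, ?_, ?_, ?_, ?_⟩
  · exact (convex_ball (0 : E) 1).isConnected ⟨0, mem_ball_self one_pos⟩
  · exact fun k => (hQ (φ k)).contDiffOn
  · exact contDiffOn_const
  · intro K hK _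
    constructor
    · rw [Metric.tendstoUniformlyOn_iff]
      intro e he
      have hev : ∀ᶠ k in atTop, d (φ k) < e := hdφ.eventually_lt_const he
      filter_upwards [hev] with k hk x hx
      rw [dist_comm, Real.dist_eq]
      exact (hQ6 (φ k) x (hK hx)).trans_lt hk
    · rw [Metric.tendstoUniformlyOn_iff]
      intro e he
      have hev : ∀ᶠ k in atTop, d (φ k) < e := hdφ.eventually_lt_const he
      filter_upwards [hev] with k hk x hx
      rw [dist_comm, dist_eq_norm]
      have : fderiv ℝ (fun _ : E => (6 : ℝ)) x = 0 := by simp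
      rw [this, sub_zero]
      exact (hQ' (φ k) x (hK hx)).trans_lt hk
  · intro x _
    norm_num
  · have h4 : (4 : WithTop ℕ∞) ≤ ∞ := by
      have : ((4 : ℕ∞) : WithTop ℕ∞) ≤ ((⊤ : ℕ∞) : WithTop ℕ∞) := WithTop.coe_le_coe.mpr le_top
      exact this
    exact fun k => ((hu (φ k)).of_le h4).contDiffOn
  · intro k x hx
    rw [bilap_eq (hu (φ k))]
    exact hbil (φ k) x hx
  · exact ⟨200, Eventually.of_forall fun k => hvol (φ k)⟩
  · refine ⟨0, mem_ball_self one_pos, α, ?_, ?_, ?_⟩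
    · have h1 := hα.1
      have : 0 < π ^ 2 := by positivity
      linarith
    · refine tendsto_const_nhds.congr' ?_
      filter_upwards [hnear] with R hR
      exact ((key R hR).liminf_eq).symm
    · refine tendsto_const_nhds.congr' ?_
      filter_upwards [hnear] with R hR
      exact ((key R hR).limsup_eq).symm

end Pool.Agent.H23R3.QC
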