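import Pool.Agent.H23R3.QEst

set_option autoImplicit false

namespace Pool.Agent.H23R3.QC

open MeasureTheory Set Filter Topology Real Metric
open scoped ContDiff

lemma J_eq (x : E) : J x = (√‖x‖ ^ 7)⁻¹ := by
  unfold J
  rw [Real.rpow_neg (norm_nonneg x), Real.sqrt_eq_rpow, ← Real.rpow_natCast,
    ← Real.rpow_mul (norm_nonneg x)]
  norm_num

lemma J_neg (x : E) : J (-x) = J x := by unfold J; rw [norm_neg]

section
variable {ε : ℝ}

lemma BJ (hε : 0 < ε) (y z : E) : B ε y * ‖y‖ ^ 2 * ‖z‖⁻¹ ≤ √ε * (J y + J z) := by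
  rw [J_eq, J_eq]
  set ρ := √‖y‖ with hρ
  set τ := √‖z‖ with hτ
  set e := √ε with he
  have hy : ‖y‖ = ρ ^ 2 := (Real.sq_sqrt (norm_nonneg y)).symm
  have hz : ‖z‖ = τ ^ 2 := (Real.sq_sqrt (norm_nonneg z)).symm
  have hee : ε = e ^ 2 := (Real.sq_sqrt hε.le).symm
  have he0 : 0 < e := Real.sqrt_pos.mpr hε
  have hρ0 : 0 ≤ ρ := Real.sqrt_nonneg _
  have hτ0 : 0 ≤ τ := Real.sqrt_nonneg _
  have hB : B ε y = e ^ 8 / (e ^ 4 + ρ ^ 4) ^ 4 := by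
    rw [B_eq, hy, hee]
    rw [div_eq_mul_inv]
    ring_nf
  rw [hB, hy, hz]
  rcases hρ0.eq_or_lt with h | hρp
  · rw [← h]
    simp
    positivity
  rcases hτ0.eq_or_lt with h | hτp
  · rw [← h]
    simp
    positivity
  have hS : 0 < e ^ 4 + ρ ^ 4 := by positivity
  have h1 : e ^ 7 * ρ ^ 9 ≤ (e ^ 4 + ρ ^ 4) ^ 4 := by
    have h2 : (e ^ 7 * ρ ^ 9) ^ 4 ≤ ((e ^ 4 + ρ ^ 4) ^ 4) ^ 4 := by
      calc (e ^ 7 * ρ ^ 9) ^ 4 = (e ^ 4) ^ 7 * (ρ ^ 4) ^ 9 := by ring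
        _ ≤ (e ^ 4 + ρ ^ 4) ^ 7 * (e ^ 4 + ρ ^ 4) ^ 9 := by
            gcongr
            · have : 0 ≤ ρ ^ 4 := by positivity
              linarith
            · have : 0 ≤ e ^ 4 := by positivity
              linarith
        _ = ((e ^ 4 + ρ ^ 4) ^ 4) ^ 4 := by ring
    exact le_of_pow_le_pow_left₀ (by norm_num) (by positivity) h2
  have h3 : e ^ 8 / (e ^ 4 + ρ ^ 4) ^ 4 * (ρ ^ 2) ^ 2 ≤ e * (ρ ^ 5)⁻¹ := by
    rw [div_mul_eq_mul_div, div_le_iff₀ (by positivity)]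
    calc e ^ 8 * (ρ ^ 2) ^ 2 = e * (ρ ^ 5)⁻¹ * (e ^ 7 * ρ ^ 9) := by
          field_simp
      _ ≤ e * (ρ ^ 5)⁻¹ * (e ^ 4 + ρ ^ 4) ^ 4 := by gcongr
  have h4 : (ρ ^ 5)⁻¹ * (τ ^ 2)⁻¹ ≤ (ρ ^ 7)⁻¹ + (τ ^ 7)⁻¹ := by
    rcases le_total ρ τ with h | h
    · have : (ρ ^ 5)⁻¹ * (τ ^ 2)⁻¹ ≤ (ρ ^ 7)⁻¹ := by
        rw [← mul_inv]
        gcongr
        calc ρ ^ 7 = ρ ^ 5 * ρ ^ 2 := by ring
          _ ≤ ρ ^ 5 * τ ^ 2 := by gcongr
      have h5 : 0 ≤ (τ ^ 7)⁻¹ := by positivity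
      linarith
    · have : (ρ ^ 5)⁻¹ * (τ ^ 2)⁻¹ ≤ (τ ^ 7)⁻¹ := by
        rw [← mul_inv]
        gcongr
        calc τ ^ 7 = τ ^ 5 * τ ^ 2 := by ring
          _ ≤ ρ ^ 5 * τ ^ 2 := by gcongr
      have h5 : 0 ≤ (ρ ^ 7)⁻¹ := by positivity
      linarith
  calc e ^ 8 / (e ^ 4 + ρ ^ 4) ^ 4 * (ρ ^ 2) ^ 2 * (τ ^ 2)⁻¹
      ≤ e * (ρ ^ 5)⁻¹ * (τ ^ 2)⁻¹ := by gcongr
    _ = e * ((ρ ^ 5)⁻¹ * (τ ^ 2)⁻¹) := by ring
    _ ≤ e * ((ρ ^ 7)⁻¹ + (τ ^ 7)⁻¹) := by gcongr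

lemma inv_le_J {z : E} (hz : ‖z‖ ≤ 4) : ‖z‖⁻¹ ≤ 32 * J z := by
  rw [J_eq]
  set τ := √‖z‖ with hτ
  have hz' : ‖z‖ = τ ^ 2 := (Real.sq_sqrt (norm_nonneg z)).symm
  have hτ0 : 0 ≤ τ := Real.sqrt_nonneg _
  rw [hz'] at hz ⊢
  rcases hτ0.eq_or_lt with h | hτp
  · rw [← h]; simp
  have h2 : τ ≤ 2 := by nlinarith
  have h3 : τ ^ 5 ≤ 32 := by
    calc τ ^ 5 ≤ 2 ^ 5 := by gcongr
      _ = 32 := by norm_num
  calc (τ ^ 2)⁻¹ = τ ^ 5 * (τ ^ 7)⁻¹ := by field_simp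
    _ ≤ 32 * (τ ^ 7)⁻¹ := by gcongr

noncomputable def JR (z : E) : ℝ := (ball (0 : E) 4).indicator J z

lemma JR_nonneg (z : E) : 0 ≤ JR z := indicator_nonneg (fun x _ => J_nonneg x) z

lemma integrable_JR : Integrable JR := by
  have : Integrable ((ball (0 : E) 4).indicator J) :=
    (integrable_indicator_iff measurableSet_ball).mpr (integrableOn_J 4)
  exact this

lemma JR_eq {z : E} (hz : ‖z‖ < 4) : JR z = J z := by
  unfold JR
  rw [indicator_of_mem (by simpa using hz)]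

noncomputable def KK (ε a : ℝ) : ℝ := 192 * CG a * √ε + 3072 * (ε ^ 4 / a ^ 8)

noncomputable def HH (p x y : E) : ℝ := JR (y - p) + JR (y + p) + JR (y - x)

lemma integrable_HH (p x : E) : Integrable (HH p x) := by
  unfold HH
  have h1 : Integrable (fun y => JR (y - p)) := integrable_JR.comp_sub_right p
  have h2 : Integrable (fun y => JR (y + p)) := integrable_JR.comp_add_right p
  have h3 : Integrable (fun y => JR (y - x)) := integrable_JR.comp_sub_right x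
  exact (h1.add h2).add h3

lemma integral_HH (p x : E) : ∫ y, HH p x y = 3 * ∫ y, JR y := by
  unfold HH
  have h1 : Integrable (fun y => JR (y - p)) := integrable_JR.comp_sub_right p
  have h2 : Integrable (fun y => JR (y + p)) := integrable_JR.comp_add_right p
  have h3 : Integrable (fun y => JR (y - x)) := integrable_JR.comp_sub_right x
  have h12 : Integrable (fun y => JR (y - p) + JR (y + p)) := h1.add h2
  rw [integral_add h12 h3, integral_add h1 h2, integral_sub_right_eq_self JR p,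
    integral_add_right_eq_self JR p, integral_sub_right_eq_self JR x]
  ring

lemma HH_nonneg (p x y : E) : 0 ≤ HH p x y := by
  unfold HH
  have h1 := JR_nonneg (y - p)
  have h2 := JR_nonneg (y + p)
  have h3 := JR_nonneg (y - x)
  positivity

lemma sg_pt {p x y : E} (hε : 0 < ε) (hεa : ε ≤ ‖p‖) (ha : ‖p‖ ≤ 1 / 4) (hx : ‖x‖ ≤ 1)
    (hy : ‖y‖ < 2) : |sg ε p y| * ‖x - y‖⁻¹ ≤ KK ε ‖p‖ * HH p x y := by
  have ha0 : 0 < ‖p‖ := lt_of_lt_of_le hε hεa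
  have hC := CG_pos ha0
  have h1 := sg_bound hε hεa ha hy.le
  have hi : 0 ≤ ‖x - y‖⁻¹ := by positivity
  have n1 : ‖y - p‖ < 4 := by have := norm_sub_le y p; linarith
  have n2 : ‖y + p‖ < 4 := by have := norm_add_le y p; linarith
  have n3 : ‖y - x‖ < 4 := by have := norm_sub_le y x; linarith
  have n4 : ‖x - y‖ < 4 := by rw [norm_sub_rev]; exact n3
  have hJ : J (x - y) = J (y - x) := by rw [← J_neg, neg_sub]
  unfold HH KK
  rw [JR_eq n1, JR_eq n2, JR_eq n3]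
  have b1 := BJ hε (y - p) (x - y)
  have b2 := BJ hε (y + p) (x - y)
  have b3 := inv_le_J n4.le
  rw [hJ] at b1 b2 b3
  have j1 := J_nonneg (y - p)
  have j2 := J_nonneg (y + p)
  have j3 := J_nonneg (y - x)
  have hq : 0 ≤ ε ^ 4 / ‖p‖ ^ 8 := by positivity
  have hs := Real.sqrt_nonneg ε
  calc |sg ε p y| * ‖x - y‖⁻¹
      ≤ (96 * CG ‖p‖ * (B ε (y - p) * ‖y - p‖ ^ 2 + B ε (y + p) * ‖y + p‖ ^ 2) +
        96 * (ε ^ 4 / ‖p‖ ^ 8)) * ‖x - y‖⁻¹ := by gcongr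
    _ = 96 * CG ‖p‖ * (B ε (y - p) * ‖y - p‖ ^ 2 * ‖x - y‖⁻¹ +
        B ε (y + p) * ‖y + p‖ ^ 2 * ‖x - y‖⁻¹) + 96 * (ε ^ 4 / ‖p‖ ^ 8) * ‖x - y‖⁻¹ := by ring
    _ ≤ 96 * CG ‖p‖ * (√ε * (J (y - p) + J (y - x)) + √ε * (J (y + p) + J (y - x))) +
        96 * (ε ^ 4 / ‖p‖ ^ 8) * (32 * J (y - x)) := by gcongr
    _ ≤ _ := by
        have t1 : 0 ≤ CG ‖p‖ * √ε * J (y - p) := by positivity
        have t2 : 0 ≤ CG ‖p‖ * √ε * J (y + p) := by positivity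
        have t3 : 0 ≤ ε ^ 4 / ‖p‖ ^ 8 * J (y - p) := by positivity
        have t4 : 0 ≤ ε ^ 4 / ‖p‖ ^ 8 * J (y + p) := by positivity
        nlinarith

/-! ### the kernel `-log(η²+|z|²)/(16π²)` -/

noncomputable def Ker (η : ℝ) (z : E) : ℝ := -(1 / (16 * π ^ 2)) * Lg η z

lemma contDiff_Ker {η : ℝ} (hη : 0 < η) : ContDiff ℝ ∞ (Ker η) :=
  contDiff_const.mul (contDiff_Lg hη)

lemma bilap_Ker {η : ℝ} (hη : 0 < η) : bilap (Ker η) = ph η := by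
  ext x
  have : bilap (Ker η) x = -(1 / (16 * π ^ 2)) * bilap (Lg η) x := by
    have := bilap_const_mul (contDiff_Lg hη) (-(1 / (16 * π ^ 2)))
    exact congrFun this x
  rw [this, bilap_Lg hη]
  unfold ph B
  have := pi_pos
  field_simp
  ring

lemma fderiv_Lg_norm {η : ℝ} (hη : 0 < η) (z : E) : ‖fderiv ℝ (Lg η) z‖ ≤ 2 * ‖z‖⁻¹ := by
  have hw := w_pos hη z
  have h1 : HasFDerivAt (Lg η) ((w η z)⁻¹ • (2 • innerSL ℝ z)) z :=
    (hasFDerivAt_w η z).log hw.ne'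
  rw [h1.fderiv, norm_smul, ← Nat.cast_smul_eq_nsmul ℝ, norm_smul, innerSL_apply_norm]
  rw [Real.norm_of_nonneg (by positivity)]
  simp only [Nat.cast_ofNat, norm_ofNat]
  rcases (norm_nonneg z).eq_or_lt with h | h
  · rw [← h]; simp
  · rw [inv_mul_le_iff₀ hw]
    have e : w η z * (2 * ‖z‖⁻¹) = 2 * ‖z‖ + 2 * η ^ 2 * ‖z‖⁻¹ := by
      unfold w
      field_simp
      ring
    rw [e]
    have : 0 ≤ 2 * η ^ 2 * ‖z‖⁻¹ := by positivity
    linarith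

lemma fderiv_Ker_norm {η : ℝ} (hη : 0 < η) (z : E) : ‖fderiv ℝ (Ker η) z‖ ≤ ‖z‖⁻¹ := by
  have h0 := (contDiff_Lg hη).differentiable (by simp) z
  have h1 : fderiv ℝ (Ker η) z = (-(1 / (16 * π ^ 2))) • fderiv ℝ (Lg η) z := by
    unfold Ker
    rw [fderiv_const_mul h0]
  rw [h1, norm_smul, norm_neg, Real.norm_of_nonneg (by positivity)]
  have h2 := fderiv_Lg_norm hη z
  have h3 : 1 / (16 * π ^ 2) ≤ 1 / 2 := by
    have : 1 ≤ π := by have := pi_gt_three; linarith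
    gcongr
    nlinarith
  calc 1 / (16 * π ^ 2) * ‖fderiv ℝ (Lg η) z‖ ≤ 1 / 2 * (2 * ‖z‖⁻¹) := by gcongr
    _ = ‖z‖⁻¹ := by ring

lemma fderiv_P_norm {η : ℝ} (hη : 0 < η) {g : E → ℝ} (hg : Continuous g)
    (hgc : HasCompactSupport g) {x : E} {H : E → ℝ} (hH : Integrable H)
    (hb : ∀ y, |g y| * ‖x - y‖⁻¹ ≤ H y) : ‖fderiv ℝ (P (Ker η) g) x‖ ≤ ∫ y, H y := by
  rw [(hasFDerivAt_P (contDiff_Ker hη) hg hgc x).fderiv]
  refine norm_integral_le_of_norm_le hH (Eventually.of_forall fun y => ?_)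
  rw [norm_smul]
  calc ‖g y‖ * ‖fderiv ℝ (Ker η) (x - y)‖ ≤ |g y| * ‖x - y‖⁻¹ := by
        rw [Real.norm_eq_abs]
        gcongr
        exact fderiv_Ker_norm hη _
    _ ≤ H y := hb y

/-! ### mass of a bubble in a ball -/

lemma mass_ball (hε : 0 < ε) (p : E) {a : ℝ} (ha : 0 < a) :
    π ^ 2 / 6 - π ^ 2 * ε ^ 2 / (3 * a ^ 2) ≤ ∫ x in ball p a, B ε (x - p) := by
  have e1 : ∫ x in ball p a, B ε (x - p) = ∫ x in ball (0 : E) a, B ε x := by
    rw [← integral_indicator measurableSet_ball, ← integral_indicator measurableSet_ball,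
      ← integral_sub_right_eq_self ((ball (0 : E) a).indicator (B ε)) p]
    congr 1
    ext x
    by_cases hx : x ∈ ball p a
    · rw [indicator_of_mem hx, indicator_of_mem]
      rw [mem_ball, dist_eq_norm] at hx
      simpa using hx
    · rw [indicator_of_notMem hx, indicator_of_notMem]
      rw [mem_ball, dist_eq_norm] at hx
      simpa using hx
  rw [e1]
  have e2 : ∫ x in ball (0 : E) a, B ε x = (∫ x, B ε x) - ∫ x in (ball (0 : E) a)ᶜ, B ε x := by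
    rw [← integral_add_compl measurableSet_ball (integrable_B hε)]
    ring
  rw [e2, integral_B hε]
  have e3 : ∫ x in (ball (0 : E) a)ᶜ, B ε x ≤ π ^ 2 * ε ^ 2 / (3 * a ^ 2) := by
    calc ∫ x in (ball (0 : E) a)ᶜ, B ε x ≤ ∫ x in (ball (0 : E) a)ᶜ, (1 / a ^ 2) *
          (B ε x * ‖x‖ ^ 2) := by
          refine setIntegral_mono_on (integrable_B hε).integrableOn
            ((integrable_B_sq hε).const_mul _).integrableOn measurableSet_ball.compl ?_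
          intro x hx
          have hx' : a ≤ ‖x‖ := by simpa using hx
          have hB := B_pos hε x
          have : B ε x * a ^ 2 ≤ B ε x * ‖x‖ ^ 2 := by gcongr
          rw [one_div_mul_eq_div, le_div_iff₀ (by positivity)]
          exact this
      _ ≤ ∫ x, (1 / a ^ 2) * (B ε x * ‖x‖ ^ 2) := by
          refine setIntegral_le_integral ((integrable_B_sq hε).const_mul _) ?_
          refine Eventually.of_forall fun x => ?_
          have hB := B_pos hε x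
          simp only [Pi.zero_apply]
          positivity
      _ = π ^ 2 * ε ^ 2 / (3 * a ^ 2) := by
          rw [integral_const_mul, integral_B_sq hε]
          field_simp
  linarith

end

end Pool.Agent.H23R3.QC
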