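import Pool.Agent.H23R3.QStep

set_option autoImplicit false

namespace Pool.Agent.H23R3.QC

open MeasureTheory Set Filter Topology Real Metric
open scoped ContDiff

/-- choice of the bubble width -/
lemma exists_eps {a δ : ℝ} (ha : 0 < a) (hδ : 0 < δ) : ∃ ε : ℝ, 0 < ε ∧ ε ≤ a ∧
    KK ε a * (3 * CJ) ≤ δ ∧
    2 * (16 * (1 + 9 * CG a) * (ε ^ 4 / a ^ 8)) * (π ^ 2 / 2) ≤ δ ∧
    CG a * (π ^ 2 * ε ^ 2 / 3) ≤ 1 ∧ π ^ 2 * ε ^ 2 / (3 * a ^ 2) ≤ π ^ 2 / 60 := by
  have c1 : ContinuousAt (fun ε : ℝ => KK ε a * (3 * CJ)) 0 := by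
    unfold KK
    have : Continuous (fun ε : ℝ => (192 * CG a * √ε + 3072 * (ε ^ 4 / a ^ 8)) * (3 * CJ)) := by
      fun_prop
    exact this.continuousAt
  have c2 : ContinuousAt (fun ε : ℝ =>
      2 * (16 * (1 + 9 * CG a) * (ε ^ 4 / a ^ 8)) * (π ^ 2 / 2)) 0 := by
    have : Continuous (fun ε : ℝ =>
      2 * (16 * (1 + 9 * CG a) * (ε ^ 4 / a ^ 8)) * (π ^ 2 / 2)) := by fun_prop
    exact this.continuousAt
  have c3 : ContinuousAt (fun ε : ℝ => CG a * (π ^ 2 * ε ^ 2 / 3)) 0 := by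
    have : Continuous (fun ε : ℝ => CG a * (π ^ 2 * ε ^ 2 / 3)) := by fun_prop
    exact this.continuousAt
  have c4 : ContinuousAt (fun ε : ℝ => π ^ 2 * ε ^ 2 / (3 * a ^ 2)) 0 := by
    have : Continuous (fun ε : ℝ => π ^ 2 * ε ^ 2 / (3 * a ^ 2)) := by fun_prop
    exact this.continuousAt
  have z1 : (fun ε : ℝ => KK ε a * (3 * CJ)) 0 < δ := by
    simp [KK]; exact hδ
  have z2 : (fun ε : ℝ => 2 * (16 * (1 + 9 * CG a) * (ε ^ 4 / a ^ 8)) * (π ^ 2 / 2)) 0 < δ := by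
    simp; exact hδ
  have z3 : (fun ε : ℝ => CG a * (π ^ 2 * ε ^ 2 / 3)) 0 < 1 := by simp
  have z4 : (fun ε : ℝ => π ^ 2 * ε ^ 2 / (3 * a ^ 2)) 0 < π ^ 2 / 60 := by
    simp; positivity
  have e1 := c1.eventually_lt_const z1
  have e2 := c2.eventually_lt_const z2
  have e3 := c3.eventually_lt_const z3
  have e4 := c4.eventually_lt_const z4
  have e5 : ∀ᶠ ε in 𝓝 (0 : ℝ), ε < a := eventually_lt_nhds ha
  have e := (((e1.and e2).and (e3.and e4)).and e5).filter_mono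
    (nhdsWithin_le_nhds (s := Ioi (0 : ℝ)))
  obtain ⟨ε, ⟨⟨⟨h1, h2⟩, h3, h4⟩, h5⟩, h6⟩ := (e.and self_mem_nhdsWithin).exists
  exact ⟨ε, h6, h5.le, h1.le, h2.le, h3.le, h4.le⟩

theorem main_step (δ : ℝ) (hδ : 0 < δ) (hδ1 : δ ≤ 1 / 4) :
    ∃ u Q : E → ℝ, ContDiff ℝ ∞ u ∧ ContDiff ℝ 1 Q ∧
      (∀ x ∈ ball (0 : E) 1, bilap u x = Q x * rexp (4 * u x)) ∧
      (∀ x ∈ ball (0 : E) 1, |Q x - 6| ≤ δ) ∧
      (∀ x ∈ ball (0 : E) 1, ‖fderiv ℝ Q x‖ ≤ δ) ∧
      (∫⁻ x in ball (0 : E) 1, ENNReal.ofReal (rexp (4 * u x)) ≤ ENNReal.ofReal 200) ∧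
      (∫⁻ x in ball (0 : E) 1 \ ball 0 δ, ENNReal.ofReal (rexp (4 * u x)) ≤ ENNReal.ofReal δ) ∧
      (ENNReal.ofReal (20 * π ^ 2) ≤
        ∫⁻ x in ball (0 : E) δ, ENNReal.ofReal (|Q x| * rexp (4 * u x))) := by
  set a : ℝ := δ / 2 with ha
  have ha0 : 0 < a := by positivity
  set p : E := a • bv 0 with hp
  have hbv : ‖bv 0‖ = 1 := by simp [bv]
  have hpn : ‖p‖ = a := by
    rw [hp, norm_smul, hbv, mul_one, Real.norm_of_nonneg ha0.le]
  have hp4 : ‖p‖ ≤ 1 / 4 := by rw [hpn, ha]; linarith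
  have h2a : 2 * ‖p‖ = δ := by rw [hpn, ha]; ring
  set δ' : ℝ := δ / 1000 with hδ'
  have hδ'0 : 0 < δ' := by positivity
  have hδ'1 : δ' ≤ 1 / 4000 := by rw [hδ']; linarith
  obtain ⟨ε, hε, hεa, k1, k2, k3, k4⟩ := exists_eps ha0 hδ'0
  rw [← hpn] at hεa k1 k2 k3 k4
  -- bounds of v on the closed unit ball
  have hv := contDiff_vv hε p
  obtain ⟨M, hM⟩ : ∃ M : ℝ, ∀ x ∈ closedBall (0 : E) 1, ‖rexp (-4 * vv ε p x)‖ ≤ M := by
    refine (isCompact_closedBall (0 : E) 1).exists_bound_of_continuousOn ?_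
    have : Continuous fun x => rexp (-4 * vv ε p x) := by
      have := hv.continuous
      fun_prop
    exact this.continuousOn
  obtain ⟨M1, hM1⟩ : ∃ M1 : ℝ, ∀ x ∈ closedBall (0 : E) 1, ‖fderiv ℝ (vv ε p) x‖ ≤ M1 := by
    refine (isCompact_closedBall (0 : E) 1).exists_bound_of_continuousOn ?_
    exact (hv.continuous_fderiv (by simp)).continuousOn
  have h0mem : (0 : E) ∈ closedBall (0 : E) 1 := by simp
  have hM0 : 0 < M :=
    lt_of_lt_of_le (norm_pos_iff.mpr (Real.exp_pos (-4 * vv ε p 0)).ne') (hM 0 h0mem)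
  have hM10 : 0 ≤ M1 := (norm_nonneg _).trans (hM1 0 h0mem)
  have hg := contDiff_gg hε p
  have hgc := hasCompactSupport_gg (ε := ε) p
  obtain ⟨L, hL0, hL⟩ := moll_error hg hgc
  -- choice of η
  set A : ℝ := 2 * M * L * (4 * (M1 + 1) + 2) + 1 with hA
  have hA0 : 0 < A := by positivity
  set η : ℝ := δ / (2 * A) with hη
  have hη0 : 0 < η := by positivity
  have hAη : A * η = δ / 2 := by rw [hη]; field_simp
  set ψ : E → ℝ := P (Ker η) (gg ε p) with hψ
  have hψs : ContDiff ℝ ∞ ψ := contDiff_P (contDiff_Ker hη0) hg.continuous hgc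
  set ψ₀ : E → ℝ := fun x => ψ x + -ψ 0 with hψ₀
  have hψ₀s : ContDiff ℝ ∞ ψ₀ := hψs.add contDiff_const
  have hψ₀' : ∀ x ∈ ball (0 : E) 1, ‖fderiv ℝ ψ₀ x‖ ≤ δ' := by
    intro x hx
    have hx1 : ‖x‖ ≤ 1 := by
      have : ‖x‖ < 1 := by simpa using hx
      exact this.le
    have e : fderiv ℝ ψ₀ x = fderiv ℝ ψ x := by
      rw [hψ₀, fderiv_add_const]
    rw [e]
    exact (grad_psi hη0 hε hεa hp4 hx1).trans k1
  have hψb : ∀ x ∈ ball (0 : E) 1, |ψ₀ x| ≤ δ' := by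
    intro x hx
    have h1 := (convex_ball (0 : E) 1).norm_image_sub_le_of_norm_fderiv_le (𝕜 := ℝ)
      (f := ψ₀) (fun y _ => hψ₀s.differentiable (by simp) y) hψ₀' (mem_ball_self one_pos) hx
    have h2 : ψ₀ 0 = 0 := by simp [hψ₀]
    rw [h2, sub_zero, sub_zero] at h1
    have hx1 : ‖x‖ ≤ 1 := by
      have : ‖x‖ < 1 := by simpa using hx
      exact this.le
    calc |ψ₀ x| ≤ δ' * ‖x‖ := h1
      _ ≤ δ' * 1 := by gcongr
      _ = δ' := mul_one _
  set r : E → ℝ := fun x => P (ph η) (gg ε p) x - gg ε p x with hr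
  have hrs : ContDiff ℝ ∞ r := (contDiff_P (contDiff_ph hη0) hg.continuous hgc).sub hg
  have hrb : ∀ x, |r x| ≤ L * η := fun x => (hL η hη0 x).1
  have hrb' : ∀ x, ‖fderiv ℝ r x‖ ≤ L * η := fun x => (hL η hη0 x).2
  set u : E → ℝ := fun x => vv ε p x + ψ₀ x with hu
  have hus : ContDiff ℝ ∞ u := hv.add hψ₀s
  set Q : E → ℝ := fun x => 6 * rexp (-4 * ψ₀ x) + r x * rexp (-4 * u x) with hQ
  have hQs : ContDiff ℝ ∞ Q :=
    (contDiff_const.mul (contDiff_const.mul hψ₀s).exp).add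
      (hrs.mul (contDiff_const.mul hus).exp)
  -- bilaplacian
  have hbil : ∀ x, bilap u x = 96 * B ε (x - p) + 96 * B ε (x + p) + P (ph η) (gg ε p) x := by
    intro x
    have e1 : bilap u x = bilap (vv ε p) x + bilap ψ₀ x := congrFun (bilap_add hv hψ₀s) x
    have e2 : bilap ψ₀ x = bilap ψ x + 0 := by
      have := congrFun (bilap_add hψs (contDiff_const (c := -ψ 0))) x
      rw [hψ₀]
      rw [this, bilap_const]
    rw [e1, e2, bilap_vv hε, hψ, bilap_P (contDiff_Ker hη0) hg.continuous hgc, bilap_Ker hη0,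
      add_zero]
  -- exponentials
  have hexp1 : ∀ x ∈ ball (0 : E) 1, rexp (-4 * ψ₀ x) ≤ 2 ∧ rexp (4 * ψ₀ x) ≤ 2 ∧
      9 / 10 ≤ rexp (4 * ψ₀ x) ∧ |rexp (-4 * ψ₀ x) - 1| ≤ 8 * δ' := by
    intro x hx
    have h1 := hψb x hx
    have h2 := abs_le.mp h1
    have h3 : |(-4) * ψ₀ x| ≤ 1 := by
      rw [abs_mul]
      norm_num
      linarith
    have h4 : |4 * ψ₀ x| ≤ 1 := by
      rw [abs_mul]
      norm_num
      linarith
    have h5 := Real.abs_exp_sub_one_le h3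
    have h6 := Real.abs_exp_sub_one_le h4
    have h7 : |(-4) * ψ₀ x| ≤ 4 * δ' := by
      rw [abs_mul]
      norm_num
      linarith
    have h8 : |4 * ψ₀ x| ≤ 4 * δ' := by
      rw [abs_mul]
      norm_num
      linarith
    have h9 := abs_le.mp (h5.trans (mul_le_mul_of_nonneg_left h7 zero_le_two))
    have h10 := abs_le.mp (h6.trans (mul_le_mul_of_nonneg_left h8 zero_le_two))
    refine ⟨by linarith [h9.2], by linarith [h10.2], by linarith [h10.1], ?_⟩
    calc |rexp (-4 * ψ₀ x) - 1| ≤ 2 * |(-4) * ψ₀ x| := h5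
      _ ≤ 2 * (4 * δ') := by gcongr
      _ = 8 * δ' := by ring
  have hexp2 : ∀ x ∈ ball (0 : E) 1, rexp (-4 * u x) ≤ 2 * M := by
    intro x hx
    have h1 := (hexp1 x hx).1
    have h2 := hM x (ball_subset_closedBall hx)
    rw [Real.norm_of_nonneg (Real.exp_pos _).le] at h2
    calc rexp (-4 * u x) = rexp (-4 * ψ₀ x) * rexp (-4 * vv ε p x) := by
          rw [← Real.exp_add]
          congr 1
          simp only [hu]
          ring
      _ ≤ 2 * M := by gcongr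
  have hLη : 2 * M * (L * η) * (4 * (M1 + 1) + 2) ≤ δ / 2 := by
    rw [← hAη, hA]
    have : 2 * M * (L * η) * (4 * (M1 + 1) + 2) = 2 * M * L * (4 * (M1 + 1) + 2) * η := by ring
    rw [this]
    gcongr
    linarith
  have hpos1 : 0 ≤ 2 * M * (L * η) := by positivity
  have hQ6 : ∀ x ∈ ball (0 : E) 1, |Q x - 6| ≤ δ := by
    intro x hx
    have h1 := (hexp1 x hx).2.2.2
    have h2 := hexp2 x hx
    have h3 := hrb x
    have e : Q x - 6 = 6 * (rexp (-4 * ψ₀ x) - 1) + r x * rexp (-4 * u x) := by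
      simp only [hQ]; ring
    rw [e]
    calc |6 * (rexp (-4 * ψ₀ x) - 1) + r x * rexp (-4 * u x)|
        ≤ |6 * (rexp (-4 * ψ₀ x) - 1)| + |r x * rexp (-4 * u x)| := abs_add_le _ _
      _ = 6 * |rexp (-4 * ψ₀ x) - 1| + |r x| * rexp (-4 * u x) := by
          rw [abs_mul, abs_mul, abs_of_pos (Real.exp_pos (-4 * u x))]
          norm_num
      _ ≤ 6 * (8 * δ') + (L * η) * (2 * M) := by gcongr
      _ ≤ δ := by
          have : (L * η) * (2 * M) ≤ 2 * M * (L * η) * (4 * (M1 + 1) + 2) := by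
            have e : 2 * M * (L * η) * (4 * (M1 + 1) + 2) =
                (L * η) * (2 * M) + (4 * (2 * M * (L * η) * M1) + 5 * (2 * M * (L * η))) := by ring
            have := mul_nonneg hpos1 hM10
            rw [e]
            linarith
          rw [hδ']
          linarith
  have hQ' : ∀ x ∈ ball (0 : E) 1, ‖fderiv ℝ Q x‖ ≤ δ := by
    intro x hx
    have h1 := hexp1 x hx
    have h2 := hexp2 x hx
    have h3 := hrb x
    have h3' := hrb' x
    have h4 := hψ₀' x hx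
    have h5 := hM1 x (ball_subset_closedBall hx)
    have hdψ := (hψ₀s.differentiable (by simp) x).hasFDerivAt
    have hdu := (hus.differentiable (by simp) x).hasFDerivAt
    have hdr := (hrs.differentiable (by simp) x).hasFDerivAt
    have hdQ : HasFDerivAt Q ((6 : ℝ) • (rexp (-4 * ψ₀ x) • ((-4 : ℝ) • fderiv ℝ ψ₀ x)) +
        (r x • (rexp (-4 * u x) • ((-4 : ℝ) • fderiv ℝ u x)) + rexp (-4 * u x) • fderiv ℝ r x))
        x :=
      ((hdψ.const_mul (-4)).exp.const_mul 6).add (hdr.mul (hdu.const_mul (-4)).exp)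
    rw [hdQ.fderiv]
    have hu' : ‖fderiv ℝ u x‖ ≤ M1 + 1 := by
      have e : fderiv ℝ u x = fderiv ℝ (vv ε p) x + fderiv ℝ ψ₀ x := by
        rw [hu]
        exact fderiv_fun_add (hv.differentiable (by simp) x) (hψ₀s.differentiable (by simp) x)
      rw [e]
      refine (norm_add_le _ _).trans ?_
      linarith
    have n1 : ‖(6 : ℝ) • (rexp (-4 * ψ₀ x) • ((-4 : ℝ) • fderiv ℝ ψ₀ x))‖ ≤ 6 * (2 * (4 * δ')) := by
      rw [norm_smul, norm_smul, norm_smul, Real.norm_of_nonneg (Real.exp_pos _).le]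
      norm_num
      have := h1.1
      gcongr
      norm_num at this
      linarith
    have n2 : ‖r x • (rexp (-4 * u x) • ((-4 : ℝ) • fderiv ℝ u x))‖ ≤
        (L * η) * (2 * M * (4 * (M1 + 1))) := by
      rw [norm_smul, norm_smul, norm_smul, Real.norm_of_nonneg (Real.exp_pos _).le,
        Real.norm_eq_abs (r x), Real.norm_eq_abs (-4)]
      rw [show |(-4 : ℝ)| = 4 by norm_num]
      gcongr
    have n3 : ‖rexp (-4 * u x) • fderiv ℝ r x‖ ≤ (2 * M) * (L * η) := by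
      rw [norm_smul, Real.norm_of_nonneg (Real.exp_pos _).le]
      gcongr
    calc _ ≤ 6 * (2 * (4 * δ')) + ((L * η) * (2 * M * (4 * (M1 + 1))) + (2 * M) * (L * η)) := by
          refine (norm_add_le _ _).trans (add_le_add n1 ((norm_add_le _ _).trans (add_le_add n2 n3)))
      _ ≤ δ := by
          have : ((L * η) * (2 * M * (4 * (M1 + 1))) + (2 * M) * (L * η)) ≤
              2 * M * (L * η) * (4 * (M1 + 1) + 2) := by
            have e : ((L * η) * (2 * M * (4 * (M1 + 1))) + (2 * M) * (L * η)) =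
                2 * M * (L * η) * (4 * (M1 + 1) + 2) - 2 * M * (L * η) := by ring
            rw [e]
            linarith
          rw [hδ']
          linarith
  have hule : ∀ x ∈ ball (0 : E) 1, rexp (4 * u x) ≤ 2 * rexp (4 * vv ε p x) := by
    intro x hx
    have h1 := (hexp1 x hx).2.1
    calc rexp (4 * u x) = rexp (4 * ψ₀ x) * rexp (4 * vv ε p x) := by
          rw [← Real.exp_add]
          congr 1
          simp only [hu]
          ring
      _ ≤ 2 * rexp (4 * vv ε p x) := by gcongr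
  refine ⟨u, Q, hus, hQs.of_le (by simp), ?_, hQ6, hQ', ?_, ?_, ?_⟩
  · intro x hx
    have hx1 : ‖x‖ ≤ 1 := by
      have : ‖x‖ < 1 := by simpa using hx
      exact this.le
    rw [hbil]
    have e1 : Q x * rexp (4 * u x) = 6 * rexp (4 * vv ε p x) + r x := by
      simp only [hQ]
      rw [add_mul, mul_assoc, mul_assoc, ← Real.exp_add, ← Real.exp_add]
      have a1 : -4 * ψ₀ x + 4 * u x = 4 * vv ε p x := by simp only [hu]; ring
      have a2 : -4 * u x + 4 * u x = 0 := by ring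
      rw [a1, a2]
      simp
    rw [e1]
    simp only [hr]
    rw [gg_eq hx1]
    unfold sg
    ring
  · refine (mass_upper hε hεa hp4 hule).trans (ENNReal.ofReal_le_ofReal ?_)
    have := pi_lt_d2
    have hpp := pi_pos
    have : π ^ 2 ≤ 10 := by nlinarith
    linarith
  · have := mass_far hε hεa hp4 hule
    rw [h2a] at this
    refine this.trans (ENNReal.ofReal_le_ofReal ?_)
    refine k2.trans ?_
    rw [hδ']
    linarith
  · have hlow : ∀ x ∈ ball (0 : E) (2 * ‖p‖), (9 / 2) * rexp (4 * vv ε p x) ≤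
        |Q x| * rexp (4 * u x) := by
      intro x hx
      have hx' : x ∈ ball (0 : E) 1 := by
        rw [h2a] at hx
        exact ball_subset_ball (by linarith) hx
      have h1 := (hexp1 x hx').2.2.1
      have h2 := abs_le.mp (hQ6 x hx')
      have h3 : 5 ≤ |Q x| := le_trans (by linarith [h2.1]) (le_abs_self _)
      have e : rexp (4 * u x) = rexp (4 * ψ₀ x) * rexp (4 * vv ε p x) := by
        rw [← Real.exp_add]
        congr 1
        simp only [hu]
        ring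
      rw [e]
      calc (9 / 2) * rexp (4 * vv ε p x) = 5 * (9 / 10 * rexp (4 * vv ε p x)) := by ring
        _ ≤ |Q x| * (rexp (4 * ψ₀ x) * rexp (4 * vv ε p x)) := by gcongr
    have := mass_lower hε hεa (by norm_num : (0 : ℝ) ≤ 9 / 2) hlow
    rw [h2a] at this
    refine le_trans (ENNReal.ofReal_le_ofReal ?_) this
    have hpp : 0 < π ^ 2 := by positivity
    linarith

end Pool.Agent.H23R3.QC
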