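import Pool.Agent.H23R3.QCalc

set_option autoImplicit false

namespace Pool.Agent.H23R3.QC

open MeasureTheory Set Filter Topology Real Metric
open scoped ContDiff

/-- potential of `g` with kernel `K` -/
noncomputable def P (K g : E → ℝ) (x : E) : ℝ := ∫ y, K (x - y) * g y

section
variable {K g : E → ℝ}

lemma cont_kernel (hK : Continuous K) (hg : Continuous g) (x : E) :
    Continuous (fun y => K (x - y) * g y) := by fun_prop

lemma int_kernel (hK : Continuous K) (hg : Continuous g) (hgc : HasCompactSupport g) (x : E) :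
    Integrable (fun y => K (x - y) * g y) :=
  (cont_kernel hK hg x).integrable_of_hasCompactSupport (hgc.mul_left)

lemma hasFDerivAt_P (hK : ContDiff ℝ ∞ K) (hg : Continuous g) (hgc : HasCompactSupport g)
    (x : E) : HasFDerivAt (P K g) (∫ y, g y • fderiv ℝ K (x - y)) x := by
  have hK' : Continuous (fderiv ℝ K) := hK.continuous_fderiv (by simp)
  obtain ⟨C, hC⟩ : ∃ C, ∀ z ∈ closedBall x 1, ∀ y ∈ tsupport g, ‖fderiv ℝ K (z - y)‖ ≤ C := by
    have hcomp : IsCompact ((closedBall x 1) ×ˢ (tsupport g)) := (isCompact_closedBall x 1).prod hgc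
    obtain ⟨C, hC⟩ := hcomp.exists_bound_of_continuousOn
      (f := fun q : E × E => fderiv ℝ K (q.1 - q.2)) (by fun_prop)
    exact ⟨C, fun z hz y hy => hC (z, y) ⟨hz, hy⟩⟩
  refine hasFDerivAt_integral_of_dominated_of_fderiv_le (s := ball x 1)
    (bound := fun y => |C| * ‖g y‖)
    (F' := fun x y => g y • fderiv ℝ K (x - y)) (ball_mem_nhds x one_pos) ?_ ?_ ?_ ?_ ?_ ?_
  · exact Eventually.of_forall fun z => (cont_kernel hK.continuous hg z).aestronglyMeasurable
  · exact int_kernel hK.continuous hg hgc x
  · exact (Continuous.aestronglyMeasurable (by fun_prop))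
  · refine Eventually.of_forall fun y z hz => ?_
    rw [norm_smul, mul_comm]
    by_cases hy : y ∈ tsupport g
    · gcongr
      exact (hC z (ball_subset_closedBall hz) y hy).trans (le_abs_self C)
    · have : g y = 0 := image_eq_zero_of_notMem_tsupport hy
      simp [this]
  · exact (hg.norm.integrable_of_hasCompactSupport hgc.norm).const_mul _
  · refine Eventually.of_forall fun y z hz => ?_
    have h1 : HasFDerivAt (fun z => K (z - y)) (fderiv ℝ K (z - y)) z := by
      have h0 : HasFDerivAt K (fderiv ℝ K (z - y)) (z - y) :=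
        ((hK.differentiable (by simp)) (z - y)).hasFDerivAt
      have h2 := h0.comp z ((hasFDerivAt_id z).sub_const y)
      rw [ContinuousLinearMap.comp_id] at h2
      exact h2
    exact h1.mul_const (g y)

lemma fderiv_P_apply (hK : ContDiff ℝ ∞ K) (hg : Continuous g) (hgc : HasCompactSupport g)
    (x v : E) : fderiv ℝ (P K g) x v = P (fun z => fderiv ℝ K z v) g x := by
  have hK' : Continuous (fderiv ℝ K) := hK.continuous_fderiv (by simp)
  rw [(hasFDerivAt_P hK hg hgc x).fderiv]
  rw [ContinuousLinearMap.integral_apply]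
  · unfold P
    refine integral_congr_ae (Eventually.of_forall fun y => ?_)
    simp [mul_comm]
  · have hc : Continuous (fun y => g y • fderiv ℝ K (x - y)) := by fun_prop
    exact hc.integrable_of_hasCompactSupport hgc.smul_right

lemma D_P (hK : ContDiff ℝ ∞ K) (hg : Continuous g) (hgc : HasCompactSupport g) (i : Fin 4) :
    D i (P K g) = P (D i K) g := by
  ext x
  exact fderiv_P_apply hK hg hgc x (bv i)

lemma contDiff_P_nat (hg : Continuous g) (hgc : HasCompactSupport g) (n : ℕ) :
    ∀ K : E → ℝ, ContDiff ℝ ∞ K → ContDiff ℝ n (P K g) := by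
  induction n with
  | zero =>
    intro K hK
    have : Continuous (P K g) := by
      have h : Differentiable ℝ (P K g) := fun x => (hasFDerivAt_P hK hg hgc x).differentiableAt
      exact h.continuous
    exact contDiff_zero.mpr this
  | succ n ih =>
    intro K hK
    have : ContDiff ℝ ((n : WithTop ℕ∞) + 1) (P K g) := by
      rw [contDiff_succ_iff_fderiv_apply]
      refine ⟨fun x => (hasFDerivAt_P hK hg hgc x).differentiableAt, by simp, fun v => ?_⟩
      have e : (fun x => fderiv ℝ (P K g) x v) = P (fun z => fderiv ℝ K z v) g := by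
        ext x; exact fderiv_P_apply hK hg hgc x v
      rw [e]
      apply ih
      exact (contDiff_infty_iff_fderiv.mp hK).2.clm_apply contDiff_const
    exact_mod_cast this

lemma contDiff_P (hK : ContDiff ℝ ∞ K) (hg : Continuous g) (hgc : HasCompactSupport g) :
    ContDiff ℝ ∞ (P K g) :=
  contDiff_infty.mpr fun n => contDiff_P_nat hg hgc n K hK

lemma bilap_P (hK : ContDiff ℝ ∞ K) (hg : Continuous g) (hgc : HasCompactSupport g) (x : E) :
    bilap (P K g) x = P (bilap K) g x := by
  unfold bilap
  have h : ∀ i j : Fin 4, D i (D i (D j (D j (P K g)))) = P (D i (D i (D j (D j K)))) g := by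
    intro i j
    rw [D_P hK hg hgc, D_P (contDiff_D hK j) hg hgc, D_P (contDiff_D (contDiff_D hK j) j) hg hgc,
      D_P (contDiff_D (contDiff_D (contDiff_D hK j) j) i) hg hgc]
  simp_rw [h]
  unfold P
  have hc : ∀ i j : Fin 4, Continuous (D i (D i (D j (D j K)))) := fun i j =>
    (contDiff_D (contDiff_D (contDiff_D (contDiff_D hK j) j) i) i).continuous
  have hint : ∀ i j : Fin 4, Integrable (fun y => D i (D i (D j (D j K))) (x - y) * g y) :=
    fun i j => int_kernel (hc i j) hg hgc x
  rw [← (by
    rw [integral_finsetSum]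
    · refine Finset.sum_congr rfl fun i _ => ?_
      rw [integral_finsetSum]
      intro j _
      exact hint i j
    · intro i _
      exact integrable_finsetSum _ fun j _ => hint i j :
      ∫ y, ∑ i, ∑ j, D i (D i (D j (D j K))) (x - y) * g y =
        ∑ i, ∑ j, ∫ y, D i (D i (D j (D j K))) (x - y) * g y)]
  refine integral_congr_ae (Eventually.of_forall fun y => ?_)
  simp only
  rw [Finset.sum_mul]
  refine Finset.sum_congr rfl fun i _ => ?_
  rw [Finset.sum_mul]

end

/-! ### mollification by an integrable kernel -/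

section Moll
variable {F : Type*} [NormedAddCommGroup F] [NormedSpace ℝ F] [CompleteSpace F]

lemma moll_close {φ : E → ℝ} (h0 : ∀ z, 0 ≤ φ z) (hi : Integrable φ) (h1 : ∫ z, φ z = 1)
    (hm : Integrable fun z => φ z * ‖z‖) {g : E → F} (hg : Continuous g) {L : ℝ}
    (hL : ∀ x y, ‖g x - g y‖ ≤ L * ‖x - y‖) (x : E) :
    ‖(∫ z, φ z • g (x - z)) - g x‖ ≤ L * ∫ z, φ z * ‖z‖ := by
  have hgx : g x = ∫ z, φ z • g x := by
    rw [integral_smul_const, h1, one_smul]
  have hint2 : Integrable fun z => φ z • g x := hi.smul_const _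
  have hdiff : Integrable fun z => φ z • (g (x - z) - g x) := by
    refine Integrable.mono' (hm.const_mul L) ?_ ?_
    · exact hi.aestronglyMeasurable.smul
        (((hg.comp (continuous_const.sub continuous_id)).sub continuous_const).aestronglyMeasurable)
    · refine Eventually.of_forall fun z => ?_
      rw [norm_smul, Real.norm_of_nonneg (h0 z)]
      have := hL (x - z) x
      have e : ‖x - z - x‖ = ‖z‖ := by
        rw [show x - z - x = -z by abel, norm_neg]
      rw [e] at this
      calc φ z * ‖g (x - z) - g x‖ ≤ φ z * (L * ‖z‖) := by gcongr; exact h0 z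
        _ = L * (φ z * ‖z‖) := by ring
  have hsum : ∫ z, φ z • g (x - z) = (∫ z, φ z • (g (x - z) - g x)) + ∫ z, φ z • g x := by
    rw [← integral_add hdiff hint2]
    refine integral_congr_ae (Eventually.of_forall fun z => ?_)
    simp only
    rw [← smul_add, sub_add_cancel]
  rw [hsum, ← hgx, add_sub_cancel_right]
  calc ‖∫ z, φ z • (g (x - z) - g x)‖ ≤ ∫ z, L * (φ z * ‖z‖) := by
        refine norm_integral_le_of_norm_le (hm.const_mul L) (Eventually.of_forall fun z => ?_)
        rw [norm_smul, Real.norm_of_nonneg (h0 z)]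
        have := hL (x - z) x
        have e : ‖x - z - x‖ = ‖z‖ := by
          rw [show x - z - x = -z by abel, norm_neg]
        rw [e] at this
        calc φ z * ‖g (x - z) - g x‖ ≤ φ z * (L * ‖z‖) := by gcongr; exact h0 z
          _ = L * (φ z * ‖z‖) := by ring
    _ = L * ∫ z, φ z * ‖z‖ := integral_const_mul _ _

lemma hasFDerivAt_moll {φ : E → ℝ} (hi : Integrable φ) {g : E → ℝ} (hg : ContDiff ℝ 1 g)
    (hgc : HasCompactSupport g) (x : E) :
    HasFDerivAt (fun x => ∫ z, φ z • g (x - z)) (∫ z, φ z • fderiv ℝ g (x - z)) x := by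
  have hg' : Continuous (fderiv ℝ g) := hg.continuous_fderiv (by simp)
  obtain ⟨C, hC⟩ := hgc.exists_bound_of_continuous hg.continuous
  obtain ⟨C', hC'⟩ := (hgc.fderiv (𝕜 := ℝ)).exists_bound_of_continuous hg'
  refine hasFDerivAt_integral_of_dominated_of_fderiv_le (s := univ)
    (bound := fun z => ‖φ z‖ * C')
    (F' := fun x z => φ z • fderiv ℝ g (x - z)) univ_mem ?_ ?_ ?_ ?_ ?_ ?_
  · refine Eventually.of_forall fun y => ?_
    exact hi.aestronglyMeasurable.smul
      ((hg.continuous.comp (continuous_const.sub continuous_id)).aestronglyMeasurable)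
  · refine Integrable.mono' (hi.norm.mul_const C) ?_ ?_
    · exact hi.aestronglyMeasurable.smul
        ((hg.continuous.comp (continuous_const.sub continuous_id)).aestronglyMeasurable)
    · refine Eventually.of_forall fun z => ?_
      rw [norm_smul]
      gcongr
      exact hC _
  · exact hi.aestronglyMeasurable.smul
      ((hg'.comp (continuous_const.sub continuous_id)).aestronglyMeasurable)
  · refine Eventually.of_forall fun z y _ => ?_
    rw [norm_smul]
    gcongr
    exact hC' _
  · exact hi.norm.mul_const C'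
  · refine Eventually.of_forall fun z y _ => ?_
    have h1 : HasFDerivAt (fun y => g (y - z)) (fderiv ℝ g (y - z)) y := by
      have h0 : HasFDerivAt g (fderiv ℝ g (y - z)) (y - z) :=
        ((hg.differentiable (by simp)) (y - z)).hasFDerivAt
      have h2 := h0.comp y ((hasFDerivAt_id y).sub_const z)
      rw [ContinuousLinearMap.comp_id] at h2
      exact h2
    exact h1.const_smul (φ z)

lemma P_eq_moll (φ g : E → ℝ) (x : E) : P φ g x = ∫ z, φ z • g (x - z) := by
  unfold P
  rw [← integral_sub_left_eq_self _ volume x]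
  simp

end Moll

end Pool.Agent.H23R3.QC
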