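import Pool.Agent.H23R3.QPot

set_option autoImplicit false

namespace Pool.Agent.H23R3.QC

open MeasureTheory Set Filter Topology Real Metric
open scoped ContDiff

/-- the bubble density `η⁴/(η²+|x|²)⁴` -/
noncomputable def B (η : ℝ) (x : E) : ℝ := η ^ 4 * Wp η 4 x

lemma contDiff_B {η : ℝ} (hη : 0 < η) : ContDiff ℝ ∞ (B η) :=
  contDiff_const.mul (contDiff_Wp hη 4)

lemma B_pos {η : ℝ} (hη : 0 < η) (x : E) : 0 < B η x := by
  unfold B Wp
  have := w_pos hη x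
  positivity

lemma vol_ball_one : (volume : Measure E).real (ball 0 1) = π ^ 2 / 2 := by
  unfold Measure.real
  rw [EuclideanSpace.volume_ball]
  have hG : Real.Gamma (((Fintype.card (Fin 4) : ℕ) : ℝ) / 2 + 1) = 2 := by
    have : (((Fintype.card (Fin 4) : ℕ) : ℝ) / 2 + 1) = ((2 : ℕ) : ℝ) + 1 := by
      simp; norm_num
    rw [this, Real.Gamma_nat_eq_factorial]
    norm_num [Nat.factorial]
  rw [hG]
  have hs : √π ^ Fintype.card (Fin 4) = π ^ 2 := by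
    have : √π ^ 4 = (√π ^ 2) ^ 2 := by ring
    simp only [Fintype.card_fin]
    rw [this, Real.sq_sqrt pi_pos.le]
  rw [hs]
  simp
  positivity

lemma finrank_E : Module.finrank ℝ E = 4 := by simp

section
variable {η : ℝ}

lemma deriv_G1 (hη : 0 < η) (y : ℝ) :
    HasDerivAt (fun y : ℝ => -(η ^ 6 + 3 * η ^ 4 * y ^ 2) / (12 * (η ^ 2 + y ^ 2) ^ 3))
      (y ^ 3 * (η ^ 4 * ((η ^ 2 + y ^ 2) ^ 4)⁻¹)) y := by
  have hw : 0 < η ^ 2 + y ^ 2 := by positivity
  have h1 : HasDerivAt (fun y : ℝ => -(η ^ 6 + 3 * η ^ 4 * y ^ 2)) (-(3 * η ^ 4 * (2 * y))) y := by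
    have := (((hasDerivAt_pow 2 y).const_mul (3 * η ^ 4)).const_add (η ^ 6)).fun_neg
    exact this.congr_deriv (by norm_num)
  have h2 : HasDerivAt (fun y : ℝ => 12 * (η ^ 2 + y ^ 2) ^ 3)
      (12 * (3 * (η ^ 2 + y ^ 2) ^ 2 * (2 * y))) y := by
    have := ((((hasDerivAt_pow 2 y).const_add (η ^ 2)).pow 3).const_mul 12)
    simpa using this
  have h3 := h1.div h2 (by positivity)
  refine h3.congr_deriv ?_
  field_simp
  ring

lemma deriv_G2 (hη : 0 < η) (y : ℝ) :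
    HasDerivAt (fun y : ℝ => -(η ^ 2 * (η ^ 6 + 3 * η ^ 4 * y ^ 2 + 3 * η ^ 2 * y ^ 4)) /
      (6 * (η ^ 2 + y ^ 2) ^ 3))
      (y ^ 3 * (η ^ 4 * ((η ^ 2 + y ^ 2) ^ 4)⁻¹ * y ^ 2)) y := by
  have hw : 0 < η ^ 2 + y ^ 2 := by positivity
  have h1 : HasDerivAt (fun y : ℝ => -(η ^ 2 * (η ^ 6 + 3 * η ^ 4 * y ^ 2 + 3 * η ^ 2 * y ^ 4)))
      (-(η ^ 2 * (3 * η ^ 4 * (2 * y) + 3 * η ^ 2 * (4 * y ^ 3)))) y := by
    have := (((((hasDerivAt_pow 2 y).const_mul (3 * η ^ 4)).const_add (η ^ 6)).add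
      ((hasDerivAt_pow 4 y).const_mul (3 * η ^ 2))).const_mul (η ^ 2)).fun_neg
    exact this.congr_deriv (by norm_num)
  have h2 : HasDerivAt (fun y : ℝ => 6 * (η ^ 2 + y ^ 2) ^ 3)
      (6 * (3 * (η ^ 2 + y ^ 2) ^ 2 * (2 * y))) y := by
    have := ((((hasDerivAt_pow 2 y).const_add (η ^ 2)).pow 3).const_mul 6)
    simpa using this
  have h3 := h1.div h2 (by positivity)
  refine h3.congr_deriv ?_
  field_simp
  ring

lemma tendsto_w (η : ℝ) : Tendsto (fun y : ℝ => η ^ 2 + y ^ 2) atTop atTop :=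
  tendsto_atTop_add_const_left _ _ (tendsto_pow_atTop (by norm_num))

lemma tendsto_G1 (hη : 0 < η) :
    Tendsto (fun y : ℝ => -(η ^ 6 + 3 * η ^ 4 * y ^ 2) / (12 * (η ^ 2 + y ^ 2) ^ 3)) atTop
      (𝓝 0) := by
  have h1 : Tendsto (fun y : ℝ => -(η ^ 4 / 4) * (η ^ 2 + y ^ 2)⁻¹ ^ 2) atTop (𝓝 0) := by
    have := ((tendsto_inv_atTop_zero.comp (tendsto_w η)).pow 2).const_mul (-(η ^ 4 / 4))
    simpa using this
  refine tendsto_of_tendsto_of_tendsto_of_le_of_le h1 tendsto_const_nhds ?_ ?_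
  · intro y
    have hw : 0 < η ^ 2 + y ^ 2 := by positivity
    simp only
    rw [le_div_iff₀ (by positivity)]
    have : -(η ^ 4 / 4) * (η ^ 2 + y ^ 2)⁻¹ ^ 2 * (12 * (η ^ 2 + y ^ 2) ^ 3) =
        -(3 * η ^ 4) * (η ^ 2 + y ^ 2) := by
      field_simp
      ring
    rw [this]
    nlinarith [pow_pos hη 6]
  · intro y
    simp only
    apply div_nonpos_of_nonpos_of_nonneg
    · have : 0 ≤ η ^ 6 + 3 * η ^ 4 * y ^ 2 := by positivity
      linarith
    · positivity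

lemma tendsto_G2 (hη : 0 < η) :
    Tendsto (fun y : ℝ => -(η ^ 2 * (η ^ 6 + 3 * η ^ 4 * y ^ 2 + 3 * η ^ 2 * y ^ 4)) /
      (6 * (η ^ 2 + y ^ 2) ^ 3)) atTop (𝓝 0) := by
  have h1 : Tendsto (fun y : ℝ => -(η ^ 4 / 2) * (η ^ 2 + y ^ 2)⁻¹) atTop (𝓝 0) := by
    have := ((tendsto_inv_atTop_zero.comp (tendsto_w η))).const_mul (-(η ^ 4 / 2))
    simpa using this
  refine tendsto_of_tendsto_of_tendsto_of_le_of_le h1 tendsto_const_nhds ?_ ?_
  · intro y
    have hw : 0 < η ^ 2 + y ^ 2 := by positivity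
    simp only
    rw [le_div_iff₀ (by positivity)]
    have : -(η ^ 4 / 2) * (η ^ 2 + y ^ 2)⁻¹ * (6 * (η ^ 2 + y ^ 2) ^ 3) =
        -(3 * η ^ 4) * (η ^ 2 + y ^ 2) ^ 2 := by
      field_simp
      ring
    rw [this]
    have e : 0 ≤ η ^ 6 * y ^ 2 := by positivity
    have e2 : 0 ≤ η ^ 8 := by positivity
    nlinarith
  · intro y
    simp only
    apply div_nonpos_of_nonpos_of_nonneg
    · have : 0 ≤ η ^ 2 * (η ^ 6 + 3 * η ^ 4 * y ^ 2 + 3 * η ^ 2 * y ^ 4) := by positivity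
      linarith
    · positivity

lemma B_eq (η : ℝ) (x : E) : B η x = η ^ 4 * ((η ^ 2 + ‖x‖ ^ 2) ^ 4)⁻¹ := rfl

lemma integrable_B (hη : 0 < η) : Integrable (B η) := by
  have : Integrable (fun x : E => (fun y : ℝ => η ^ 4 * ((η ^ 2 + y ^ 2) ^ 4)⁻¹) ‖x‖) := by
    refine (integrable_fun_norm_addHaar volume
      (f := fun y : ℝ => η ^ 4 * ((η ^ 2 + y ^ 2) ^ 4)⁻¹)).mpr ?_
    rw [finrank_E]
    have h := integrableOn_Ioi_deriv_of_nonneg' (a := (0 : ℝ)) (fun x _ => deriv_G1 hη x)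
      (fun x hx => by
        have : (0 : ℝ) < x := hx
        positivity) (tendsto_G1 hη)
    simpa using h
  exact this

lemma integral_B (hη : 0 < η) : ∫ x, B η x = π ^ 2 / 6 := by
  have h := integral_fun_norm_addHaar (volume : Measure E)
    (fun y : ℝ => η ^ 4 * ((η ^ 2 + y ^ 2) ^ 4)⁻¹)
  have e : (fun x : E => B η x) = fun x => (fun y : ℝ => η ^ 4 * ((η ^ 2 + y ^ 2) ^ 4)⁻¹) ‖x‖ :=
    rfl
  rw [e, h, finrank_E, vol_ball_one]
  have h2 := integral_Ioi_of_hasDerivAt_of_nonneg' (a := (0 : ℝ)) (fun x _ => deriv_G1 hη x)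
      (fun x hx => by
        have : (0 : ℝ) < x := hx
        positivity) (tendsto_G1 hη)
  have h3 : ∫ y in Ioi (0 : ℝ), y ^ (4 - 1) • (η ^ 4 * ((η ^ 2 + y ^ 2) ^ 4)⁻¹) = 1 / 12 := by
    simp only [smul_eq_mul]
    have : (4 - 1 : ℕ) = 3 := rfl
    rw [this, h2]
    have : η ^ 2 ≠ 0 := by positivity
    field_simp
    ring
  rw [h3]
  simp
  ring

lemma integrable_B_sq (hη : 0 < η) : Integrable (fun x => B η x * ‖x‖ ^ 2) := by
  have : Integrable (fun x : E =>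
      (fun y : ℝ => η ^ 4 * ((η ^ 2 + y ^ 2) ^ 4)⁻¹ * y ^ 2) ‖x‖) := by
    refine (integrable_fun_norm_addHaar volume
      (f := fun y : ℝ => η ^ 4 * ((η ^ 2 + y ^ 2) ^ 4)⁻¹ * y ^ 2)).mpr ?_
    rw [finrank_E]
    have h := integrableOn_Ioi_deriv_of_nonneg' (a := (0 : ℝ)) (fun x _ => deriv_G2 hη x)
      (fun x hx => by
        have : (0 : ℝ) < x := hx
        positivity) (tendsto_G2 hη)
    simpa using h
  exact this

lemma integral_B_sq (hη : 0 < η) : ∫ x, B η x * ‖x‖ ^ 2 = π ^ 2 * η ^ 2 / 3 := by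
  have h := integral_fun_norm_addHaar (volume : Measure E)
    (fun y : ℝ => η ^ 4 * ((η ^ 2 + y ^ 2) ^ 4)⁻¹ * y ^ 2)
  have e : (fun x : E => B η x * ‖x‖ ^ 2) =
    fun x => (fun y : ℝ => η ^ 4 * ((η ^ 2 + y ^ 2) ^ 4)⁻¹ * y ^ 2) ‖x‖ := rfl
  rw [e, h, finrank_E, vol_ball_one]
  have h2 := integral_Ioi_of_hasDerivAt_of_nonneg' (a := (0 : ℝ)) (fun x _ => deriv_G2 hη x)
      (fun x hx => by
        have : (0 : ℝ) < x := hx
        positivity) (tendsto_G2 hη)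
  have h3 : ∫ y in Ioi (0 : ℝ), y ^ (4 - 1) • (η ^ 4 * ((η ^ 2 + y ^ 2) ^ 4)⁻¹ * y ^ 2) =
      η ^ 2 / 6 := by
    simp only [smul_eq_mul]
    have : (4 - 1 : ℕ) = 3 := rfl
    rw [this, h2]
    have : η ^ 2 ≠ 0 := by positivity
    field_simp
    ring
  rw [h3]
  simp
  ring

lemma norm_le_am (hη : 0 < η) (x : E) : ‖x‖ ≤ ‖x‖ ^ 2 / (2 * η) + η / 2 := by
  have : ‖x‖ ^ 2 / (2 * η) + η / 2 - ‖x‖ = (‖x‖ - η) ^ 2 / (2 * η) := by
    field_simp
    ring
  have h2 : 0 ≤ (‖x‖ - η) ^ 2 / (2 * η) := by positivity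
  linarith

lemma B_norm_le (hη : 0 < η) (x : E) :
    B η x * ‖x‖ ≤ (1 / (2 * η)) * (B η x * ‖x‖ ^ 2) + (η / 2) * B η x := by
  have := mul_le_mul_of_nonneg_left (norm_le_am hη x) (B_pos hη x).le
  calc B η x * ‖x‖ ≤ B η x * (‖x‖ ^ 2 / (2 * η) + η / 2) := this
    _ = _ := by ring

lemma integrable_B_norm (hη : 0 < η) : Integrable (fun x => B η x * ‖x‖) := by
  refine Integrable.mono' (((integrable_B_sq hη).const_mul (1 / (2 * η))).add
    ((integrable_B hη).const_mul (η / 2))) ?_ ?_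
  · exact ((contDiff_B hη).continuous.mul continuous_norm).aestronglyMeasurable
  · refine Eventually.of_forall fun x => ?_
    rw [Real.norm_of_nonneg (mul_nonneg (B_pos hη x).le (norm_nonneg x))]
    exact B_norm_le hη x

lemma integral_B_norm_le (hη : 0 < η) : ∫ x, B η x * ‖x‖ ≤ π ^ 2 * η / 4 := by
  calc ∫ x, B η x * ‖x‖ ≤ ∫ x, ((1 / (2 * η)) * (B η x * ‖x‖ ^ 2) + (η / 2) * B η x) :=
        integral_mono (integrable_B_norm hη) (((integrable_B_sq hη).const_mul (1 / (2 * η))).add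
          ((integrable_B hη).const_mul (η / 2))) (fun x => B_norm_le hη x)
    _ = (1 / (2 * η)) * (π ^ 2 * η ^ 2 / 3) + (η / 2) * (π ^ 2 / 6) := by
        rw [integral_add ((integrable_B_sq hη).const_mul (1 / (2 * η)))
          ((integrable_B hη).const_mul (η / 2)), integral_const_mul, integral_const_mul,
          integral_B hη, integral_B_sq hη]
    _ = π ^ 2 * η / 4 := by
        field_simp
        ring

/-- the normalised kernel -/
noncomputable def ph (η : ℝ) (x : E) : ℝ := 6 / π ^ 2 * B η x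

lemma ph_nonneg (hη : 0 < η) (x : E) : 0 ≤ ph η x := by
  have := B_pos hη x
  unfold ph
  positivity

lemma integrable_ph (hη : 0 < η) : Integrable (ph η) := (integrable_B hη).const_mul _

lemma integral_ph (hη : 0 < η) : ∫ x, ph η x = 1 := by
  unfold ph
  rw [integral_const_mul, integral_B hη]
  have := pi_pos
  field_simp

lemma integrable_ph_norm (hη : 0 < η) : Integrable (fun x => ph η x * ‖x‖) := by
  have := (integrable_B_norm hη).const_mul (6 / π ^ 2)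
  refine this.congr (Eventually.of_forall fun x => ?_)
  simp only [ph]
  ring

lemma integral_ph_norm_le (hη : 0 < η) : ∫ x, ph η x * ‖x‖ ≤ 3 / 2 * η := by
  have e : (fun x => ph η x * ‖x‖) = fun x => 6 / π ^ 2 * (B η x * ‖x‖) := by
    ext x; unfold ph; ring
  rw [e, integral_const_mul]
  have := integral_B_norm_le hη
  have hp := pi_pos
  calc 6 / π ^ 2 * ∫ x, B η x * ‖x‖ ≤ 6 / π ^ 2 * (π ^ 2 * η / 4) := by gcongr
    _ = 3 / 2 * η := by field_simp; ring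

end

/-! ### the singular weight -/

noncomputable def J (x : E) : ℝ := ‖x‖ ^ (-(7 / 2) : ℝ)

lemma J_nonneg (x : E) : 0 ≤ J x := Real.rpow_nonneg (norm_nonneg x) _

lemma measurable_J : Measurable J := by
  unfold J
  exact (measurable_norm.pow_const _)

lemma integrableOn_J (R : ℝ) : IntegrableOn J (ball 0 R) := by
  refine integrableOn_ball_of_norm_le_rpow (C := 1) (α := 7 / 2) ?_ ?_ ?_ ?_
  · rw [finrank_E]; norm_num
  · rw [finrank_E]; norm_num
  · refine Eventually.of_forall fun x => ?_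
    rw [Real.norm_of_nonneg (J_nonneg x), one_mul]
    rfl
  · exact measurable_J.aestronglyMeasurable

end Pool.Agent.H23R3.QC
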