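import Pool.Agent.H23R3.QKer

set_option autoImplicit false

namespace Pool.Agent.H23R3.QC

open MeasureTheory Set Filter Topology Real Metric
open scoped ContDiff

section
variable {ε : ℝ}

lemma contDiff_vv (hε : 0 < ε) (p : E) : ContDiff ℝ ∞ (vv ε p) := by
  unfold vv
  have h1 : ContDiff ℝ ∞ (fun x : E => Lg ε (x - p)) :=
    (contDiff_Lg hε).comp (contDiff_id.sub contDiff_const)
  have h2 : ContDiff ℝ ∞ (fun x : E => Lg ε (x + p)) :=
    (contDiff_Lg hε).comp (contDiff_id.add contDiff_const)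
  have h3 : ContDiff ℝ ∞ (fun x : E => ‖x‖ ^ 2) := contDiff_norm_sq ℝ
  exact ((h1.neg.add h2.neg).add (contDiff_const.mul h3)).add contDiff_const

lemma bilap_vv (hε : 0 < ε) (p x : E) :
    bilap (vv ε p) x = 96 * B ε (x - p) + 96 * B ε (x + p) := by
  have h1 : ContDiff ℝ ∞ (fun x : E => Lg ε (x - p)) :=
    (contDiff_Lg hε).comp (contDiff_id.sub contDiff_const)
  have h2 : ContDiff ℝ ∞ (fun x : E => Lg ε (x - -p)) :=
    (contDiff_Lg hε).comp (contDiff_id.sub contDiff_const)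
  have h3 : ContDiff ℝ ∞ (fun x : E => ‖x‖ ^ 2) := contDiff_norm_sq ℝ
  have e : vv ε p = fun x => (((-1) * Lg ε (x - p) + (-1) * Lg ε (x - -p)) +
      (2 / Dn ε p) * ‖x‖ ^ 2) + (Real.log (2 * ε * Dn ε p) - (2 / Dn ε p) * ‖p‖ ^ 2) := by
    ext x
    unfold vv
    rw [sub_neg_eq_add]
    ring
  rw [e, bilap_add (((contDiff_const.mul h1).add (contDiff_const.mul h2)).add
    (contDiff_const.mul h3)) contDiff_const, bilap_add ((contDiff_const.mul h1).add
    (contDiff_const.mul h2)) (contDiff_const.mul h3), bilap_add (contDiff_const.mul h1)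
    (contDiff_const.mul h2), bilap_const_mul h1, bilap_const_mul h2, bilap_const_mul h3,
    bilap_const, bilap_comp_sub, bilap_comp_sub]
  simp only
  rw [bilap_Lg hε, bilap_Lg hε, bilap_norm_sq, sub_neg_eq_add]
  unfold B
  ring

lemma contDiff_sg (hε : 0 < ε) (p : E) : ContDiff ℝ ∞ (sg ε p) := by
  unfold sg
  have h1 : ContDiff ℝ ∞ (fun x : E => B ε (x - p)) :=
    (contDiff_B hε).comp (contDiff_id.sub contDiff_const)
  have h2 : ContDiff ℝ ∞ (fun x : E => B ε (x + p)) :=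
    (contDiff_B hε).comp (contDiff_id.add contDiff_const)
  have h3 : ContDiff ℝ ∞ (fun x : E => rexp (4 * vv ε p x)) :=
    (contDiff_const.mul (contDiff_vv hε p)).exp
  exact ((contDiff_const.mul h3).sub (contDiff_const.mul h1)).sub (contDiff_const.mul h2)

/-- cutoff -/
noncomputable def chi : ContDiffBump (0 : E) := ⟨1, 2, by norm_num, by norm_num⟩

noncomputable def gg (ε : ℝ) (p x : E) : ℝ := chi x * sg ε p x

lemma contDiff_gg (hε : 0 < ε) (p : E) : ContDiff ℝ ∞ (gg ε p) :=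
  chi.contDiff.mul (contDiff_sg hε p)

lemma hasCompactSupport_gg (p : E) : HasCompactSupport (gg ε p) :=
  chi.hasCompactSupport.mul_right

lemma gg_eq {p x : E} (hx : ‖x‖ ≤ 1) : gg ε p x = sg ε p x := by
  unfold gg
  rw [chi.one_of_mem_closedBall (by simpa [chi] using hx), one_mul]

lemma gg_pt {p x y : E} (hε : 0 < ε) (hεa : ε ≤ ‖p‖) (ha : ‖p‖ ≤ 1 / 4) (hx : ‖x‖ ≤ 1) :
    |gg ε p y| * ‖x - y‖⁻¹ ≤ KK ε ‖p‖ * HH p x y := by
  have hK : 0 ≤ KK ε ‖p‖ := by
    unfold KK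
    have := CG_pos (lt_of_lt_of_le hε hεa)
    positivity
  by_cases hy : ‖y‖ < 2
  · refine le_trans ?_ (sg_pt hε hεa ha hx hy)
    unfold gg
    rw [abs_mul]
    have h1 : |chi y| ≤ 1 := by
      rw [abs_of_nonneg chi.nonneg]
      exact chi.le_one
    calc |chi y| * |sg ε p y| * ‖x - y‖⁻¹ ≤ 1 * |sg ε p y| * ‖x - y‖⁻¹ := by gcongr
      _ = _ := by rw [one_mul]
  · have : chi y = 0 := by
      apply chi.zero_of_le_dist
      simp only [chi, dist_zero_right]
      push Not at hy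
      exact hy
    unfold gg
    rw [this]
    simp only [zero_mul, abs_zero]
    exact mul_nonneg hK (HH_nonneg p x y)

noncomputable def CJ : ℝ := ∫ y, JR y

lemma grad_psi {η : ℝ} (hη : 0 < η) {p x : E} (hε : 0 < ε) (hεa : ε ≤ ‖p‖) (ha : ‖p‖ ≤ 1 / 4)
    (hx : ‖x‖ ≤ 1) : ‖fderiv ℝ (P (Ker η) (gg ε p)) x‖ ≤ KK ε ‖p‖ * (3 * CJ) := by
  have := fderiv_P_norm hη (contDiff_gg hε p).continuous (hasCompactSupport_gg p)
    ((integrable_HH p x).const_mul (KK ε ‖p‖)) (fun y => gg_pt hε hεa ha hx)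
  rwa [integral_const_mul, integral_HH] at this

lemma exists_lip {F : Type*} [NormedAddCommGroup F] [NormedSpace ℝ F] {g : E → F}
    (hg : ContDiff ℝ ∞ g) (hgc : HasCompactSupport g) :
    ∃ L : ℝ, 0 ≤ L ∧ ∀ x y, ‖g x - g y‖ ≤ L * ‖x - y‖ := by
  obtain ⟨C, hC⟩ := ContDiff.lipschitzWith_of_hasCompactSupport hgc hg (by simp)
  exact ⟨C, C.2, fun x y => by
    have := hC.norm_sub_le x y
    exact this⟩

/-- the mollification error is small in `C¹` -/
lemma moll_error {g : E → ℝ} (hg : ContDiff ℝ ∞ g) (hgc : HasCompactSupport g) :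
    ∃ L : ℝ, 0 ≤ L ∧ ∀ η : ℝ, 0 < η → ∀ x, |P (ph η) g x - g x| ≤ L * η ∧
      ‖fderiv ℝ (fun x => P (ph η) g x - g x) x‖ ≤ L * η := by
  obtain ⟨L1, h1, hL1⟩ := exists_lip hg hgc
  have hg' : ContDiff ℝ ∞ (fderiv ℝ g) := (contDiff_infty_iff_fderiv.mp hg).2
  obtain ⟨L2, h2, hL2⟩ := exists_lip hg' (hgc.fderiv (𝕜 := ℝ))
  refine ⟨3 / 2 * (L1 + L2), by positivity, fun η hη x => ⟨?_, ?_⟩⟩
  · have h := moll_close (ph_nonneg hη) (integrable_ph hη) (integral_ph hη) (integrable_ph_norm hη)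
      hg.continuous hL1 x
    rw [P_eq_moll]
    have h3 := integral_ph_norm_le hη
    calc |(∫ z, ph η z • g (x - z)) - g x| ≤ L1 * ∫ z, ph η z * ‖z‖ := h
      _ ≤ L1 * (3 / 2 * η) := by gcongr
      _ ≤ 3 / 2 * (L1 + L2) * η := by
        have : 0 ≤ L2 * η := by positivity
        linarith
  · have h := moll_close (ph_nonneg hη) (integrable_ph hη) (integral_ph hη) (integrable_ph_norm hη)
      hg'.continuous hL2 x
    have hd := hasFDerivAt_moll (integrable_ph hη) (hg.of_le (by simp)) hgc x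
    have hd2 : HasFDerivAt (fun x => P (ph η) g x - g x)
        ((∫ z, ph η z • fderiv ℝ g (x - z)) - fderiv ℝ g x) x := by
      have e : (fun x => P (ph η) g x - g x) = fun x => (∫ z, ph η z • g (x - z)) - g x := by
        ext x; rw [P_eq_moll]
      rw [e]
      exact hd.sub (hg.differentiable (by simp) x).hasFDerivAt
    rw [hd2.fderiv]
    have h3 := integral_ph_norm_le hη
    calc ‖(∫ z, ph η z • fderiv ℝ g (x - z)) - fderiv ℝ g x‖ ≤ L2 * ∫ z, ph η z * ‖z‖ := h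
      _ ≤ L2 * (3 / 2 * η) := by gcongr
      _ ≤ 3 / 2 * (L1 + L2) * η := by
        have : 0 ≤ L1 * η := by positivity
        linarith

lemma contDiff_ph {η : ℝ} (hη : 0 < η) : ContDiff ℝ ∞ (ph η) := contDiff_const.mul (contDiff_B hη)

/-! ### masses of `e^{4v}` -/

lemma mass_upper {p : E} (hε : 0 < ε) (hεa : ε ≤ ‖p‖) (ha : ‖p‖ ≤ 1 / 4) {u : E → ℝ}
    (hu : ∀ x ∈ ball (0 : E) 1, rexp (4 * u x) ≤ 2 * rexp (4 * vv ε p x)) :
    ∫⁻ x in ball (0 : E) 1, ENNReal.ofReal (rexp (4 * u x)) ≤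
      ENNReal.ofReal (64 * (π ^ 2 / 6 + CG ‖p‖ * (π ^ 2 * ε ^ 2 / 3))) := by
  have ha0 : 0 < ‖p‖ := lt_of_lt_of_le hε hεa
  have hC := CG_pos ha0
  set R : E → ℝ := fun x => 32 * (B ε (x - p) + CG ‖p‖ * (B ε (x - p) * ‖x - p‖ ^ 2)) +
      32 * (B ε (x + p) + CG ‖p‖ * (B ε (x + p) * ‖x + p‖ ^ 2)) with hR
  have i1 : Integrable (fun x => B ε (x - p)) := (integrable_B hε).comp_sub_right p
  have i2 : Integrable (fun x => B ε (x - p) * ‖x - p‖ ^ 2) :=
    (integrable_B_sq hε).comp_sub_right p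
  have i3 : Integrable (fun x => B ε (x + p)) := (integrable_B hε).comp_add_right p
  have i4 : Integrable (fun x => B ε (x + p) * ‖x + p‖ ^ 2) :=
    (integrable_B_sq hε).comp_add_right p
  have i12 : Integrable (fun x => B ε (x - p) + CG ‖p‖ * (B ε (x - p) * ‖x - p‖ ^ 2)) :=
    i1.add (i2.const_mul _)
  have i34 : Integrable (fun x => B ε (x + p) + CG ‖p‖ * (B ε (x + p) * ‖x + p‖ ^ 2)) :=
    i3.add (i4.const_mul _)
  have iR : Integrable R := (i12.const_mul 32).add (i34.const_mul 32)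
  have hRint : ∫ x, R x = 64 * (π ^ 2 / 6 + CG ‖p‖ * (π ^ 2 * ε ^ 2 / 3)) := by
    rw [hR, integral_add (i12.const_mul 32) (i34.const_mul 32), integral_const_mul,
      integral_const_mul, integral_add i1 (i2.const_mul _), integral_add i3 (i4.const_mul _),
      integral_const_mul, integral_const_mul]
    have e1 := integral_sub_right_eq_self (μ := (volume : Measure E)) (B ε) p
    have e2 := integral_sub_right_eq_self (μ := (volume : Measure E))
      (fun x => B ε x * ‖x‖ ^ 2) p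
    have e3 := integral_add_right_eq_self (μ := (volume : Measure E)) (B ε) p
    have e4 := integral_add_right_eq_self (μ := (volume : Measure E))
      (fun x => B ε x * ‖x‖ ^ 2) p
    rw [e1, e2, e3, e4, integral_B hε, integral_B_sq hε]
    ring
  have hR0 : ∀ x, 0 ≤ R x := by
    intro x
    have hB1 := B_pos hε (x - p)
    have hB2 := B_pos hε (x + p)
    simp only [hR]
    positivity
  rw [← hRint, ofReal_integral_eq_lintegral_ofReal iR (Eventually.of_forall hR0)]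
  calc ∫⁻ x in ball (0 : E) 1, ENNReal.ofReal (rexp (4 * u x))
      ≤ ∫⁻ x in ball (0 : E) 1, ENNReal.ofReal (R x) := by
        refine setLIntegral_mono' measurableSet_ball fun x hx => ?_
        apply ENNReal.ofReal_le_ofReal
        have hx' : ‖x‖ ≤ 2 := by
          have : ‖x‖ < 1 := by simpa using hx
          linarith
        have := exp4v_le hε hεa ha hx'
        have h2 := hu x hx
        simp only [hR]
        linarith
    _ ≤ ∫⁻ x, ENNReal.ofReal (R x) := setLIntegral_le_lintegral _ _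

lemma mass_far {p : E} (hε : 0 < ε) (hεa : ε ≤ ‖p‖) (ha : ‖p‖ ≤ 1 / 4) {u : E → ℝ}
    (hu : ∀ x ∈ ball (0 : E) 1, rexp (4 * u x) ≤ 2 * rexp (4 * vv ε p x)) :
    ∫⁻ x in ball (0 : E) 1 \ ball 0 (2 * ‖p‖), ENNReal.ofReal (rexp (4 * u x)) ≤
      ENNReal.ofReal (2 * (16 * (1 + 9 * CG ‖p‖) * (ε ^ 4 / ‖p‖ ^ 8)) * (π ^ 2 / 2)) := by
  have ha0 : 0 < ‖p‖ := lt_of_lt_of_le hε hεa
  have hC := CG_pos ha0
  set c : ℝ := 2 * (16 * (1 + 9 * CG ‖p‖) * (ε ^ 4 / ‖p‖ ^ 8)) with hc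
  have hc0 : 0 ≤ c := by positivity
  calc ∫⁻ x in ball (0 : E) 1 \ ball 0 (2 * ‖p‖), ENNReal.ofReal (rexp (4 * u x))
      ≤ ∫⁻ x in ball (0 : E) 1 \ ball 0 (2 * ‖p‖), ENNReal.ofReal c := by
        refine setLIntegral_mono' (measurableSet_ball.diff measurableSet_ball) fun x hx => ?_
        apply ENNReal.ofReal_le_ofReal
        have hx1 : ‖x‖ < 1 := by simpa using hx.1
        have hx2 : 2 * ‖p‖ ≤ ‖x‖ := by simpa using hx.2
        have := exp4v_far hε hεa ha (by linarith) hx2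
        have h2 := hu x hx.1
        rw [hc]
        linarith
    _ ≤ ∫⁻ x in ball (0 : E) 1, ENNReal.ofReal c := lintegral_mono_set diff_subset
    _ = ENNReal.ofReal c * volume (ball (0 : E) 1) := by rw [setLIntegral_const]
    _ = ENNReal.ofReal (c * (π ^ 2 / 2)) := by
        rw [ENNReal.ofReal_mul hc0, ← vol_ball_one, Measure.real, ENNReal.ofReal_toReal]
        exact measure_ball_lt_top.ne

lemma mass_lower {p : E} (hε : 0 < ε) (hεa : ε ≤ ‖p‖) {h : E → ℝ} {c : ℝ} (hc : 0 ≤ c)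
    (hu : ∀ x ∈ ball (0 : E) (2 * ‖p‖), c * rexp (4 * vv ε p x) ≤ h x) :
    ENNReal.ofReal (32 * c * (π ^ 2 / 6 - π ^ 2 * ε ^ 2 / (3 * ‖p‖ ^ 2))) ≤
      ∫⁻ x in ball (0 : E) (2 * ‖p‖), ENNReal.ofReal (h x) := by
  have ha0 : 0 < ‖p‖ := lt_of_lt_of_le hε hεa
  have key : ∀ q : E, ‖q‖ = ‖p‖ → (∀ x, 16 * B ε (x - q) ≤ rexp (4 * vv ε p x)) →
      ENNReal.ofReal (16 * c * (π ^ 2 / 6 - π ^ 2 * ε ^ 2 / (3 * ‖p‖ ^ 2))) ≤
        ∫⁻ x in ball q ‖p‖, ENNReal.ofReal (h x) := by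
    intro q hq hge
    have h1 := mass_ball hε q ha0
    have hi : IntegrableOn (fun x => 16 * c * B ε (x - q)) (ball q ‖p‖) :=
      (((integrable_B hε).comp_sub_right q).const_mul _).integrableOn
    calc ENNReal.ofReal (16 * c * (π ^ 2 / 6 - π ^ 2 * ε ^ 2 / (3 * ‖p‖ ^ 2)))
        ≤ ENNReal.ofReal (∫ x in ball q ‖p‖, 16 * c * B ε (x - q)) := by
          apply ENNReal.ofReal_le_ofReal
          rw [integral_const_mul]
          gcongr
      _ = ∫⁻ x in ball q ‖p‖, ENNReal.ofReal (16 * c * B ε (x - q)) := by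
          refine ofReal_integral_eq_lintegral_ofReal hi (Eventually.of_forall fun x => ?_)
          have := B_pos hε (x - q)
          simp only [Pi.zero_apply]
          positivity
      _ ≤ ∫⁻ x in ball q ‖p‖, ENNReal.ofReal (h x) := by
          refine setLIntegral_mono' measurableSet_ball fun x hx => ?_
          apply ENNReal.ofReal_le_ofReal
          have hx' : x ∈ ball (0 : E) (2 * ‖p‖) := by
            rw [mem_ball, dist_eq_norm] at hx
            rw [mem_ball_zero_iff]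
            have := norm_add_le (x - q) q
            rw [sub_add_cancel, hq] at this
            linarith
          have h2 := hu x hx'
          have h3 := hge x
          calc 16 * c * B ε (x - q) = c * (16 * B ε (x - q)) := by ring
            _ ≤ c * rexp (4 * vv ε p x) := by gcongr
            _ ≤ h x := h2
  have k1 := key p rfl (fun x => exp4v_ge hε)
  have k2 := key (-p) (norm_neg p) (fun x => by
    rw [sub_neg_eq_add]; exact exp4v_ge' hε)
  have hdisj : Disjoint (ball p ‖p‖) (ball (-p) ‖p‖) := by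
    apply ball_disjoint_ball
    rw [dist_eq_norm, sub_neg_eq_add, ← two_smul ℝ p, norm_smul]
    norm_num
    linarith
  have hsub : ball p ‖p‖ ∪ ball (-p) ‖p‖ ⊆ ball (0 : E) (2 * ‖p‖) := by
    intro x hx
    rw [mem_ball_zero_iff]
    rcases hx with hx | hx
    · rw [mem_ball, dist_eq_norm] at hx
      have := norm_add_le (x - p) p
      rw [sub_add_cancel] at this
      linarith
    · rw [mem_ball, dist_eq_norm] at hx
      have := norm_add_le (x - -p) (-p)
      rw [sub_add_cancel, norm_neg] at this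
      linarith
  have e : ENNReal.ofReal (32 * c * (π ^ 2 / 6 - π ^ 2 * ε ^ 2 / (3 * ‖p‖ ^ 2))) ≤
      ENNReal.ofReal (16 * c * (π ^ 2 / 6 - π ^ 2 * ε ^ 2 / (3 * ‖p‖ ^ 2))) +
      ENNReal.ofReal (16 * c * (π ^ 2 / 6 - π ^ 2 * ε ^ 2 / (3 * ‖p‖ ^ 2))) := by
    rw [show 32 * c * (π ^ 2 / 6 - π ^ 2 * ε ^ 2 / (3 * ‖p‖ ^ 2)) =
      16 * c * (π ^ 2 / 6 - π ^ 2 * ε ^ 2 / (3 * ‖p‖ ^ 2)) +
      16 * c * (π ^ 2 / 6 - π ^ 2 * ε ^ 2 / (3 * ‖p‖ ^ 2)) by ring]
    exact ENNReal.ofReal_add_le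
  calc _ ≤ _ := e
    _ ≤ (∫⁻ x in ball p ‖p‖, ENNReal.ofReal (h x)) + ∫⁻ x in ball (-p) ‖p‖, ENNReal.ofReal (h x) :=
        add_le_add k1 k2
    _ = ∫⁻ x in ball p ‖p‖ ∪ ball (-p) ‖p‖, ENNReal.ofReal (h x) :=
        (lintegral_union measurableSet_ball hdisj).symm
    _ ≤ _ := lintegral_mono_set hsub

end

end Pool.Agent.H23R3.QC
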